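import Pool.Agent.Lib.H60T.Defs

/-! # H60T, chunk A1 (M/L): triangularisation with prescribed order of the eigenvalues

PROOF.  Induction on `n` (over all `M`, `z`).  `n = 0`: `b = 0`, linear independence of an empty family.
`n + 1`: `z 0` is a root of the characteristic polynomial, so there is `v ≠ 0` with `M *ᵥ v = z 0 • v`
(`Matrix.exists_mulVec_eq_zero_iff` for `z 0 • 1 - M`, or `Module.End.HasEigenvalue`).  Extend `v` to an invertible matrix `S` with first
column `v` (extend the linearly independent family `v` to a basis and reindex by `Fin (n+1)` with `v` first; or: some coordinate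
`v p ≠ 0`, take for `S` the identity with column `p` replaced by `v` and then the columns `0, p` swapped).  `N = S⁻¹ M S` has first column
`z 0 • e_0`; write `N = (z 0, r; 0, M')`.  Expansion of `det (X - N)` along the first column (`Matrix.det_succ_column_zero`) gives
`charpoly M = charpoly N = (X - z 0) * charpoly M'` (`Matrix.charpoly` is invariant under conjugation; `Matrix.charpoly_units_conj`),
so `roots (charpoly M') = map (z ∘ succ)` (cancel in the multiset `z 0 ::ₘ _`).  By induction there is `b'` for `M'`, `z ∘ succ`.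
Put `b 0 = v = S *ᵥ e_0` and `b (succ j) = S *ᵥ (Fin.cons 0 (b' j))`.  Then
`N *ᵥ (cons 0 (b' j)) - z_{j+1} • cons 0 (b' j) = cons (r · b' j) (M' *ᵥ b' j - z_{j+1} b' j)`, which lies in the span of `e_0` and of
the `cons 0 (b' i)`, `i < j`.  Linear independence: that of `e_0`, `cons 0 (b' j)` and `S` invertible. -/

namespace H60T

open Matrix Polynomial

theorem A1_basis {n : ℕ} (v : Fin (n + 1) → ℂ) (hv : v ≠ 0) :
    ∃ B : Module.Basis (Fin (n + 1)) ℂ (Fin (n + 1) → ℂ), B 0 = v := by
  obtain ⟨N, hN⟩ := Submodule.exists_isCompl (Submodule.span ℂ {v})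
  have hd : Module.finrank ℂ N = n := by
    have h1 := Submodule.finrank_add_eq_of_isCompl hN
    rw [finrank_span_singleton hv, Module.finrank_fin_fun] at h1
    omega
  let bN : Module.Basis (Fin n) ℂ N := Module.finBasisOfFinrankEq ℂ N hd
  have hli : ∀ (c : ℂ), ∀ x ∈ N, c • v + x = 0 → c = 0 := by
    intro c x hx h
    have h2 : c • v ∈ N := by
      have : c • v = -x := eq_neg_of_add_eq_zero_left h
      rw [this]
      exact N.neg_mem hx
    have h3 := (Submodule.disjoint_def.1 hN.disjoint) (c • v)
      (Submodule.smul_mem _ _ (Submodule.mem_span_singleton_self v)) h2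
    exact (smul_eq_zero.1 h3).resolve_right hv
  have hsp : ∀ z : Fin (n + 1) → ℂ, ∃ c : ℂ, z + c • v ∈ N := by
    intro z
    have hz : z ∈ Submodule.span ℂ {v} ⊔ N := by
      rw [hN.sup_eq_top]
      exact Submodule.mem_top
    obtain ⟨y, hy, w, hw, hyw⟩ := Submodule.mem_sup.1 hz
    obtain ⟨c, rfl⟩ := Submodule.mem_span_singleton.1 hy
    refine ⟨-c, ?_⟩
    have : z + -c • v = w := by
      rw [← hyw, neg_smul]
      abel
    rw [this]
    exact hw
  refine ⟨Module.Basis.mkFinCons v bN hli hsp, ?_⟩
  rw [Module.Basis.coe_mkFinCons]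
  rfl

theorem A1_charpoly {n : ℕ} (N : Matrix (Fin (n + 1)) (Fin (n + 1)) ℂ) (a : ℂ)
    (h : ∀ i, N i 0 = if i = 0 then a else 0) :
    N.charpoly = (X - C a) * (N.submatrix Fin.succ Fin.succ).charpoly := by
  unfold Matrix.charpoly
  rw [Matrix.det_succ_column_zero, Finset.sum_eq_single 0]
  · have e1 : N.charmatrix 0 0 = X - C a := by
      rw [Matrix.charmatrix_apply_eq, h 0, if_pos rfl]
    have e2 : N.charmatrix.submatrix (Fin.succAbove 0) Fin.succ
        = (N.submatrix Fin.succ Fin.succ).charmatrix := by
      ext1 i j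
      rw [Matrix.submatrix_apply, Fin.succAbove_zero]
      by_cases hij : i = j
      · subst hij
        rw [Matrix.charmatrix_apply_eq, Matrix.charmatrix_apply_eq, Matrix.submatrix_apply]
      · rw [Matrix.charmatrix_apply_ne _ _ _ (fun h' => hij (Fin.succ_injective _ h')),
          Matrix.charmatrix_apply_ne _ _ _ hij, Matrix.submatrix_apply]
    rw [e1, e2]
    simp
  · intro i _ hi
    have : N.charmatrix i 0 = 0 := by
      rw [Matrix.charmatrix_apply_ne _ _ _ hi, h i, if_neg hi, C_0, neg_zero]
    rw [this]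
    simp
  · intro h'
    exact absurd (Finset.mem_univ _) h'

theorem exists_triB {n : ℕ} (M : Matrix (Fin n) (Fin n) ℂ) (z : Fin n → ℂ)
    (hz : Multiset.map z Finset.univ.val = M.charpoly.roots) :
    ∃ b : Fin n → Fin n → ℂ, TriB M b z := by
  induction n with
  | zero =>
    exact ⟨fun i => i.elim0, linearIndependent_empty_type, fun j => j.elim0⟩
  | succ n ih =>
    have hz0 : z 0 ∈ M.charpoly.roots := by
      rw [← hz]
      exact Multiset.mem_map_of_mem z (Finset.mem_univ (0 : Fin (n + 1)) : (0 : Fin (n + 1)) ∈ Finset.univ.val)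
    have hev : Module.End.HasEigenvalue (Matrix.toLin' M) (z 0) := by
      rw [Module.End.hasEigenvalue_iff_isRoot_charpoly, Matrix.charpoly_toLin']
      exact Polynomial.isRoot_of_mem_roots hz0
    obtain ⟨v, hv⟩ := hev.exists_hasEigenvector
    have hv1 : M *ᵥ v = z 0 • v := by
      have := hv.apply_eq_smul
      rwa [Matrix.toLin'_apply] at this
    have hv0 : v ≠ 0 := hv.2
    obtain ⟨B, hB⟩ := A1_basis v hv0
    set N := LinearMap.toMatrix B B (Matrix.toLin' M) with hNdef
    have hNrep : ∀ i j, N i j = B.repr (M *ᵥ B j) i := by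
      intro i j
      rw [hNdef, LinearMap.toMatrix_apply, Matrix.toLin'_apply]
    have hMB : ∀ j, M *ᵥ B j = ∑ i, N i j • B i := by
      intro j
      conv_lhs => rw [← B.sum_repr (M *ᵥ B j)]
      refine Finset.sum_congr rfl fun i _ => ?_
      rw [hNrep]
    have hN0 : ∀ i, N i 0 = if i = 0 then z 0 else 0 := by
      intro i
      rw [hNrep, hB, hv1, ← hB, map_smul, B.repr_self]
      by_cases hi : i = 0
      · subst hi
        simp
      · rw [if_neg hi]
        simp [Ne.symm hi]
    have hcp : M.charpoly = N.charpoly := by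
      rw [hNdef, LinearMap.charpoly_toMatrix, Matrix.charpoly_toLin']
    rw [A1_charpoly N (z 0) hN0] at hcp
    set M' := N.submatrix Fin.succ Fin.succ with hM'
    have hroots : Multiset.map (z ∘ Fin.succ) Finset.univ.val = M'.charpoly.roots := by
      have h1 : M.charpoly.roots = z 0 ::ₘ M'.charpoly.roots := by
        rw [hcp, Polynomial.roots_mul, Polynomial.roots_X_sub_C, Multiset.singleton_add]
        exact mul_ne_zero (X_sub_C_ne_zero _) (Matrix.charpoly_monic M').ne_zero
      have h2 : Multiset.map z (Finset.univ : Finset (Fin (n + 1))).val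
          = z 0 ::ₘ Multiset.map (z ∘ Fin.succ) Finset.univ.val := by
        rw [Fin.univ_succ, Finset.cons_val, Multiset.map_cons, Finset.map_val, Multiset.map_map]
        rfl
      rw [h1, h2] at hz
      exact (Multiset.cons_inj_right _).1 hz
    obtain ⟨b', hb'⟩ := ih M' (z ∘ Fin.succ) hroots
    let L : (Fin n → ℂ) →ₗ[ℂ] (Fin (n + 1) → ℂ) := Fintype.linearCombination ℂ (fun i => B (Fin.succ i))
    have hL : ∀ c, L c = ∑ i, c i • B (Fin.succ i) := fun c => rfl
    have hBli : LinearIndependent ℂ (Fin.cons v (fun i => B (Fin.succ i)) : Fin (n + 1) → Fin (n + 1) → ℂ) := by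
      have : (Fin.cons v (fun i => B (Fin.succ i)) : Fin (n + 1) → Fin (n + 1) → ℂ) = B := by
        funext i
        refine Fin.cases ?_ (fun i => ?_) i
        · rw [Fin.cons_zero, hB]
        · rw [Fin.cons_succ]
      rw [this]
      exact B.linearIndependent
    rw [linearIndependent_finCons] at hBli
    have hLinj : LinearMap.ker L = ⊥ := by
      rw [LinearMap.ker_eq_bot']
      intro c hc
      rw [hL] at hc
      funext i
      exact Fintype.linearIndependent_iff.1 hBli.1 c hc i
    have hML : ∀ c : Fin n → ℂ, M *ᵥ (L c) = (∑ i, c i * N 0 (Fin.succ i)) • v + L (M' *ᵥ c) := by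
      intro c
      have e1 : M *ᵥ (L c) = ∑ i, c i • (M *ᵥ B (Fin.succ i)) := by
        rw [hL, ← Matrix.toLin'_apply, map_sum]
        refine Finset.sum_congr rfl fun i _ => ?_
        rw [map_smul, Matrix.toLin'_apply]
      rw [e1]
      have e2 : ∀ i : Fin n, c i • (M *ᵥ B (Fin.succ i))
          = (c i * N 0 (Fin.succ i)) • v + ∑ k : Fin n, (M' k i * c i) • B (Fin.succ k) := by
        intro i
        rw [hMB, Fin.sum_univ_succ, smul_add, hB, smul_smul, Finset.smul_sum]
        congr 1
        refine Finset.sum_congr rfl fun k _ => ?_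
        rw [smul_smul, hM', Matrix.submatrix_apply, mul_comm]
      rw [Finset.sum_congr rfl fun i _ => e2 i, Finset.sum_add_distrib, ← Finset.sum_smul]
      congr 1
      rw [Finset.sum_comm, hL]
      refine Finset.sum_congr rfl fun k _ => ?_
      rw [← Finset.sum_smul]
      rfl
    refine ⟨Fin.cons v (fun j => L (b' j)), ?_, ?_⟩
    · rw [linearIndependent_finCons]
      refine ⟨hb'.1.map' L hLinj, fun hmem => hBli.2 ?_⟩
      have hle : Submodule.span ℂ (Set.range fun j => L (b' j)) ≤
          Submodule.span ℂ (Set.range fun i => B (Fin.succ i)) := by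
        rw [Submodule.span_le]
        rintro _ ⟨j, rfl⟩
        change L (b' j) ∈ _
        rw [hL]
        exact Submodule.sum_mem _ fun i _ => Submodule.smul_mem _ _
          (Submodule.subset_span ⟨i, rfl⟩)
      exact hle hmem
    · intro j
      refine Fin.cases ?_ (fun j => ?_) j
      · rw [Fin.cons_zero, hv1, sub_self]
        exact Submodule.zero_mem _
      · rw [Fin.cons_succ, hML]
        have e1 : (∑ i, b' j i * N 0 (Fin.succ i)) • v + L (M' *ᵥ b' j) - z (Fin.succ j) • L (b' j)
            = (∑ i, b' j i * N 0 (Fin.succ i)) • v + L (M' *ᵥ b' j - (z ∘ Fin.succ) j • b' j) := by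
          rw [map_sub, map_smul, Function.comp_apply]
          abel
        rw [e1]
        refine Submodule.add_mem _ (Submodule.smul_mem _ _ (Submodule.subset_span ?_)) ?_
        · exact ⟨0, Fin.succ_pos j, rfl⟩
        · have h3 := Submodule.mem_map_of_mem (f := L) (hb'.2 j)
          rw [Submodule.map_span] at h3
          refine Submodule.span_mono ?_ h3
          rintro _ ⟨_, ⟨i, hi, rfl⟩, rfl⟩
          exact ⟨Fin.succ i, Fin.succ_lt_succ_iff.2 hi, rfl⟩

end H60T
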