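import Pool.Agent.Lib.H60T.Defs

/-! # H60T, chunk A2 (M): powers and inverses of triangular matrices

Write `F j = span (b '' {i | i < j})` (and `F' j = span (b '' {i | i ≤ j})`).  From `TriB M b z`: `M *ᵥ b i ∈ F' i`, so
`M` maps `F j` into `F j` (for `i < j`, `F' i ≤ F j`).
`TriB.pow`: induction: `M^(m+1) b_j - z_j^(m+1) b_j = M (M^m b_j - z_j^m b_j) + z_j^m (M b_j - z_j b_j)`.
`TriB.ne_zero`: `M` invertible: if `z j = 0`, then `M` maps the `(j+1)`-dimensional space `F' j` into the `j`-dimensional space `F j`,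
contradiction with injectivity (`finrank_span_eq_card`, `LinearMap.finrank_le_finrank_of_injective`); or: `M` is injective on `F j`,
so `M F j = F j` (`LinearMap.injective_iff_surjective` for the restriction, or equality of finite dimensional submodules with `finrank`),
hence `M b_j ∈ F j = M F j`, so `b_j ∈ F j`, contradiction with linear independence.
`TriB.inv`: `M F j = F j` as above, so `M⁻¹ F j = F j`.  `M⁻¹ b_j - z_j⁻¹ b_j = - z_j⁻¹ M⁻¹ (M b_j - z_j b_j) ∈ M⁻¹ F j = F j`. -/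

namespace H60T

open Matrix

variable {n : ℕ}

theorem a2_maps {M : Matrix (Fin n) (Fin n) ℂ} {b : Fin n → Fin n → ℂ} {z : Fin n → ℂ}
    (h : TriB M b z) (j : Fin n) (v : Fin n → ℂ)
    (hv : v ∈ Submodule.span ℂ (b '' {i | i < j})) :
    M *ᵥ v ∈ Submodule.span ℂ (b '' {i | i < j}) := by
  induction hv using Submodule.span_induction with
  | mem x hx =>
    obtain ⟨i, hi, rfl⟩ := hx
    have h1 : M *ᵥ b i = (M *ᵥ b i - z i • b i) + z i • b i := by abel
    rw [h1]
    refine Submodule.add_mem _ ?_ ?_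
    · refine Submodule.span_mono ?_ (h.2 i)
      refine Set.image_mono ?_
      intro l hl
      have hl' : l < i := hl
      have hi' : i < j := hi
      exact lt_trans hl' hi'
    · exact Submodule.smul_mem _ _ (Submodule.subset_span ⟨i, hi, rfl⟩)
  | zero => rw [Matrix.mulVec_zero]; exact Submodule.zero_mem _
  | add x y _ _ hx hy => rw [Matrix.mulVec_add]; exact Submodule.add_mem _ hx hy
  | smul a x _ hx => rw [Matrix.mulVec_smul]; exact Submodule.smul_mem _ _ hx

theorem a2_inv_maps {M N : Matrix (Fin n) (Fin n) ℂ} {b : Fin n → Fin n → ℂ} {z : Fin n → ℂ}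
    (h : TriB M b z) (hN : N * M = 1) (j : Fin n) (w : Fin n → ℂ)
    (hw : w ∈ Submodule.span ℂ (b '' {i | i < j})) :
    N *ᵥ w ∈ Submodule.span ℂ (b '' {i | i < j}) := by
  set F := Submodule.span ℂ (b '' {i | i < j}) with hF
  have hmap : ∀ v ∈ F, M.mulVecLin v ∈ F := fun v hv => a2_maps h j v hv
  let R : F →ₗ[ℂ] F := M.mulVecLin.restrict hmap
  have hinj : Function.Injective R := by
    intro x y hxy
    apply Subtype.ext
    have h1 : M *ᵥ (x : Fin n → ℂ) = M *ᵥ (y : Fin n → ℂ) := congrArg Subtype.val hxy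
    have h2 := congrArg (fun v => N *ᵥ v) h1
    simpa only [Matrix.mulVec_mulVec, hN, Matrix.one_mulVec] using h2
  have hsurj : Function.Surjective R := LinearMap.injective_iff_surjective.1 hinj
  obtain ⟨v, hv⟩ := hsurj ⟨w, hw⟩
  have h3 : M *ᵥ (v : Fin n → ℂ) = w := congrArg Subtype.val hv
  have h4 : N *ᵥ w = v := by
    rw [← h3, Matrix.mulVec_mulVec, hN, Matrix.one_mulVec]
  rw [h4]
  exact v.2

theorem TriB.pow {M : Matrix (Fin n) (Fin n) ℂ} {b : Fin n → Fin n → ℂ} {z : Fin n → ℂ}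
    (h : TriB M b z) (m : ℕ) : TriB (M ^ m) b (fun i => z i ^ m) := by
  refine ⟨h.1, fun j => ?_⟩
  induction m with
  | zero =>
    simp only [pow_zero, Matrix.one_mulVec, one_smul, sub_self]
    exact Submodule.zero_mem _
  | succ m ih =>
    have h1 : M ^ (m + 1) *ᵥ b j - z j ^ (m + 1) • b j
        = M *ᵥ (M ^ m *ᵥ b j - z j ^ m • b j) + z j ^ m • (M *ᵥ b j - z j • b j) := by
      rw [Matrix.mulVec_sub, Matrix.mulVec_mulVec, Matrix.mulVec_smul, smul_sub, smul_smul,
        pow_succ' M, pow_succ]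
      abel
    rw [h1]
    exact Submodule.add_mem _ (a2_maps h j _ ih) (Submodule.smul_mem _ _ (h.2 j))

theorem TriB.ne_zero {M N : Matrix (Fin n) (Fin n) ℂ} {b : Fin n → Fin n → ℂ} {z : Fin n → ℂ}
    (h : TriB M b z) (hN : N * M = 1) (i : Fin n) : z i ≠ 0 := by
  intro h0
  have h1 := h.2 i
  rw [h0, zero_smul, sub_zero] at h1
  have h2 := a2_inv_maps h hN i _ h1
  rw [Matrix.mulVec_mulVec, hN, Matrix.one_mulVec] at h2
  exact h.1.notMem_span_image (s := {l | l < i}) (x := i) (by simp) h2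

theorem TriB.inv {M N : Matrix (Fin n) (Fin n) ℂ} {b : Fin n → Fin n → ℂ} {z : Fin n → ℂ}
    (h : TriB M b z) (hN : N * M = 1) : TriB N b (fun i => (z i)⁻¹) := by
  refine ⟨h.1, fun j => ?_⟩
  have h0 : z j ≠ 0 := TriB.ne_zero h hN j
  have h1 : N *ᵥ b j - (z j)⁻¹ • b j = (-(z j)⁻¹) • (N *ᵥ (M *ᵥ b j - z j • b j)) := by
    rw [Matrix.mulVec_sub, Matrix.mulVec_mulVec, hN, Matrix.one_mulVec, Matrix.mulVec_smul,
      smul_sub, smul_smul, neg_mul, inv_mul_cancel₀ h0, neg_smul, neg_smul, one_smul]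
    abel
  rw [h1]
  exact Submodule.smul_mem _ _ (a2_inv_maps h hN j _ (h.2 j))

end H60T
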