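import Pool.Agent.Lib.H60T.Defs

/-! # H60T, chunk A3a (M): the largest product of `k` eigenvalues

PROOF.  Let `S` be the image of `s` (a `Finset (Fin n)` with `k` elements, `s` is injective) and `K = {i | i < k}` (`k` elements).
`S ≠ K` by `hs2`, so `S \ K` and `K \ S` have the same number `r ≥ 1` of elements (`Finset.card_sdiff_comm`).  Let `c` be the maximum of
`‖z j‖`, `j ∈ S \ K`.  Then `∏_{S} ‖z‖ = ∏_{S ∩ K} ‖z‖ * ∏_{S \ K} ‖z‖ ≤ ∏_{S ∩ K} ‖z‖ * c ^ r < ∏_{S ∩ K} ‖z‖ * ∏_{K \ S} ‖z‖ = ∏_K ‖z‖`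
(all `‖z i‖ > 0` for `i < k`; `Finset.prod_lt_prod` or `pow`). -/

namespace H60T

theorem prod_lt {n k : ℕ} (z : Fin n → ℂ) (hk : k ≤ n)
    (hz : ∀ i j : Fin n, i.1 < k → k ≤ j.1 → ‖z j‖ < ‖z i‖) (hz0 : ∀ i, z i ≠ 0)
    (s : Fin k → Fin n) (hs1 : Function.Injective s) (hs2 : ∃ a, k ≤ (s a).1) :
    ‖∏ a, z (s a)‖ < ‖∏ a : Fin k, z (Fin.castLE hk a)‖ := by
  classical
  set S : Finset (Fin n) := Finset.univ.image s with hS
  set K : Finset (Fin n) := Finset.univ.image (Fin.castLE hk) with hK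
  have hcinj : Function.Injective (Fin.castLE hk) := Fin.castLE_injective hk
  have hSc : S.card = k := by
    rw [hS, Finset.card_image_of_injective _ hs1, Finset.card_univ, Fintype.card_fin]
  have hKc : K.card = k := by
    rw [hK, Finset.card_image_of_injective _ hcinj, Finset.card_univ, Fintype.card_fin]
  have hKm : ∀ i : Fin n, i ∈ K ↔ i.1 < k := by
    intro i
    constructor
    · intro hi
      rw [hK, Finset.mem_image] at hi
      obtain ⟨a, _, rfl⟩ := hi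
      exact a.2
    · intro hi
      rw [hK, Finset.mem_image]
      exact ⟨⟨i.1, hi⟩, Finset.mem_univ _, rfl⟩
  have e1 : ‖∏ a, z (s a)‖ = ∏ i ∈ S, ‖z i‖ := by
    rw [norm_prod, hS, Finset.prod_image (fun a _ b _ h => hs1 h)]
  have e2 : ‖∏ a : Fin k, z (Fin.castLE hk a)‖ = ∏ i ∈ K, ‖z i‖ := by
    rw [norm_prod, hK, Finset.prod_image (fun a _ b _ h => hcinj h)]
  rw [e1, e2]
  have hpos : ∀ i, 0 < ‖z i‖ := fun i => norm_pos_iff.2 (hz0 i)
  have f1 : ∏ i ∈ S, ‖z i‖ = (∏ i ∈ S ∩ K, ‖z i‖) * ∏ i ∈ S \ K, ‖z i‖ :=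
    (Finset.prod_inter_mul_prod_sdiff S K _).symm
  have f2 : ∏ i ∈ K, ‖z i‖ = (∏ i ∈ S ∩ K, ‖z i‖) * ∏ i ∈ K \ S, ‖z i‖ := by
    rw [Finset.inter_comm]
    exact (Finset.prod_inter_mul_prod_sdiff K S _).symm
  rw [f1, f2]
  refine mul_lt_mul_of_pos_left ?_ (Finset.prod_pos fun i _ => hpos i)
  have hcard : (S \ K).card = (K \ S).card := by
    have h1 := Finset.card_sdiff_add_card_inter S K
    have h2 := Finset.card_sdiff_add_card_inter K S
    rw [Finset.inter_comm K S] at h2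
    omega
  obtain ⟨a, ha⟩ := hs2
  have hne : (S \ K).Nonempty := by
    refine ⟨s a, ?_⟩
    rw [Finset.mem_sdiff, hKm]
    exact ⟨Finset.mem_image_of_mem _ (Finset.mem_univ _), by omega⟩
  obtain ⟨j0, hj0, hmax⟩ := Finset.exists_max_image (S \ K) (fun i => ‖z i‖) hne
  have g1 : ∏ i ∈ S \ K, ‖z i‖ ≤ ‖z j0‖ ^ (S \ K).card := by
    rw [← Finset.prod_const]
    exact Finset.prod_le_prod (fun i _ => (hpos i).le) hmax
  have hj0' : k ≤ j0.1 := by
    rw [Finset.mem_sdiff, hKm] at hj0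
    omega
  have hne' : (K \ S).Nonempty := by
    rw [← Finset.card_pos, ← hcard, Finset.card_pos]
    exact hne
  have g2 : ‖z j0‖ ^ (K \ S).card < ∏ i ∈ K \ S, ‖z i‖ := by
    rw [← Finset.prod_const]
    refine Finset.prod_lt_prod_of_nonempty (fun i _ => hpos j0) (fun i hi => ?_) hne'
    refine hz i j0 ?_ hj0'
    rw [Finset.mem_sdiff, hKm] at hi
    exact hi.1
  rw [hcard] at g1
  exact lt_of_le_of_lt g1 g2

end H60T
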