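import Pool.Agent.Lib.H60T.Defs

/-! # H60T, chunk A3b (M): eigenforms and triangular bases

PROOF.  Let `T` be the (finite, nonempty) set of tuples `s : Fin k → Fin n` with `ω (b ∘ s) ≠ 0`: nonempty because otherwise `ω = 0`
(`b` is a basis of `ℂ^n` by `basisOfLinearIndependentOfCardEqFinrank`; `Basis.ext_alternating` or `Basis.ext_multilinear`; or expand).
Choose `s ∈ T` with minimal `∑ a, (s a).1`.
`a3b_van`: if `y a ∈ span (b '' {i | i ≤ s a})` for all `a` and `y a0 ∈ span (b '' {i | i < s a0})` for one `a0`, then `ω y = 0`.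
Proof: write `y a = ∑_i c a i • b i` with `c a i = 0` unless `i ≤ s a` (resp. `i < s a0` for `a = a0`) and expand
(`MultilinearMap.map_sum`: `ω y = ∑_t (∏_a c a (t a)) ω (b ∘ t)`): every `t` with nonzero coefficient has `t a ≤ s a` for all `a` and
`t a0 < s a0`, so `∑ t < ∑ s` and `ω (b ∘ t) = 0` by minimality.
Then `μ ω (b ∘ s) = op k M ω (b ∘ s) = ω (fun a => M *ᵥ b (s a))` and `M *ᵥ b (s a) = z (s a) • b (s a) + r a`,
`r a ∈ span (b '' {i | i < s a})`; expand (`MultilinearMap.map_add_univ`): all terms but the one with no `r` vanish by `a3b_van`;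
it is `(∏ z (s a)) ω (b ∘ s)` (`map_smul_univ`).  So `μ = ∏ z (s a)`.  `s` is injective (alternating, `ω.map_eq_zero_of_eq`).
If all `s a < k` then `s` is a bijection onto `{i < k}`, so `b ∘ s` is a permutation of `b ∘ castLE` and
`ω (b ∘ s) = ± ω (b ∘ castLE) = 0` (`ω.map_perm`), contradiction. -/

namespace H60T

open Matrix

theorem a3b_basis {n : ℕ} {b : Fin n → Fin n → ℂ} (hb : LinearIndependent ℂ b) :
    ∃ B : Module.Basis (Fin n) ℂ (Fin n → ℂ), ∀ i, B i = b i := by
  refine ⟨Module.Basis.mk hb ?_, fun i => Module.Basis.mk_apply _ _ i⟩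
  rw [hb.span_eq_top_of_card_eq_finrank' (by simp)]

theorem a3b_van {n k : ℕ} {b : Fin n → Fin n → ℂ} (hb : LinearIndependent ℂ b) (ω : Form n k)
    (s : Fin k → Fin n)
    (hmin : ∀ t : Fin k → Fin n, (∑ a, (t a).1) < ∑ a, (s a).1 → ω (fun a => b (t a)) = 0)
    (y : Fin k → Fin n → ℂ) (hy : ∀ a, y a ∈ Submodule.span ℂ (b '' {i | i ≤ s a}))
    (a0 : Fin k) (ha0 : y a0 ∈ Submodule.span ℂ (b '' {i | i < s a0})) : ω y = 0 := by
  classical
  obtain ⟨B, hB⟩ := a3b_basis hb
  have hBf : (B : Fin n → Fin n → ℂ) = b := funext hB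
  have hc : ∀ a, y a = ∑ i, B.repr (y a) i • b i := by
    intro a
    have h1 := B.sum_repr (y a)
    simp only [hB] at h1
    exact h1.symm
  have h1 : ω y = ω.toMultilinearMap (fun a => ∑ i, B.repr (y a) i • b i) := by
    have h2 : y = fun a => ∑ i, B.repr (y a) i • b i := funext hc
    exact congrArg ω h2
  rw [h1, MultilinearMap.map_sum]
  refine Finset.sum_eq_zero fun t _ => ?_
  rw [MultilinearMap.map_smul_univ]
  by_cases hall : ∀ a, B.repr (y a) (t a) ≠ 0
  · have hle : ∀ a, t a ≤ s a := by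
      intro a
      have h3 := hy a
      rw [← hBf, B.mem_span_image] at h3
      exact h3 (Finset.mem_coe.2 (Finsupp.mem_support_iff.2 (hall a)))
    have hlt : t a0 < s a0 := by
      have h3 := ha0
      rw [← hBf, B.mem_span_image] at h3
      exact h3 (Finset.mem_coe.2 (Finsupp.mem_support_iff.2 (hall a0)))
    have h4 : (∑ a, (t a).1) < ∑ a, (s a).1 :=
      Finset.sum_lt_sum (fun a _ => hle a) ⟨a0, Finset.mem_univ _, hlt⟩
    have h5 : ω.toMultilinearMap (fun a => b (t a)) = 0 := hmin t h4
    rw [h5, smul_zero]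
  · push Not at hall
    obtain ⟨a, ha⟩ := hall
    rw [Finset.prod_eq_zero (Finset.mem_univ a) ha, zero_smul]

theorem eigen_prod {n k : ℕ} {M : Matrix (Fin n) (Fin n) ℂ} {b : Fin n → Fin n → ℂ} {z : Fin n → ℂ}
    (h : TriB M b z) (hk : k ≤ n) (ω : Form n k) (μ : ℂ) (hω : ω ≠ 0)
    (h0 : evl (fr b hk) ω = 0) (hμ : op k M ω = μ • ω) :
    ∃ s : Fin k → Fin n, Function.Injective s ∧ (∃ a, k ≤ (s a).1) ∧ μ = ∏ a, z (s a) := by
  classical
  obtain ⟨B, hB⟩ := a3b_basis h.1
  have hex : ∃ t : Fin k → Fin n, ω (fun a => b (t a)) ≠ 0 := by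
    by_contra hcon
    push Not at hcon
    apply hω
    apply ContinuousAlternatingMap.toAlternatingMap_injective
    refine B.ext_alternating fun v _ => ?_
    simp only [hB]
    exact hcon v
  obtain ⟨t0, ht0⟩ := hex
  obtain ⟨s, hs, hmin0⟩ := Finset.exists_min_image
    (Finset.univ.filter fun t : Fin k → Fin n => ω (fun a => b (t a)) ≠ 0)
    (fun t => ∑ a, (t a).1) ⟨t0, Finset.mem_filter.2 ⟨Finset.mem_univ _, ht0⟩⟩
  have hs0 : ω (fun a => b (s a)) ≠ 0 := (Finset.mem_filter.1 hs).2
  have hmin : ∀ t : Fin k → Fin n, (∑ a, (t a).1) < ∑ a, (s a).1 → ω (fun a => b (t a)) = 0 := by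
    intro t ht
    by_contra hne
    exact absurd (hmin0 t (Finset.mem_filter.2 ⟨Finset.mem_univ _, hne⟩)) (not_le.2 ht)
  refine ⟨s, ?_, ?_, ?_⟩
  · intro a a' haa
    by_contra hne
    exact hs0 (ω.map_eq_zero_of_eq (fun a => b (s a)) (i := a) (j := a') (by simp only [haa]) hne)
  · by_contra hcon
    push Not at hcon
    have hinj : Function.Injective s := by
      intro a a' haa
      by_contra hne
      exact hs0 (ω.map_eq_zero_of_eq (fun a => b (s a)) (i := a) (j := a')
        (by simp only [haa]) hne)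
    let f : Fin k → Fin k := fun a => ⟨(s a).1, hcon a⟩
    have hf : Function.Injective f := by
      intro a a' haa
      apply hinj
      apply Fin.ext
      have h9 : (f a).1 = (f a').1 := congrArg Fin.val haa
      exact h9
    let σ : Equiv.Perm (Fin k) := Equiv.ofBijective f (Finite.injective_iff_bijective.1 hf)
    have h1 : (fun a => b (s a)) = (fun a : Fin k => b (Fin.castLE hk a)) ∘ σ := by
      funext a
      change b (s a) = b (Fin.castLE hk (f a))
      congr 1
    have h2 : ω ((fun a : Fin k => b (Fin.castLE hk a)) ∘ σ)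
        = Equiv.Perm.sign σ • ω (fun a : Fin k => b (Fin.castLE hk a)) :=
      ω.toAlternatingMap.map_perm _ σ
    have h3 : ω (fun a : Fin k => b (Fin.castLE hk a)) = 0 := h0
    apply hs0
    rw [h1, h2, h3, smul_zero]
  · have h1 : ω (fun a => M *ᵥ b (s a)) = μ * ω (fun a => b (s a)) := by
      have h2 := congrArg (fun η : Form n k => η (fun a => b (s a))) hμ
      exact h2
    let r : Fin k → Fin n → ℂ := fun a => M *ᵥ b (s a) - z (s a) • b (s a)
    let m : Fin k → Fin n → ℂ := fun a => z (s a) • b (s a)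
    have h2 : (fun a => M *ᵥ b (s a)) = m + r := by
      funext a
      change M *ᵥ b (s a) = z (s a) • b (s a) + (M *ᵥ b (s a) - z (s a) • b (s a))
      abel
    have h3 : ω (m + r) = ∑ S : Finset (Fin k), ω (S.piecewise m r) :=
      ω.toMultilinearMap.map_add_univ m r
    have h4 : ∑ S : Finset (Fin k), ω (S.piecewise m r) = ω m := by
      rw [Finset.sum_eq_single Finset.univ]
      · rw [Finset.piecewise_univ]
      · intro S _ hS
        have h5 : ∃ a0, a0 ∉ S := by
          by_contra hcon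
          push Not at hcon
          exact hS (Finset.eq_univ_iff_forall.2 hcon)
        obtain ⟨a0, ha0⟩ := h5
        have hr : ∀ a, r a ∈ Submodule.span ℂ (b '' {i | i < s a}) := fun a => h.2 (s a)
        refine a3b_van h.1 ω s hmin _ (fun a => ?_) a0 ?_
        · by_cases ha : a ∈ S
          · rw [Finset.piecewise_eq_of_mem _ _ _ ha]
            exact Submodule.smul_mem _ _ (Submodule.subset_span
              ⟨s a, Set.mem_ofPred_eq ▸ le_refl (s a), rfl⟩)
          · rw [Finset.piecewise_eq_of_notMem _ _ _ ha]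
            refine Submodule.span_mono (Set.image_mono ?_) (hr a)
            intro i hi
            have hi' : i < s a := hi
            exact le_of_lt hi'
        · rw [Finset.piecewise_eq_of_notMem _ _ _ ha0]
          exact hr a0
      · intro hcon
        exact absurd (Finset.mem_univ _) hcon
    have h5 : ω m = (∏ a, z (s a)) • ω (fun a => b (s a)) :=
      ω.toMultilinearMap.map_smul_univ (fun a => z (s a)) (fun a => b (s a))
    rw [h2, h3, h4, h5, smul_eq_mul] at h1
    exact (mul_right_cancel₀ hs0 h1).symm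

end H60T
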