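import Pool.Agent.Lib.H60T.A3a
import Pool.Agent.Lib.H60T.A3b

/-! # H60T, chunk A4 (M): the dominant eigenform -/

namespace H60T

open Matrix

variable {n k : ℕ} {M : Matrix (Fin n) (Fin n) ℂ} {b : Fin n → Fin n → ℂ} {z : Fin n → ℂ}

theorem a4_coef (hk : k ≤ n) (a : Fin k) (v : Fin n → ℂ)
    (hv : v ∈ Submodule.span ℂ (b '' {i | i < Fin.castLE hk a})) :
    ∃ α : Fin k → ℂ, (∀ c, ¬ c < a → α c = 0) ∧ v = ∑ c, α c • b (Fin.castLE hk c) := by
  induction hv using Submodule.span_induction with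
  | mem x hx =>
    obtain ⟨i, hi, rfl⟩ := hx
    have hi' : i.1 < a.1 := hi
    have hik : i.1 < k := lt_trans hi' a.2
    refine ⟨Pi.single ⟨i.1, hik⟩ 1, ?_, ?_⟩
    · intro c hc
      rw [Pi.single_eq_of_ne]
      intro h
      apply hc
      rw [h]
      exact hi'
    · rw [Finset.sum_eq_single (⟨i.1, hik⟩ : Fin k)]
      · rw [Pi.single_eq_same, one_smul]
        rfl
      · intro c _ hc
        rw [Pi.single_eq_of_ne hc, zero_smul]
      · intro h
        exact absurd (Finset.mem_univ _) h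
  | zero => exact ⟨0, fun _ _ => rfl, by simp⟩
  | add x y _ _ hx hy =>
    obtain ⟨α, h1, h2⟩ := hx
    obtain ⟨β, h3, h4⟩ := hy
    refine ⟨α + β, ?_, ?_⟩
    · intro c hc
      rw [Pi.add_apply, h1 c hc, h3 c hc, add_zero]
    · rw [h2, h4, ← Finset.sum_add_distrib]
      refine Finset.sum_congr rfl fun c _ => ?_
      rw [Pi.add_apply, add_smul]
  | smul r x _ hx =>
    obtain ⟨α, h1, h2⟩ := hx
    refine ⟨r • α, ?_, ?_⟩
    · intro c hc
      rw [Pi.smul_apply, h1 c hc, smul_zero]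
    · rw [h2, Finset.smul_sum]
      refine Finset.sum_congr rfl fun c _ => ?_
      rw [Pi.smul_apply, smul_assoc]

theorem evl_op_fr (h : TriB M b z) (hk : k ≤ n) (ω : Form n k) :
    evl (fr b hk) (op k M ω) = (∏ a : Fin k, z (Fin.castLE hk a)) * evl (fr b hk) ω := by
  have h1 : ∀ a : Fin k, ∃ α : Fin k → ℂ, (∀ c, ¬ c < a → α c = 0) ∧
      M *ᵥ b (Fin.castLE hk a) - z (Fin.castLE hk a) • b (Fin.castLE hk a)
        = ∑ c, α c • b (Fin.castLE hk c) := fun a => a4_coef hk a _ (h.2 (Fin.castLE hk a))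
  choose α hα1 hα2 using h1
  let A : Matrix (Fin k) (Fin k) ℂ :=
    Matrix.of fun c a => α a c + if c = a then z (Fin.castLE hk a) else 0
  have hA : ∀ a, M *ᵥ b (Fin.castLE hk a) = ∑ c, A c a • b (Fin.castLE hk c) := by
    intro a
    have h3 : ∑ c, A c a • b (Fin.castLE hk c) = ∑ c, α a c • b (Fin.castLE hk c)
        + z (Fin.castLE hk a) • b (Fin.castLE hk a) := by
      have h4 : ∀ c, A c a • b (Fin.castLE hk c) = α a c • b (Fin.castLE hk c)
          + (if c = a then z (Fin.castLE hk a) else 0) • b (Fin.castLE hk c) := by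
        intro c
        rw [← add_smul]
        rfl
      simp_rw [h4]
      rw [Finset.sum_add_distrib]
      congr 1
      rw [Finset.sum_eq_single a]
      · rw [if_pos rfl]
      · intro c _ hc
        rw [if_neg hc, zero_smul]
      · intro h
        exact absurd (Finset.mem_univ _) h
    rw [h3, ← hα2 a]
    abel
  let L : (Fin k → ℂ) →ₗ[ℂ] (Fin n → ℂ) :=
    { toFun := fun x => ∑ c, x c • b (Fin.castLE hk c)
      map_add' := by
        intro x y
        rw [← Finset.sum_add_distrib]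
        exact Finset.sum_congr rfl fun c _ => by rw [Pi.add_apply, add_smul]
      map_smul' := by
        intro r x
        rw [RingHom.id_apply, Finset.smul_sum]
        exact Finset.sum_congr rfl fun c _ => by rw [Pi.smul_apply, smul_assoc] }
  have hL : ∀ x, L x = ∑ c, x c • b (Fin.castLE hk c) := fun _ => rfl
  let f : (Fin k → ℂ) [⋀^Fin k]→ₗ[ℂ] ℂ := (ω.toAlternatingMap).compLinearMap L
  have hf : ∀ y : Fin k → Fin k → ℂ, f y = ω (fun a => L (y a)) := fun _ => rfl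
  have h5 := f.eq_smul_basis_det (Pi.basisFun ℂ (Fin k))
  have h6 : f (fun a c => A c a) = f (Pi.basisFun ℂ (Fin k)) * (Aᵀ).det := by
    conv_lhs => rw [h5]
    rw [Pi.basisFun_det]
    rfl
  have h7 : (Aᵀ).det = ∏ a : Fin k, z (Fin.castLE hk a) := by
    rw [Matrix.det_transpose, Matrix.det_of_isUpperTriangular]
    · refine Finset.prod_congr rfl fun a _ => ?_
      change α a a + (if a = a then z (Fin.castLE hk a) else 0) = _
      rw [if_pos rfl, hα1 a a (lt_irrefl a), zero_add]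
    · intro c a hca
      have hca' : a < c := hca
      change α a c + (if c = a then z (Fin.castLE hk a) else 0) = 0
      rw [if_neg hca'.ne', hα1 a c hca'.not_gt, zero_add]
  have h8 : f (Pi.basisFun ℂ (Fin k)) = evl (fr b hk) ω := by
    rw [hf, evl_apply]
    congr 1
    funext a
    rw [hL, Finset.sum_eq_single a]
    · rw [Pi.basisFun_apply, Pi.single_eq_same, one_smul]
      rfl
    · intro c _ hc
      rw [Pi.basisFun_apply, Pi.single_eq_of_ne hc, zero_smul]
    · intro h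
      exact absurd (Finset.mem_univ _) h
  have h9 : evl (fr b hk) (op k M ω) = f (fun a c => A c a) := by
    rw [hf, evl_apply, op_apply]
    congr 1
    funext a
    rw [hL]
    exact hA a
  rw [h9, h6, h7, h8, mul_comm]

theorem a4_dual (h : LinearIndependent ℂ b) (hk : k ≤ n) :
    ∃ Φ : Matrix (Fin n) (Fin k) ℂ, Φᵀ * fr b hk = 1 := by
  have h1 : IsUnit (Matrix.of b) := by
    rw [← Matrix.linearIndependent_rows_iff_isUnit]
    exact h
  have h2 : IsUnit ((Matrix.of b)ᵀ) := by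
    rw [Matrix.isUnit_transpose]
    exact h1
  have h3 : ((Matrix.of b)ᵀ)⁻¹ * (Matrix.of b)ᵀ = 1 :=
    Matrix.nonsing_inv_mul _ ((Matrix.isUnit_iff_isUnit_det _).1 h2)
  refine ⟨Matrix.of fun i a => ((Matrix.of b)ᵀ)⁻¹ (Fin.castLE hk a) i, ?_⟩
  ext a c
  have h4 := congrFun (congrFun h3 (Fin.castLE hk a)) (Fin.castLE hk c)
  rw [Matrix.mul_apply] at h4 ⊢
  have h5 : (1 : Matrix (Fin n) (Fin n) ℂ) (Fin.castLE hk a) (Fin.castLE hk c)
      = (1 : Matrix (Fin k) (Fin k) ℂ) a c := by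
    rw [Matrix.one_apply, Matrix.one_apply]
    by_cases hac : a = c
    · rw [if_pos hac, hac, if_pos rfl]
    · rw [if_neg hac, if_neg]
      intro h
      exact hac (Fin.castLE_injective hk h)
  rw [← h5, ← h4]
  rfl

theorem a4_surj {W : Type*} [AddCommGroup W] [Module ℂ W] [FiniteDimensional ℂ W]
    (K : Submodule ℂ W) (T0 : W →ₗ[ℂ] W) (h1 : ∀ x ∈ K, T0 x ∈ K)
    (h2 : ∀ x ∈ K, T0 x = 0 → x = 0) (y : W) (hy : y ∈ K) : ∃ x ∈ K, T0 x = y := by
  let T : K →ₗ[ℂ] K := T0.restrict h1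
  have hinj : Function.Injective T := by
    refine (injective_iff_map_eq_zero T).2 ?_
    rintro ⟨x, hx⟩ hT
    exact Subtype.ext (h2 x hx (congrArg Subtype.val hT))
  have hsurj : Function.Surjective T := LinearMap.injective_iff_surjective.1 hinj
  obtain ⟨⟨x, hx⟩, hx2⟩ := hsurj ⟨y, hy⟩
  exact ⟨x, hx, congrArg Subtype.val hx2⟩

theorem exists_top (h : TriB M b z) (hk : k ≤ n)
    (hz : ∀ i j : Fin n, i.1 < k → k ≤ j.1 → ‖z j‖ < ‖z i‖) (hz0 : ∀ i, z i ≠ 0) :
    ∃ ω : Form n k, op k M ω = (∏ a : Fin k, z (Fin.castLE hk a)) • ω ∧ evl (fr b hk) ω = 1 := by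
  set lam : ℂ := ∏ a : Fin k, z (Fin.castLE hk a) with hlam
  let K : Submodule ℂ (Form n k) := LinearMap.ker (evl (fr b hk) : Form n k →ₗ[ℂ] ℂ)
  have hK : ∀ ω, ω ∈ K ↔ evl (fr b hk) ω = 0 := fun ω => LinearMap.mem_ker
  let T0 : Form n k →ₗ[ℂ] Form n k := (op k M : Form n k →ₗ[ℂ] Form n k) - lam • LinearMap.id
  have hT0 : ∀ ω, T0 ω = op k M ω - lam • ω := fun _ => rfl
  have hmap : ∀ ω, evl (fr b hk) (T0 ω) = 0 := by
    intro ω
    rw [hT0, map_sub, map_smul, evl_op_fr h hk ω, smul_eq_mul, sub_self]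
  have hmapK : ∀ ω ∈ K, T0 ω ∈ K := fun ω _ => (hK _).2 (hmap ω)
  have hinj : ∀ ω ∈ K, T0 ω = 0 → ω = 0 := by
    intro ω hω h1
    rw [hT0] at h1
    have h2 : op k M ω = lam • ω := sub_eq_zero.1 h1
    by_contra hω0
    obtain ⟨s, hs1, hs2, hs3⟩ := eigen_prod h hk ω lam hω0 ((hK ω).1 hω) h2
    have h3 := prod_lt z hk hz hz0 s hs1 hs2
    rw [← hs3] at h3
    exact lt_irrefl _ h3
  obtain ⟨Φ, hΦ⟩ := a4_dual h.1 hk
  have h4 : evl (fr b hk) (dform Φ) = 1 := by
    rw [evl_dform, hΦ, Matrix.det_one]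
  obtain ⟨η, hη, h5⟩ := a4_surj K T0 hmapK hinj (T0 (dform Φ)) ((hK _).2 (hmap _))
  refine ⟨dform Φ - η, ?_, ?_⟩
  · have h6 : T0 (dform Φ - η) = 0 := by
      rw [map_sub, h5, sub_self]
    rw [hT0] at h6
    exact sub_eq_zero.1 h6
  · rw [map_sub, h4, (hK η).1 hη, sub_zero]

end H60T
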