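import Pool.Agent.Lib.H60T.Defs

/-! # H60T, chunk A5a (M): eigenvalues bound the growth of powers -/

namespace H60T

theorem a5a_spec {W : Type*} [NormedAddCommGroup W] [NormedSpace ℂ W] [FiniteDimensional ℂ W]
    [CompleteSpace W] (A : W →L[ℂ] W) (μ : ℂ) (hμ : μ ∈ spectrum ℂ A) :
    ∃ x : W, x ≠ 0 ∧ A x = μ • x := by
  by_contra hcon
  push Not at hcon
  apply hμ
  have hinj : Function.Injective ((algebraMap ℂ (W →L[ℂ] W) μ - A : W →L[ℂ] W)) := by
    refine (injective_iff_map_eq_zero (algebraMap ℂ (W →L[ℂ] W) μ - A : W →L[ℂ] W)).2 ?_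
    intro x hx
    by_contra hx0
    apply hcon x hx0
    have h1 : (algebraMap ℂ (W →L[ℂ] W) μ - A : W →L[ℂ] W) x = μ • x - A x := rfl
    rw [h1] at hx
    exact (sub_eq_zero.1 hx).symm
  rw [spectrum.mem_resolventSet_iff, ContinuousLinearMap.isUnit_iff_bijective]
  refine ⟨hinj, ?_⟩
  exact (LinearMap.injective_iff_surjective
    (f := ((algebraMap ℂ (W →L[ℂ] W) μ - A : W →L[ℂ] W) : W →ₗ[ℂ] W))).1 hinj

theorem pow_tendsto {W : Type*} [NormedAddCommGroup W] [NormedSpace ℂ W] [FiniteDimensional ℂ W]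
    [CompleteSpace W] (A : W →L[ℂ] W) {r : ℂ} (hr : r ≠ 0)
    (h : ∀ (μ : ℂ) (x : W), x ≠ 0 → A x = μ • x → ‖μ‖ < ‖r‖) :
    Filter.Tendsto (fun j : ℕ => (r⁻¹) ^ j • A ^ j) Filter.atTop (nhds 0) := by
  rcases subsingleton_or_nontrivial W with hW | hW
  · have : (fun j : ℕ => (r⁻¹) ^ j • A ^ j) = fun _ => 0 := by
      funext j
      ext x
      exact Subsingleton.elim _ _
    rw [this]
    exact tendsto_const_nhds
  · have hrpos : 0 < ‖r‖ := norm_pos_iff.2 hr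
    have h1 : spectralRadius ℂ A < ((‖r‖₊ : NNReal) : ENNReal) := by
      refine spectrum.spectralRadius_lt_of_forall_lt A ?_
      intro k hk
      obtain ⟨x, hx0, hx⟩ := a5a_spec A k hk
      exact h k x hx0 hx
    have h2 := spectrum.pow_nnnorm_pow_one_div_tendsto_nhds_spectralRadius A
    obtain ⟨q, hq1, hq2⟩ := exists_between h1
    have hqt : q ≠ ⊤ := ne_top_of_lt hq2
    lift q to NNReal using hqt
    have hqr : q < ‖r‖₊ := by exact_mod_cast hq2
    have h3 : ∀ᶠ j : ℕ in Filter.atTop, ((‖A ^ j‖₊ : ENNReal)) ^ (1 / j : ℝ) < (q : ENNReal) :=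
      h2.eventually (gt_mem_nhds hq1)
    have h4 : ∀ᶠ j : ℕ in Filter.atTop, ‖A ^ j‖ ≤ (q : ℝ) ^ j := by
      filter_upwards [h3, Filter.eventually_gt_atTop 0] with j hj hj0
      have hj' : (0 : ℝ) < j := by exact_mod_cast hj0
      have h5 : ((‖A ^ j‖₊ : ENNReal)) < (q : ENNReal) ^ (j : ℝ) := by
        have := ENNReal.rpow_lt_rpow hj hj'
        rw [← ENNReal.rpow_mul, one_div, inv_mul_cancel₀ hj'.ne', ENNReal.rpow_one] at this
        exact this
      rw [ENNReal.rpow_natCast] at h5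
      have h6 : ‖A ^ j‖₊ < q ^ j := by exact_mod_cast h5
      exact_mod_cast h6.le
    have hq3 : (q : ℝ) < ‖r‖ := by exact_mod_cast hqr
    have h7 : Filter.Tendsto (fun j : ℕ => ((q : ℝ) / ‖r‖) ^ j) Filter.atTop (nhds 0) := by
      refine tendsto_pow_atTop_nhds_zero_of_lt_one (by positivity) ?_
      rw [div_lt_one hrpos]
      exact hq3
    refine squeeze_zero_norm' ?_ h7
    filter_upwards [h4] with j hj
    calc ‖(r⁻¹) ^ j • A ^ j‖ ≤ ‖(r⁻¹) ^ j‖ * ‖A ^ j‖ := norm_smul_le ((r⁻¹) ^ j) (A ^ j)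
      _ ≤ ‖(r⁻¹) ^ j‖ * (q : ℝ) ^ j := by gcongr
      _ = ((q : ℝ) / ‖r‖) ^ j := by
        rw [norm_pow, norm_inv, div_pow, inv_pow]
        ring

end H60T
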