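import Pool.Agent.Lib.H60T.Defs

/-! # H60T, chunk E2 (M): continuity, scaling

`continuous_dform`: `dform Φ = (detForm k).compContinuousLinearMap (linear map of Φᵀ)` where `detForm k : (Fin k → ℂ) [⋀^Fin k]→L[ℂ] ℂ` is
`dform` of the identity matrix (`n = k`); `Φ ↦ (Φᵀ.mulVecLin).toContinuousLinearMap` is continuous (a linear map between finite
dimensional spaces, or `continuous_clm_apply`), and `f ↦ compContinuousLinearMap f` is continuous
(`ContinuousAlternatingMap.continuous_compContinuousLinearMapCLM` in Mathlib.Analysis.Normed.Module.Alternating.Basic, then apply to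
the fixed form).
`continuous_evl`: `continuous_clm_apply` (`Form n k` is finite dimensional): for fixed `ω`, `V ↦ ω (fun b => V.col b)` is continuous
(`ω.cont`, coordinates).
`dform_smul`, `evl_smul`: `Matrix.det_smul` (`Φ ↦ c • Φ` multiplies each `φ_a`), `ω.map_smul_univ`.
`op_pow5`: `op k (M ^ j) = (op k M) ^ j` by induction with `op_mul`.
`op_dform`: `op k M (dform Φ) = dform (Mᵀ * Φ)`: both sides at `y` are `det (b ↦ Φᵀ *ᵥ (M *ᵥ y b))`.
`dform_linInd`: if `dform Φ y ≠ 0`... not needed. -/

namespace H60T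

open Matrix

variable {n k : ℕ}

/-- evaluation at tuples of basis vectors -/
noncomputable def e2_ev (n k : ℕ) : Form n k →ₗ[ℂ] ((Fin k → Fin n) → ℂ) where
  toFun ω := fun σ => ω (fun b => Pi.single (σ b) (1 : ℂ))
  map_add' _ _ := rfl
  map_smul' _ _ := rfl

theorem e2_ev_inj : Function.Injective (e2_ev n k) := by
  intro ω ω' h
  have h1 : ω.toAlternatingMap = ω'.toAlternatingMap := by
    refine Module.Basis.ext_alternating (Pi.basisFun ℂ (Fin n)) fun v _ => ?_
    have h2 := congrFun h v
    have h3 : (fun i => (Pi.basisFun ℂ (Fin n)) (v i)) = fun b => Pi.single (v b) (1 : ℂ) := by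
      funext i
      rw [Pi.basisFun_apply]
    rw [h3]
    exact h2
  ext y
  exact congrArg (fun f : (Fin n → ℂ) [⋀^Fin k]→ₗ[ℂ] ℂ => f y) h1

theorem e2_emb : Topology.IsClosedEmbedding (e2_ev n k) :=
  LinearMap.isClosedEmbedding_of_injective (LinearMap.ker_eq_bot.2 e2_ev_inj)

theorem continuous_dform : Continuous (dform : Matrix (Fin n) (Fin k) ℂ → Form n k) := by
  rw [e2_emb.isInducing.continuous_iff]
  refine continuous_pi fun σ => ?_
  change Continuous fun Φ : Matrix (Fin n) (Fin k) ℂ =>
    Matrix.det (fun b : Fin k => Φᵀ *ᵥ (Pi.single (σ b) (1 : ℂ) : Fin n → ℂ))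
  refine Continuous.matrix_det ?_
  refine continuous_pi fun b => ?_
  exact (Continuous.matrix_transpose continuous_id).matrix_mulVec continuous_const

theorem continuous_evl : Continuous (evl : Matrix (Fin n) (Fin k) ℂ → Form n k →L[ℂ] ℂ) := by
  refine continuous_clm_apply.2 fun ω => ?_
  change Continuous fun V : Matrix (Fin n) (Fin k) ℂ => ω (fun b => V.col b)
  refine ω.cont.comp ?_
  refine continuous_pi fun b => continuous_pi fun i => ?_
  exact (continuous_apply b).comp (continuous_apply i)

theorem dform_smul (c : ℂ) (Φ : Matrix (Fin n) (Fin k) ℂ) : dform (c • Φ) = c ^ k • dform Φ := by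
  ext y
  rw [ContinuousAlternatingMap.smul_apply, dform_apply, dform_apply]
  have h : (fun b : Fin k => (c • Φ)ᵀ *ᵥ y b)
      = c • (show Matrix (Fin k) (Fin k) ℂ from fun b : Fin k => Φᵀ *ᵥ y b) := by
    funext b
    rw [Matrix.transpose_smul, Matrix.smul_mulVec]
    rfl
  rw [h, Matrix.det_smul, Fintype.card_fin, smul_eq_mul]

theorem evl_smul (c : ℂ) (V : Matrix (Fin n) (Fin k) ℂ) : evl (c • V) = c ^ k • evl V := by
  ext ω
  rw [ContinuousLinearMap.smul_apply, evl_apply, evl_apply]
  have h : (fun b : Fin k => (c • V).col b) = fun b => (fun _ : Fin k => c) b • V.col b := by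
    funext b
    rfl
  rw [h]
  have h1 := ω.toMultilinearMap.map_smul_univ (fun _ : Fin k => c) (fun b => V.col b)
  rw [Finset.prod_const, Finset.card_univ, Fintype.card_fin] at h1
  exact h1

theorem op_pow5 (M : Matrix (Fin n) (Fin n) ℂ) (j : ℕ) : op k (M ^ j) = (op k M) ^ j := by
  induction j with
  | zero => rw [pow_zero, pow_zero, op_one]
  | succ j ih => rw [pow_succ, op_mul, ih, pow_succ']

theorem op_dform (M : Matrix (Fin n) (Fin n) ℂ) (Φ : Matrix (Fin n) (Fin k) ℂ) :
    op k M (dform Φ) = dform (Mᵀ * Φ) := by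
  ext y
  rw [op_apply, dform_apply, dform_apply]
  have h : (fun b : Fin k => Φᵀ *ᵥ (M *ᵥ y b)) = fun b => (Mᵀ * Φ)ᵀ *ᵥ y b := by
    funext b
    rw [Matrix.mulVec_mulVec, Matrix.transpose_mul, Matrix.transpose_transpose]
  rw [h]

end H60T
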