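import Pool.Agent.Lib.H60T.A4
import Pool.Agent.Lib.H60T.A5a
import Pool.Agent.Lib.H60T.E2

/-! # H60T, chunk A5 (M): asymptotics of the powers on forms

PROOF.  Let `lam = ∏_{a<k} z a` (`≠ 0`), `ω` from `exists_top`, `U = fr b hk` (columns `b (castLE a)`, linearly independent:
`h.1.comp _ (Fin.castLE_injective hk)`), `Q = rk1 ω (evl U)`, `L = op k M`.
Then `L * Q = lam • Q` (from `L ω = lam ω`), `Q * L = lam • Q` (from `evl_op_fr`), `Q * Q = Q` (`evl U ω = 1`).  Put `A = L - lam • Q`.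
`A * Q = 0 = Q * A`, so `L ^ j = lam ^ j • Q + A ^ j` for `j ≥ 1` (induction).
Eigenvalues of `A`: let `A x = μ x`, `x ≠ 0`.  If `μ = 0` then `‖μ‖ < ‖lam‖`.  Otherwise `0 = Q (A x) = μ Q x`, so `Q x = 0`, i.e.
`evl U x • ω = 0` and `evl U x = 0` (`ω ≠ 0`); then `L x = A x = μ x` and `eigen_prod`, `prod_lt` give `‖μ‖ < ‖lam‖`.
So `pow_tendsto` gives `lam⁻¹ ^ j • A ^ j → 0` and `lam⁻¹ ^ j • op k (M ^ j) = lam⁻¹ ^ j • L ^ j = Q + lam⁻¹ ^ j • A ^ j → Q`
(eventually in `j`; `op_pow5`). -/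

namespace H60T

open Matrix

variable {n k : ℕ} {M : Matrix (Fin n) (Fin n) ℂ} {b : Fin n → Fin n → ℂ} {z : Fin n → ℂ}

theorem a5_ring {R : Type*} [Ring R] [Algebra ℂ R] (L Q : R) (lam : ℂ) (hLQ : L * Q = lam • Q)
    (hQL : Q * L = lam • Q) (hQQ : Q * Q = Q) :
    ∃ A : R, A * Q = 0 ∧ Q * A = 0 ∧ L = lam • Q + A ∧
      ∀ j : ℕ, L ^ (j + 1) = lam ^ (j + 1) • Q + A ^ (j + 1) := by
  obtain ⟨A, hA⟩ : ∃ A, A = L - lam • Q := ⟨_, rfl⟩
  have hAQ : A * Q = 0 := by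
    rw [hA, sub_mul, hLQ, smul_mul_assoc, hQQ, sub_self]
  have hQA : Q * A = 0 := by
    rw [hA, mul_sub, hQL, mul_smul_comm, hQQ, sub_self]
  have hL : L = lam • Q + A := by rw [hA]; abel
  clear hA
  refine ⟨A, hAQ, hQA, hL, fun j => ?_⟩
  induction j with
  | zero =>
    rw [zero_add, pow_one, pow_one, pow_one]
    exact hL
  | succ j ih =>
    have h1 : A ^ (j + 1) * Q = 0 := by rw [pow_succ, mul_assoc, hAQ, mul_zero]
    have h2 : L ^ (j + 1 + 1) = (lam ^ (j + 1) • Q + A ^ (j + 1)) * (lam • Q + A) := by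
      rw [pow_succ, ih, ← hL]
    rw [h2, mul_add, add_mul, add_mul, smul_mul_assoc, mul_smul_comm, mul_smul_comm, hQQ, h1,
      smul_zero, add_zero, smul_mul_assoc, hQA, smul_zero, zero_add, smul_smul, ← pow_succ,
      ← pow_succ]

theorem a5_gen {W : Type*} [NormedAddCommGroup W] [NormedSpace ℂ W] [FiniteDimensional ℂ W]
    [CompleteSpace W] (L : W →L[ℂ] W) (w : W) (f : W →L[ℂ] ℂ) (lam : ℂ) (hlam0 : lam ≠ 0)
    (hw : w ≠ 0) (h1 : L w = lam • w) (h2 : ∀ x, f (L x) = lam * f x) (h3 : f w = 1)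
    (h4 : ∀ (μ : ℂ) (x : W), x ≠ 0 → f x = 0 → L x = μ • x → ‖μ‖ < ‖lam‖) :
    Filter.Tendsto (fun j : ℕ => (lam⁻¹) ^ j • L ^ j) Filter.atTop (nhds (rk1 w f)) := by
  have hLQ : L * rk1 w f = lam • rk1 w f := by
    refine ContinuousLinearMap.ext fun x => ?_
    show L (f x • w) = lam • (f x • w)
    rw [map_smul, h1, smul_comm]
  have hQL : rk1 w f * L = lam • rk1 w f := by
    refine ContinuousLinearMap.ext fun x => ?_
    show f (L x) • w = lam • (f x • w)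
    rw [h2, smul_smul]
  have hQQ : rk1 w f * rk1 w f = rk1 w f := by
    refine ContinuousLinearMap.ext fun x => ?_
    show f (f x • w) • w = f x • w
    rw [map_smul, h3, smul_eq_mul, mul_one]
  obtain ⟨A, hAQ, hQA, hLA, hpow⟩ := a5_ring L (rk1 w f) lam hLQ hQL hQQ
  have heig : ∀ (μ : ℂ) (x : W), x ≠ 0 → A x = μ • x → ‖μ‖ < ‖lam‖ := by
    intro μ x hx hAx
    by_cases hμ : μ = 0
    · rw [hμ, norm_zero]
      exact norm_pos_iff.2 hlam0
    · have h5 : f (A x) • w = 0 := congrArg (fun g : W →L[ℂ] W => g x) hQA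
      have h6 : f x = 0 := by
        have h7 := (smul_eq_zero.1 h5).resolve_right hw
        rw [hAx, map_smul, smul_eq_mul, mul_eq_zero] at h7
        exact h7.resolve_left hμ
      have h7 : L x = lam • (f x • w) + A x := congrArg (fun g : W →L[ℂ] W => g x) hLA
      rw [h6, zero_smul, smul_zero, zero_add, hAx] at h7
      exact h4 μ x hx h6 h7
  have hten := pow_tendsto A hlam0 heig
  have hten2 : Filter.Tendsto (fun j : ℕ => rk1 w f + (lam⁻¹) ^ j • A ^ j) Filter.atTop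
      (nhds (rk1 w f)) := by
    have h1 := hten.const_add (rk1 w f)
    rwa [add_zero] at h1
  refine hten2.congr' ?_
  filter_upwards [Filter.eventually_ge_atTop 1] with j hj
  obtain ⟨i, rfl⟩ : ∃ i, j = i + 1 := ⟨j - 1, by omega⟩
  rw [hpow i, smul_add, smul_smul, ← mul_pow, inv_mul_cancel₀ hlam0, one_pow, one_smul]

theorem hasAsym_of_triB (h : TriB M b z) (hk : k ≤ n)
    (hz : ∀ i j : Fin n, i.1 < k → k ≤ j.1 → ‖z j‖ < ‖z i‖) (hz0 : ∀ i, z i ≠ 0) :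
    ∃ (lam : ℂ) (ω : Form n k) (U : Matrix (Fin n) (Fin k) ℂ), HasAsym k M lam ω U := by
  obtain ⟨ω, hω1, hω2⟩ := exists_top h hk hz hz0
  have hlam0 : ∏ a : Fin k, z (Fin.castLE hk a) ≠ 0 :=
    Finset.prod_ne_zero_iff.2 fun a _ => hz0 _
  have hω0 : ω ≠ 0 := by
    rintro rfl
    rw [map_zero] at hω2
    exact zero_ne_one hω2
  refine ⟨_, ω, fr b hk, hlam0, hω0, h.1.comp _ (Fin.castLE_injective hk), ?_⟩
  have h1 := a5_gen (op k M) ω (evl (fr b hk)) _ hlam0 hω0 hω1 (evl_op_fr h hk) hω2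
    (fun μ x hx h3 h5 => by
      obtain ⟨s, hs1, hs2, hs3⟩ := eigen_prod h hk x μ hx h3 h5
      rw [hs3]
      exact prod_lt z hk hz hz0 s hs1 hs2)
  refine h1.congr fun j => ?_
  rw [op_pow5]

end H60T
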