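import Pool.Agent.Lib.H60T.Defs

/-! # H60T, chunk A6 (M): ordering the eigenvalues

`card_eigs`: the characteristic polynomial is monic of degree `n` over `ℂ` (`IsAlgClosed.card_roots_eq_natDegree`? `splits_iff_card_roots`,
`Matrix.charpoly_natDegree_eq_dim`).
`order_desc`: the multiset `eigs g` is the sum of `filter (ρ < ‖·‖)` (with `k` elements) and of `filter (¬ ρ < ‖·‖)`; let `l1, l2` be lists
with these multisets, `l = l1 ++ l2` of length `n`, `z i = l.get i`.  For `i < k ≤ j`: `‖z j‖ ≤ ρ < ‖z i‖`.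
`order_asc`: with `Gap g (n - k)`: `filter (¬ ρ < ‖·‖)` has `n - (n - k) = k` elements, put it first; its elements have modulus `< ρ` (not `= ρ`). -/

namespace H60T

variable {n k : ℕ}

theorem card_eigs (g : SLZ n) : Multiset.card (eigs g) = n := by
  rw [eigs, Polynomial.splits_iff_card_roots.1 (IsAlgClosed.splits _),
    Matrix.charpoly_natDegree_eq_dim, Fintype.card_fin]

/-- a multiset with `n` elements which is the sum of a part with `k` elements and another one -/
theorem a6_split (k : ℕ) (hk : k ≤ n) (m m1 m2 : Multiset ℂ) (hm : Multiset.card m = n)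
    (hm1 : Multiset.card m1 = k) (h : m1 + m2 = m) :
    ∃ z : Fin n → ℂ, Multiset.map z Finset.univ.val = m ∧ (∀ i : Fin n, i.1 < k → z i ∈ m1) ∧
      ∀ i : Fin n, k ≤ i.1 → z i ∈ m2 := by
  obtain ⟨l1, rfl⟩ := Quot.exists_rep m1
  obtain ⟨l2, rfl⟩ := Quot.exists_rep m2
  subst h
  change List.length l1 = k at hm1
  have hlen : (l1 ++ l2).length = n := by
    rw [List.length_append]
    change Multiset.card ((l1 : Multiset ℂ) + (l2 : Multiset ℂ)) = n at hm
    rw [Multiset.card_add, Multiset.coe_card, Multiset.coe_card] at hm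
    exact hm
  refine ⟨fun i => (l1 ++ l2).get (Fin.cast hlen.symm i), ?_, ?_, ?_⟩
  · subst hlen
    change _ = ((l1 : Multiset ℂ) + (l2 : Multiset ℂ))
    rw [Multiset.coe_add]
    rw [Fin.univ_val_map]
    simp only [Fin.cast_eq_self, List.get_eq_getElem, List.ofFn_getElem]
  · intro i hi
    change (l1 ++ l2).get (Fin.cast hlen.symm i) ∈ (l1 : Multiset ℂ)
    rw [Multiset.mem_coe, List.get_eq_getElem, List.getElem_append_left (by
      simp only [Fin.val_cast]; omega)]
    exact List.getElem_mem _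
  · intro i hi
    change (l1 ++ l2).get (Fin.cast hlen.symm i) ∈ (l2 : Multiset ℂ)
    rw [Multiset.mem_coe, List.get_eq_getElem, List.getElem_append_right (by
      simp only [Fin.val_cast]; omega)]
    exact List.getElem_mem _

theorem order_desc (g : SLZ n) (hk : k ≤ n) (hg : Gap g k) :
    ∃ z : Fin n → ℂ, Multiset.map z Finset.univ.val = eigs g ∧
      ∀ i j : Fin n, i.1 < k → k ≤ j.1 → ‖z j‖ < ‖z i‖ := by
  classical
  obtain ⟨ρ, h1, h2⟩ := hg
  obtain ⟨z, hz, hz1, hz2⟩ := a6_split k hk (eigs g) ((eigs g).filter (fun z => ρ < ‖z‖))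
    ((eigs g).filter (fun z => ¬ ρ < ‖z‖)) (card_eigs g) h1 (Multiset.filter_add_not _ _)
  refine ⟨z, hz, fun i j hi hj => ?_⟩
  have a1 := (Multiset.mem_filter.1 (hz1 i hi)).2
  have a2 := (Multiset.mem_filter.1 (hz2 j hj)).2
  exact lt_of_le_of_lt (not_lt.1 a2) a1

theorem order_asc (g : SLZ n) (hk : k ≤ n) (hg : Gap g (n - k)) :
    ∃ z : Fin n → ℂ, Multiset.map z Finset.univ.val = eigs g ∧
      ∀ i j : Fin n, i.1 < k → k ≤ j.1 → ‖z i‖ < ‖z j‖ := by
  classical
  obtain ⟨ρ, h1, h2⟩ := hg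
  have h3 : (eigs g).filter (fun z => ¬ ρ < ‖z‖) + (eigs g).filter (fun z => ρ < ‖z‖) = eigs g := by
    rw [add_comm]
    exact Multiset.filter_add_not _ _
  have h4 : Multiset.card ((eigs g).filter (fun z => ¬ ρ < ‖z‖)) = k := by
    have h5 := congrArg Multiset.card h3
    rw [Multiset.card_add, h1, card_eigs] at h5
    omega
  obtain ⟨z, hz, hz1, hz2⟩ := a6_split k hk (eigs g) ((eigs g).filter (fun z => ¬ ρ < ‖z‖))
    ((eigs g).filter (fun z => ρ < ‖z‖)) (card_eigs g) h4 h3
  refine ⟨z, hz, fun i j hi hj => ?_⟩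
  have a1 := Multiset.mem_filter.1 (hz1 i hi)
  have a2 := (Multiset.mem_filter.1 (hz2 j hj)).2
  exact lt_of_le_of_lt (not_lt.1 a1.2) a2

end H60T
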