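import Pool.Agent.Lib.H60T.Defs

/-! # H60T, chunk A7a (M): a transversal frame

PROOF.  Write `N *ᵥ b i = z i • b i + ∑_{l<i} c l i • b l` and `N *ᵥ b' i = z' i • b' i + ∑_{l<i} c' l i • b' l`
(`Submodule.mem_span_image_iff_...`, or `Finsupp`/`mem_span_range`).  So there are upper triangular `k × k` matrices `A, A'` with diagonals
`z, z'` and `N *ᵥ b i = ∑_l A l i • b l`, `N *ᵥ b' i = ∑_l A' l i • b' l`.  Suppose
`∑_i α i • (b i + b' i) + ∑_i β i • N *ᵥ (b i + b' i) = 0`.  By linear independence of `b, b'` together, `α + A *ᵥ β = 0` and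
`α + A' *ᵥ β = 0`; so `(A - A') *ᵥ β = 0`; `A - A'` is upper triangular with diagonal `z i - z' i ≠ 0`, so its determinant is not zero
(`Matrix.det_of_upperTriangular`) and `β = 0`, then `α = 0`.  (Or: take the largest `i` with `β i ≠ 0`.)
Conclude with `Fintype.linearIndependent_iff` and `Fintype.sum_sum_type`. -/

namespace H60T

open Matrix

theorem A7a_coef {n k : ℕ} (N : Matrix (Fin n) (Fin n) ℂ) (b : Fin k → Fin n → ℂ) (z : Fin k → ℂ)
    (h : ∀ i, N *ᵥ b i - z i • b i ∈ Submodule.span ℂ (b '' {l | l < i})) :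
    ∃ A : Matrix (Fin k) (Fin k) ℂ, (∀ i, N *ᵥ b i = ∑ l, A l i • b l) ∧ (∀ i, A i i = z i) ∧
      ∀ l i, i < l → A l i = 0 := by
  have key : ∀ i, ∃ a : Fin k → ℂ, N *ᵥ b i = ∑ l, a l • b l ∧ a i = z i ∧ ∀ l, i < l → a l = 0 := by
    intro i
    obtain ⟨f, hf, hfe⟩ := (Finsupp.mem_span_image_iff_linearCombination ℂ).1 (h i)
    rw [Finsupp.mem_supported] at hf
    have hf0 : ∀ l, ¬ l < i → f l = 0 := by
      intro l hl
      by_contra hne
      exact hl (hf (Finsupp.mem_support_iff.2 hne))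
    rw [Finsupp.linearCombination_apply, Finsupp.sum_fintype _ _ (fun l => zero_smul ℂ (b l))] at hfe
    refine ⟨fun l => f l + if l = i then z i else 0, ?_, ?_, ?_⟩
    · have e1 : ∑ l, (f l + if l = i then z i else 0) • b l = ∑ l, f l • b l + z i • b i := by
        rw [show (∑ l, (f l + if l = i then z i else 0) • b l)
          = ∑ l, (f l • b l + if l = i then z i • b i else 0) from
          Finset.sum_congr rfl fun l _ => by
            rw [add_smul]
            by_cases hl : l = i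
            · subst hl; simp
            · simp [hl]]
        rw [Finset.sum_add_distrib]
        simp
      rw [e1, hfe]
      simp
    · simp [hf0 i (lt_irrefl i)]
    · intro l hl
      simp [hf0 l (not_lt.2 hl.le), hl.ne']
  choose a ha1 ha2 ha3 using key
  exact ⟨Matrix.of fun l i => a i l, ha1, ha2, fun l i hli => ha3 i l hli⟩

theorem transversal {n k : ℕ} (N : Matrix (Fin n) (Fin n) ℂ) (b b' : Fin k → Fin n → ℂ)
    (z z' : Fin k → ℂ) (hb : LinearIndependent ℂ (Sum.elim b b'))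
    (h : ∀ i, N *ᵥ b i - z i • b i ∈ Submodule.span ℂ (b '' {l | l < i}))
    (h' : ∀ i, N *ᵥ b' i - z' i • b' i ∈ Submodule.span ℂ (b' '' {l | l < i}))
    (hz : ∀ i, z i ≠ z' i) :
    LinearIndependent ℂ (Sum.elim (fun i => b i + b' i) (fun i => N *ᵥ (b i + b' i))) := by
  obtain ⟨A, hA1, hA2, hA3⟩ := A7a_coef N b z h
  obtain ⟨A', hA1', hA2', hA3'⟩ := A7a_coef N b' z' h'
  rw [Fintype.linearIndependent_iff] at hb ⊢
  intro g hg
  rw [Fintype.sum_sum_type] at hg
  simp only [Sum.elim_inl, Sum.elim_inr] at hg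
  have hsw : ∀ (C : Matrix (Fin k) (Fin k) ℂ) (c : Fin k → Fin n → ℂ),
      ∑ i, g (Sum.inr i) • ∑ l, C l i • c l = ∑ l, (C *ᵥ fun i => g (Sum.inr i)) l • c l := by
    intro C c
    simp_rw [Finset.smul_sum]
    rw [Finset.sum_comm]
    refine Finset.sum_congr rfl fun l _ => ?_
    change _ = (∑ i, C l i * g (Sum.inr i)) • c l
    rw [Finset.sum_smul]
    refine Finset.sum_congr rfl fun i _ => ?_
    rw [smul_smul, mul_comm]
  have e1 : ∑ i, g (Sum.inl i) • (b i + b' i) + ∑ i, g (Sum.inr i) • (N *ᵥ (b i + b' i))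
      = ∑ l, (g (Sum.inl l) + (A *ᵥ fun i => g (Sum.inr i)) l) • b l
        + ∑ l, (g (Sum.inl l) + (A' *ᵥ fun i => g (Sum.inr i)) l) • b' l := by
    have e2 : ∑ i, g (Sum.inr i) • (N *ᵥ (b i + b' i))
        = ∑ i, g (Sum.inr i) • ∑ l, A l i • b l + ∑ i, g (Sum.inr i) • ∑ l, A' l i • b' l := by
      rw [← Finset.sum_add_distrib]
      refine Finset.sum_congr rfl fun i _ => ?_
      rw [Matrix.mulVec_add, hA1, hA1', smul_add]
    rw [e2, hsw, hsw]
    simp only [smul_add, add_smul, Finset.sum_add_distrib]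
    abel
  rw [e1] at hg
  have hc := hb (Sum.elim (fun l => g (Sum.inl l) + (A *ᵥ fun i => g (Sum.inr i)) l)
    (fun l => g (Sum.inl l) + (A' *ᵥ fun i => g (Sum.inr i)) l)) (by
      rw [Fintype.sum_sum_type]
      simpa only [Sum.elim_inl, Sum.elim_inr] using hg)
  have hc1 : ∀ l, g (Sum.inl l) + (A *ᵥ fun i => g (Sum.inr i)) l = 0 := fun l => hc (Sum.inl l)
  have hc2 : ∀ l, g (Sum.inl l) + (A' *ᵥ fun i => g (Sum.inr i)) l = 0 := fun l => hc (Sum.inr l)
  have hD : (A - A') *ᵥ (fun i => g (Sum.inr i)) = 0 := by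
    rw [Matrix.sub_mulVec]
    funext l
    have := hc1 l
    have := hc2 l
    simp only [Pi.sub_apply, Pi.zero_apply]
    linear_combination hc1 l - hc2 l
  have hdet : (A - A').det ≠ 0 := by
    rw [Matrix.det_of_isUpperTriangular (by
      intro i j hij
      change j < i at hij
      rw [Matrix.sub_apply, hA3 i j hij, hA3' i j hij, sub_zero])]
    refine Finset.prod_ne_zero_iff.2 fun i _ => ?_
    rw [Matrix.sub_apply, hA2, hA2']
    exact sub_ne_zero.2 (hz i)
  have hβ := Matrix.eq_zero_of_mulVec_eq_zero hdet hD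
  intro i
  rcases i with i | i
  · have := hc1 i
    rw [hβ, Matrix.mulVec_zero] at this
    simpa using this
  · exact congrFun hβ i

end H60T
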