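import Pool.Agent.Lib.H60T.Defs

/-! # H60T, chunk A7b (M): invariant subspaces with different eigenvalues are independent

PROOF.  `V = span (range b₁)`, `V' = span (range b₂)` with `b₁ i = b (castLE i)`, `b₂ i = b' (castLE i)`, `i < k`.  Both are `M`-invariant.
It is enough that `V ⊓ V' = ⊥` (`LinearIndependent.sum_type` for `b₁, b₂` linearly independent and disjoint spans).
If not, `M` has an eigenvector `x ≠ 0` in the invariant subspace `V ⊓ V'`, `M x = μ x`
(`Module.End.exists_eigenvalue` for the restriction of `M.mulVecLin`, `ℂ` algebraically closed, finite dimension, nontrivial).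
`x ∈ V`: write `x = ∑_{i<k} α i b i`, let `p` be the largest index with `α p ≠ 0`; comparing the coefficients of `b p` in
`M x = μ x` gives `z p α p = μ α p` (all `M b i` with `i < p` lie in the span of the `b l`, `l < p`), so `μ = z p`.  In the same way
`μ = z' q` for some `q < k`; contradiction with `hz`. -/

namespace H60T

open Matrix Polynomial

theorem A7b_kill {W : Type*} [AddCommGroup W] [Module ℂ W] {k : ℕ} (f : Module.End ℂ W)
    (c : Fin k → W) (ζ : Fin k → ℂ)
    (h : ∀ i, f (c i) - ζ i • c i ∈ Submodule.span ℂ (c '' {l | l < i})) :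
    ∀ (m : ℕ) (i : Fin k), i.1 = m → ∀ S : Finset (Fin k), (∀ l, l ≤ i → l ∈ S) →
      aeval f (∏ l ∈ S, (X - C (ζ l))) (c i) = 0 := by
  intro m
  induction m using Nat.strong_induction_on with
  | _ m ih =>
    intro i hi S hS
    rw [← Finset.prod_erase_mul S _ (hS i le_rfl), map_mul, Module.End.mul_apply]
    have e1 : aeval f (X - C (ζ i)) (c i) = f (c i) - ζ i • c i := by
      simp
    rw [e1]
    have hle : Submodule.span ℂ (c '' {l | l < i}) ≤
        LinearMap.ker (aeval f (∏ l ∈ S.erase i, (X - C (ζ l)))) := by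
      rw [Submodule.span_le]
      rintro _ ⟨l, hl, rfl⟩
      change l < i at hl
      refine LinearMap.mem_ker.2 (ih l.1 (by rw [← hi]; exact hl) l rfl (S.erase i) ?_)
      intro l' hl'
      exact Finset.mem_erase.2 ⟨(lt_of_le_of_lt hl' hl).ne, hS l' (hl'.trans hl.le)⟩
    exact LinearMap.mem_ker.1 (hle (h i))

theorem A7b_span {n k : ℕ} {M : Matrix (Fin n) (Fin n) ℂ} {b : Fin n → Fin n → ℂ}
    {z : Fin n → ℂ} (h : TriB M b z) (hk : k ≤ n) :
    Submodule.span ℂ (Set.range fun a : Fin k => b (Fin.castLE hk a)) ≤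
      LinearMap.ker (aeval (Matrix.toLin' M) (∏ a : Fin k, (X - C (z (Fin.castLE hk a))))) := by
  rw [Submodule.span_le]
  rintro _ ⟨a, rfl⟩
  refine LinearMap.mem_ker.2 (A7b_kill (Matrix.toLin' M) (fun a : Fin k => b (Fin.castLE hk a))
    (fun a => z (Fin.castLE hk a)) ?_ a.1 a rfl Finset.univ (fun l _ => Finset.mem_univ l))
  intro i
  have := h.2 (Fin.castLE hk i)
  rw [Matrix.toLin'_apply]
  refine Submodule.span_mono ?_ this
  rintro _ ⟨j, hj, rfl⟩
  have hj1 : j.1 < i.1 := hj
  exact ⟨⟨j.1, hj1.trans i.2⟩, hj1, rfl⟩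

theorem indep_of_triB {n k : ℕ} {M : Matrix (Fin n) (Fin n) ℂ} {b b' : Fin n → Fin n → ℂ}
    {z z' : Fin n → ℂ} (h : TriB M b z) (h' : TriB M b' z') (hk : k ≤ n)
    (hz : ∀ i j : Fin n, i.1 < k → j.1 < k → z i ≠ z' j) :
    LinearIndependent ℂ (Sum.elim (fun a : Fin k => b (Fin.castLE hk a))
      (fun a : Fin k => b' (Fin.castLE hk a))) := by
  have hinj : Function.Injective (Fin.castLE hk) := Fin.castLE_injective hk
  refine LinearIndependent.sum_type (h.1.comp _ hinj) (h'.1.comp _ hinj) ?_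
  have hcop : IsCoprime (∏ a : Fin k, (X - C (z (Fin.castLE hk a))))
      (∏ a : Fin k, (X - C (z' (Fin.castLE hk a)))) := by
    refine IsCoprime.prod_left fun i _ => IsCoprime.prod_right fun j _ => ?_
    exact Polynomial.isCoprime_X_sub_C_of_isUnit_sub
      (sub_ne_zero.2 (hz _ _ i.2 j.2)).isUnit
  exact (Polynomial.disjoint_ker_aeval_of_isCoprime (Matrix.toLin' M) hcop).mono
    (A7b_span h hk) (A7b_span h' hk)

end H60T
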