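import Pool.Agent.Lib.H60T.A1
import Pool.Agent.Lib.H60T.A2
import Pool.Agent.Lib.H60T.A5
import Pool.Agent.Lib.H60T.A6
import Pool.Agent.Lib.H60T.A7a
import Pool.Agent.Lib.H60T.A7b

/-! # H60T, chunk A8 (M): assembly of the linear algebra

`asym_pos`: `order_desc`, `exists_triB` (`eigs g = (cm g).charpoly.roots`), `TriB.ne_zero` (`cm_inv_mul`), `hasAsym_of_triB`.
`asym_neg`: `order_asc` gives `z` with `‖z i‖ < ‖z j‖` for `i < k ≤ j`; `exists_triB` for `cm g`, `TriB.inv` with `cm_inv_mul g`: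
`TriB (cm g⁻¹) b z⁻¹`, and `‖(z j)⁻¹‖ < ‖(z i)⁻¹‖`; `hasAsym_of_triB`.
`witness`: it is enough to treat `m > 0` for `g`: let `z, b` be from `order_desc` and `z', b'` from `order_asc` (both for `cm g`).
For `i, j < k`: `‖z' j‖ < ‖z i‖`: suppose `‖z i‖ ≤ ‖z' j‖`.  Then all `z l`, `l ≥ k`, have modulus `< ‖z i‖ ≤ ‖z' j‖ <` that of all
`z' l`, `l ≥ k`; count the eigenvalues of modulus `≤ ‖z' j‖`: at least `n - k + 1` by the first enumeration (`z l` for `l ≥ k`, and `z i`),
at most `k` by the second one (only the `z' l` with `l < k`), and `n - k + 1 > k`.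
For `j ≥ 1` put `N = cm g ^ j`; `TriB.pow` for both bases, `indep_of_triB` (for `M = cm g`) and `transversal`
(the vectors `b (castLE a)`, the span conditions restricted: `{l | l < castLE a}` are the `castLE c`, `c < a`) give the statement for
`V = fr b hk + fr b' hk` and `m = j` (`z^j ≠ z'^j` because the moduli differ).
For `m = -j`: apply the invertible matrix `cm (g ^ (-j))` to the independent family `(V, cm (g^j) V)`: it becomes
`(cm (g^(-j)) V, V)`; exchange the two halves (`LinearIndependent.map'`, `Sum.swap`). -/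

namespace H60T

open Matrix

variable {n k : ℕ}

theorem asym_pos (g : SLZ n) (hk : k ≤ n) (hg : Gap g k) :
    ∃ (lam : ℂ) (ω : Form n k) (U : Matrix (Fin n) (Fin k) ℂ), HasAsym k (cm g) lam ω U := by
  obtain ⟨z, hz1, hz2⟩ := order_desc g hk hg
  obtain ⟨b, hb⟩ := exists_triB (cm g) z hz1
  exact hasAsym_of_triB hb hk hz2 (hb.ne_zero (cm_inv_mul g))

theorem asym_neg (g : SLZ n) (hk : k ≤ n) (hg : Gap g (n - k)) :
    ∃ (lam : ℂ) (ω : Form n k) (U : Matrix (Fin n) (Fin k) ℂ), HasAsym k (cm g⁻¹) lam ω U := by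
  obtain ⟨z, hz1, hz2⟩ := order_asc g hk hg
  obtain ⟨b, hb⟩ := exists_triB (cm g) z hz1
  have hz0 := hb.ne_zero (cm_inv_mul g)
  refine hasAsym_of_triB (hb.inv (cm_inv_mul g)) hk (fun i j hi hj => ?_)
    (fun i => inv_ne_zero (hz0 i))
  rw [norm_inv, norm_inv]
  exact inv_strictAnti₀ (norm_pos_iff.2 (hz0 i)) (hz2 i j hi hj)

open scoped Classical in
theorem a8_count {s : Multiset ℂ} {z : Fin n → ℂ} (h : Multiset.map z Finset.univ.val = s)
    (p : ℂ → Prop) :
    Multiset.card (s.filter p) = (Finset.univ.filter (fun l => p (z l))).card := by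
  rw [← h, Multiset.filter_map, Multiset.card_map]
  rfl

open scoped Classical in
theorem a8_sep {s : Multiset ℂ} {z z' : Fin n → ℂ} (h2 : 2 * k ≤ n)
    (h : Multiset.map z Finset.univ.val = s) (h' : Multiset.map z' Finset.univ.val = s)
    (hz : ∀ i j : Fin n, i.1 < k → k ≤ j.1 → ‖z j‖ < ‖z i‖)
    (hz' : ∀ i j : Fin n, i.1 < k → k ≤ j.1 → ‖z' i‖ < ‖z' j‖)
    (i j : Fin n) (hi : i.1 < k) (hj : j.1 < k) : ‖z' j‖ < ‖z i‖ := by
  by_contra hcon
  push Not at hcon
  have h1 := a8_count h (fun w => ‖w‖ ≤ ‖z' j‖)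
  rw [a8_count h' (fun w => ‖w‖ ≤ ‖z' j‖)] at h1
  have h3 : (Finset.univ.filter (fun l : Fin n => ‖z' l‖ ≤ ‖z' j‖)).card ≤ k := by
    have h4 : Finset.univ.filter (fun l : Fin n => ‖z' l‖ ≤ ‖z' j‖) ⊆
        Finset.univ.filter (fun l : Fin n => l.1 < k) := by
      intro l hl
      rw [Finset.mem_filter] at hl ⊢
      refine ⟨Finset.mem_univ _, ?_⟩
      by_contra h5
      exact absurd (hz' j l hj (by omega)) (not_lt.2 hl.2)
    refine (Finset.card_le_card h4).trans ?_
    have h5 : (Finset.univ.filter (fun l : Fin n => l.1 < k)).card ≤ (Finset.range k).card := by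
      refine Finset.card_le_card_of_injOn (fun l : Fin n => l.1) (fun l hl => ?_)
        (fun l _ l' _ hll => Fin.ext hll)
      rw [Finset.mem_coe, Finset.mem_filter] at hl
      rw [Finset.mem_coe, Finset.mem_range]
      exact hl.2
    rwa [Finset.card_range] at h5
  have h6 : n - k + 1 ≤ (Finset.univ.filter (fun l : Fin n => ‖z l‖ ≤ ‖z' j‖)).card := by
    have h7 : insert i (Finset.univ.filter (fun l : Fin n => k ≤ l.1)) ⊆
        Finset.univ.filter (fun l : Fin n => ‖z l‖ ≤ ‖z' j‖) := by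
      intro l hl
      rw [Finset.mem_insert, Finset.mem_filter] at hl
      rw [Finset.mem_filter]
      refine ⟨Finset.mem_univ _, ?_⟩
      rcases hl with rfl | ⟨-, hl⟩
      · exact hcon
      · exact (hz i l hi hl).le.trans hcon
    refine le_trans ?_ (Finset.card_le_card h7)
    rw [Finset.card_insert_of_notMem (by
      rw [Finset.mem_filter]
      intro h8
      exact absurd h8.2 (by omega))]
    have h9 : (Finset.range (n - k)).card ≤ (Finset.univ.filter (fun l : Fin n => k ≤ l.1)).card := by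
      refine Finset.card_le_card_of_injOn (fun t => if ht : k + t < n then (⟨k + t, ht⟩ : Fin n)
        else i) (fun t ht => ?_) (fun t ht t' ht' htt => ?_)
      · rw [Finset.mem_coe, Finset.mem_range] at ht
        have h10 : k + t < n := by omega
        simp only [dif_pos h10, Finset.coe_filter, Finset.mem_univ, true_and, Set.mem_ofPred_eq]
        omega
      · rw [Finset.mem_coe, Finset.mem_range] at ht ht'
        have h10 : k + t < n := by omega
        have h11 : k + t' < n := by omega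
        simp only [dif_pos h10, dif_pos h11, Fin.mk.injEq] at htt
        omega
    rw [Finset.card_range] at h9
    omega
  omega

theorem a8_span {b : Fin n → Fin n → ℂ} (hk : k ≤ n) (i : Fin k) :
    b '' {l | l < Fin.castLE hk i} ⊆ (fun a : Fin k => b (Fin.castLE hk a)) '' {l | l < i} := by
  rintro _ ⟨l, hl, rfl⟩
  have h1 : l.1 < i.1 := hl
  exact ⟨⟨l.1, by omega⟩, h1, rfl⟩

theorem a8_pos (g : SLZ n) (h2 : 2 * k ≤ n) (hg : Gap g k) (hg' : Gap g (n - k)) (j : ℕ)
    (hj : 1 ≤ j) :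
    ∃ V : Matrix (Fin n) (Fin k) ℂ,
      LinearIndependent ℂ (Sum.elim V.col (cm (g ^ j) * V).col) := by
  have hk : k ≤ n := by omega
  obtain ⟨z, hz1, hz2⟩ := order_desc g hk hg
  obtain ⟨z', hz1', hz2'⟩ := order_asc g hk hg'
  obtain ⟨b, hb⟩ := exists_triB (cm g) z hz1
  obtain ⟨b', hb'⟩ := exists_triB (cm g) z' hz1'
  have hsep := a8_sep h2 hz1 hz1' hz2 hz2'
  have hind := indep_of_triB hb hb' hk (fun i l hi hl h => by
    have h1 := hsep i l hi hl
    rw [h] at h1
    exact lt_irrefl _ h1)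
  have hp := hb.pow j
  have hp' := hb'.pow j
  have h3 := transversal (cm g ^ j) _ _ (fun a : Fin k => z (Fin.castLE hk a) ^ j)
    (fun a : Fin k => z' (Fin.castLE hk a) ^ j) hind
    (fun i => Submodule.span_mono (a8_span hk i) (hp.2 (Fin.castLE hk i)))
    (fun i => Submodule.span_mono (a8_span hk i) (hp'.2 (Fin.castLE hk i)))
    (fun i h => by
      have h4 := hsep (Fin.castLE hk i) (Fin.castLE hk i) i.2 i.2
      have h5 := pow_lt_pow_left₀ h4 (norm_nonneg _) (by omega : j ≠ 0)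
      rw [← norm_pow, ← norm_pow, h] at h5
      exact lt_irrefl _ h5)
  refine ⟨Matrix.of fun i a => b (Fin.castLE hk a) i + b' (Fin.castLE hk a) i, ?_⟩
  have h4 : (Sum.elim (fun i : Fin k => b (Fin.castLE hk i) + b' (Fin.castLE hk i))
      (fun i => (cm g ^ j) *ᵥ (b (Fin.castLE hk i) + b' (Fin.castLE hk i)))) =
      Sum.elim (Matrix.of fun i a => b (Fin.castLE hk a) i + b' (Fin.castLE hk a) i).col
        (cm (g ^ j) * Matrix.of fun i a => b (Fin.castLE hk a) i + b' (Fin.castLE hk a) i).col := by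
    funext x
    rcases x with a | a
    · rfl
    · rw [cm_pow]
      rfl
  rw [h4] at h3
  exact h3

theorem witness (g : SLZ n) (h2 : 2 * k ≤ n) (hg : Gap g k) (hg' : Gap g (n - k)) (m : ℤ)
    (hm : m ≠ 0) :
    ∃ V : Matrix (Fin n) (Fin k) ℂ,
      LinearIndependent ℂ (Sum.elim V.col (cm (g ^ m) * V).col) := by
  rcases lt_or_gt_of_ne hm with hneg | hpos
  · obtain ⟨j, rfl⟩ : ∃ j : ℕ, m = -(j : ℤ) := ⟨m.natAbs, by omega⟩
    obtain ⟨V, hV⟩ := a8_pos g h2 hg hg' j (by omega)
    refine ⟨V, ?_⟩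
    have h1 : cm (g ^ (-(j : ℤ))) * cm (g ^ j) = 1 := by
      rw [← cm_mul, _root_.zpow_neg, _root_.zpow_natCast, inv_mul_cancel, cm_one]
    have h1' : cm (g ^ j) * cm (g ^ (-(j : ℤ))) = 1 := by
      rw [← cm_mul, _root_.zpow_neg, _root_.zpow_natCast, mul_inv_cancel, cm_one]
    have h3 := hV.map' (cm (g ^ (-(j : ℤ)))).mulVecLin (by
      rw [LinearMap.ker_eq_bot']
      intro v hv
      rw [Matrix.mulVecLin_apply] at hv
      have h4 := congrArg (fun w => cm (g ^ j) *ᵥ w) hv
      simp only [Matrix.mulVec_mulVec, h1', Matrix.one_mulVec, Matrix.mulVec_zero] at h4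
      exact h4)
    have h5 := h3.comp (Equiv.sumComm (Fin k) (Fin k)) (Equiv.sumComm (Fin k) (Fin k)).injective
    have h6 : (⇑(cm (g ^ (-(j : ℤ)))).mulVecLin ∘ Sum.elim V.col (cm (g ^ j) * V).col) ∘
        (Equiv.sumComm (Fin k) (Fin k)) = Sum.elim V.col (cm (g ^ (-(j : ℤ))) * V).col := by
      funext x
      rcases x with a | a
      · show cm (g ^ (-(j : ℤ))) *ᵥ ((cm (g ^ j) * V).col a) = V.col a
        have h7 : (cm (g ^ j) * V).col a = cm (g ^ j) *ᵥ (V.col a) := rfl
        rw [h7, Matrix.mulVec_mulVec, h1, Matrix.one_mulVec]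
      · rfl
    rw [h6] at h5
    exact h5
  · obtain ⟨j, rfl⟩ : ∃ j : ℕ, m = (j : ℤ) := ⟨m.natAbs, by omega⟩
    obtain ⟨V, hV⟩ := a8_pos g h2 hg hg' j (by omega)
    refine ⟨V, ?_⟩
    rw [_root_.zpow_natCast]
    exact hV

end H60T
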