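import Pool.Agent.Lib.H60T.Defs

/-! # H60T, chunk B1 (M): eigenvalues in decreasing order

`exists_sorted`: `eigs g` has `n` elements (the characteristic polynomial is monic of degree `n` and splits over `ℂ`;
`Matrix.charpoly_natDegree_eq_dim`, `IsAlgClosed.splits`).  Sort a list of the elements by decreasing modulus
(`List.mergeSort` / `Multiset.sort` for the relation `‖w‖ ≤ ‖z‖`; it is total and transitive but not antisymmetric, so use
`List.insertionSort` or `List.mergeSort` with `List.sorted_..`/`pairwise`), `z i = l.get i`.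
`gap_of_lt`: `ρ = (‖z i‖ + ‖z j‖) / 2`.  `‖z l‖ > ρ` iff `l ≤ i` (antitone), so `filter (ρ < ‖·‖)` has `i + 1` elements
(`Multiset.filter_map`, `Multiset.card_map`, `Finset.card` of `{l | l ≤ i}`), and no eigenvalue has modulus `ρ`.
`not_three`: if `‖z i‖ = ‖z j‖ = ‖z l‖` then `filter (‖·‖ = ‖z i‖)` contains the three indices `i, j, l`.
`count_eq`: the number of eigenvalues with modulus `r` is the number of indices. -/

namespace H60T

variable {n : ℕ}

theorem exists_sorted (g : SLZ n) :
    ∃ z : Fin n → ℂ, Multiset.map z Finset.univ.val = eigs g ∧ Antitone (fun i => ‖z i‖) := by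
  classical
  have hcard : Multiset.card (eigs g) = n := by
    unfold eigs
    have h1 : (cm g).charpoly.Splits := IsAlgClosed.splits _
    rw [← h1.natDegree_eq_card_roots, Matrix.charpoly_natDegree_eq_dim, Fintype.card_fin]
  let r : ℂ → ℂ → Prop := fun a b => ‖b‖ ≤ ‖a‖
  haveI : Std.Total r := ⟨fun a b => le_total ‖b‖ ‖a‖⟩
  haveI : IsTrans ℂ r := ⟨fun a b c h1 h2 => le_trans h2 h1⟩
  let l : List ℂ := (eigs g).toList.insertionSort r
  have hperm : l.Perm (eigs g).toList := List.perm_insertionSort r _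
  have hl : (l : Multiset ℂ) = eigs g := by
    rw [← Multiset.coe_toList (eigs g)]
    exact Multiset.coe_eq_coe.2 hperm
  have hlen : l.length = n := by
    rw [← hcard, ← hl]
    rfl
  have hp : l.Pairwise r := List.pairwise_insertionSort r _
  refine ⟨fun i => l.get (Fin.cast hlen.symm i), ?_, ?_⟩
  · rw [Fin.univ_val_map]
    rw [← hl]
    congr 1
    apply List.ext_getElem
    · rw [List.length_ofFn, hlen]
    · intro i h1 h2
      rw [List.getElem_ofFn]
      rfl
  · intro i j hij
    rcases lt_or_eq_of_le hij with h | h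
    · exact List.pairwise_iff_get.1 hp (Fin.cast hlen.symm i) (Fin.cast hlen.symm j) h
    · rw [h]

theorem count_eq (g : SLZ n) (z : Fin n → ℂ) (hz : Multiset.map z Finset.univ.val = eigs g)
    (r : ℝ) : Multiset.card ((eigs g).filter (fun w => ‖w‖ = r))
      = (Finset.univ.filter (fun i => ‖z i‖ = r)).card := by
  rw [← hz, Multiset.filter_map, Multiset.card_map]
  rfl

theorem gap_of_lt (g : SLZ n) (z : Fin n → ℂ) (hz : Multiset.map z Finset.univ.val = eigs g)
    (ha : Antitone (fun i => ‖z i‖)) (i j : Fin n) (hij : j.1 = i.1 + 1) (h : ‖z j‖ < ‖z i‖) :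
    Gap g (i.1 + 1) := by
  have key : ∀ l : Fin n, (l ≤ i → ‖z i‖ ≤ ‖z l‖) ∧ (¬ l ≤ i → ‖z l‖ ≤ ‖z j‖) := by
    intro l
    refine ⟨fun hl => ha hl, fun hl => ha ?_⟩
    rw [Fin.le_def] at hl ⊢
    omega
  refine ⟨(‖z i‖ + ‖z j‖) / 2, ?_, ?_⟩
  · rw [← hz, Multiset.filter_map, Multiset.card_map]
    have h1 : (Finset.univ.filter (fun l : Fin n => (‖z i‖ + ‖z j‖) / 2 < ‖z l‖)) = Finset.Iic i := by
      ext l
      rw [Finset.mem_filter, Finset.mem_Iic]
      constructor
      · rintro ⟨_, h2⟩
        by_contra h3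
        have := (key l).2 h3
        linarith
      · intro h2
        refine ⟨Finset.mem_univ _, ?_⟩
        have := (key l).1 h2
        linarith
    have h2 : (Finset.univ.filter (fun l : Fin n => (‖z i‖ + ‖z j‖) / 2 < ‖z l‖)).card = i.1 + 1 := by
      rw [h1, Fin.card_Iic]
    exact h2
  · intro w hw
    rw [← hz, Multiset.mem_map] at hw
    obtain ⟨l, _, rfl⟩ := hw
    by_cases hl : l ≤ i
    · have := (key l).1 hl
      intro h2
      linarith
    · have := (key l).2 hl
      intro h2
      linarith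

theorem not_three (g : SLZ n) (z : Fin n → ℂ) (hz : Multiset.map z Finset.univ.val = eigs g)
    (ha : Antitone (fun i => ‖z i‖)) (h3 : NoThree g) (i j l : Fin n) (hij : j.1 = i.1 + 1)
    (hjl : l.1 = j.1 + 1) : ‖z j‖ < ‖z i‖ ∨ ‖z l‖ < ‖z j‖ := by
  classical
  by_contra hcon
  rw [not_or, not_lt, not_lt] at hcon
  obtain ⟨h1, h2⟩ := hcon
  have hij' : i ≤ j := by
    rw [Fin.le_def]
    omega
  have hjl' : j ≤ l := by
    rw [Fin.le_def]
    omega
  have h3' : ‖z j‖ ≤ ‖z i‖ := ha hij'
  have h4' : ‖z l‖ ≤ ‖z j‖ := ha hjl'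
  have e1 : ‖z j‖ = ‖z i‖ := le_antisymm h3' h1
  have e2 : ‖z l‖ = ‖z i‖ := by rw [← e1]; exact le_antisymm h4' h2
  have h5 := h3 ‖z i‖
  rw [count_eq g z hz] at h5
  have h6 : ({i, j, l} : Finset (Fin n)) ⊆ Finset.univ.filter (fun m => ‖z m‖ = ‖z i‖) := by
    intro m hm
    rw [Finset.mem_insert, Finset.mem_insert, Finset.mem_singleton] at hm
    rw [Finset.mem_filter]
    refine ⟨Finset.mem_univ _, ?_⟩
    rcases hm with rfl | rfl | rfl
    · rfl
    · exact e1
    · exact e2
  have h7 : ({i, j, l} : Finset (Fin n)).card = 3 := by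
    rw [Finset.card_eq_three]
    refine ⟨i, j, l, ?_, ?_, ?_, rfl⟩
    · intro h
      rw [h] at hij
      omega
    · intro h
      rw [h] at hij
      omega
    · intro h
      rw [h] at hjl
      omega
  have h8 := Finset.card_le_card h6
  omega

end H60T
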