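import Pool.Agent.Lib.H60T.B1

/-! # H60T, chunk B3 (S/M): even dimension

PROOF.  `z` from `exists_sorted`, indices `m-2, m-1, m, m+1` (all `< 2 m` as `m ≥ 2`).  If `‖z m‖ < ‖z (m-1)‖` then `Gap g m`
(`gap_of_lt`).  Otherwise `not_three` for `(m-2, m-1, m)` gives `‖z (m-1)‖ < ‖z (m-2)‖`, so `Gap g (m-1)`, and `not_three` for
`(m-1, m, m+1)` gives `‖z (m+1)‖ < ‖z m‖`, so `Gap g (m+1)`. -/

namespace H60T

theorem even_case (m : ℕ) (hm : 2 ≤ m) (g : SLZ (2 * m)) (h3 : NoThree g) :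
    Gap g m ∨ (Gap g (m - 1) ∧ Gap g (m + 1)) := by
  obtain ⟨z, hz, ha⟩ := exists_sorted g
  have hm2 : m - 2 < 2 * m := by omega
  have hm1 : m - 1 < 2 * m := by omega
  have hm0 : m < 2 * m := by omega
  have hm3 : m + 1 < 2 * m := by omega
  by_cases h : ‖z ⟨m, hm0⟩‖ < ‖z ⟨m - 1, hm1⟩‖
  · left
    have h1 := gap_of_lt g z hz ha ⟨m - 1, hm1⟩ ⟨m, hm0⟩ (by simp only []; omega) h
    have h2 : m - 1 + 1 = m := by omega
    simp only [h2] at h1
    exact h1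
  · right
    constructor
    · have h1 : ‖z ⟨m - 1, hm1⟩‖ < ‖z ⟨m - 2, hm2⟩‖ := by
        rcases not_three g z hz ha h3 ⟨m - 2, hm2⟩ ⟨m - 1, hm1⟩ ⟨m, hm0⟩ (by simp only []; omega)
          (by simp only []; omega) with h4 | h4
        · exact h4
        · exact absurd h4 h
      have h2 := gap_of_lt g z hz ha ⟨m - 2, hm2⟩ ⟨m - 1, hm1⟩ (by simp only []; omega) h1
      have h5 : m - 2 + 1 = m - 1 := by omega
      simp only [h5] at h2
      exact h2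
    · have h1 : ‖z ⟨m + 1, hm3⟩‖ < ‖z ⟨m, hm0⟩‖ := by
        rcases not_three g z hz ha h3 ⟨m - 1, hm1⟩ ⟨m, hm0⟩ ⟨m + 1, hm3⟩ (by simp only []; omega)
          (by simp only []) with h4 | h4
        · exact absurd h4 h
        · exact h4
      exact gap_of_lt g z hz ha ⟨m, hm0⟩ ⟨m + 1, hm3⟩ (by simp only []) h1

end H60T
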