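import Pool.Agent.Lib.H60T.B1

/-! # H60T, chunk B4 (M): odd dimension

`alternate` (pure): `D k` and `D (k+1)` cannot both hold (`1 ≤ k`, `k + 1 ≤ 2 m`): otherwise by `hU` neither `D (n-k)` nor `D (n-k-1)` holds
(`n = 2 m + 1`), contradicting `hT` at `n - k - 1`.  So exactly one of `D k`, `D (k+1)` holds; induction on `k`, starting with `D 1` or `¬ D 1`.
`odd_case`: `z` from `exists_sorted`; `D k` := there are indices `i j` with `i.1 + 1 = k`, `j.1 = k`, `‖z j‖ < ‖z i‖`
(for `1 ≤ k ≤ 2 m`).  Suppose the first alternative fails.  `gap_of_lt` : `D k → Gap g k`; if `D k` and `D (n - k)` for some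
`1 ≤ k ≤ 2 m` then one of `k, n - k` is `≤ m`, contradiction; this is `hU`.  `hT` is `not_three`.
Case `D k ↔ Odd k`: `‖z 0‖ > ‖z 1‖ = ‖z 2‖ > ‖z 3‖ = ‖z 4‖ > …`: `Exc g` with the eigenvalue `z 0`: only the index `0` has modulus `‖z 0‖`
(antitone, `‖z 1‖ < ‖z 0‖`), it is the largest; any other eigenvalue is `z i`, `i ≥ 1`, and there is another index `i' = i ± 1` with the same modulus
(`i` odd: `i + 1`, `i` even: `i - 1`), so the number of indices is `≥ 2`, and it is `≤ 2` by `NoThree` (`count_eq`).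
Case `D k ↔ Even k`: the same with `z (2 m)`, the smallest (`D (2 m)`; the pairs are `(0,1), (2,3), …`). -/

namespace H60T

theorem alternate (m : ℕ) (hm : 1 ≤ m) (D : ℕ → Prop)
    (hT : ∀ k, 1 ≤ k → k + 1 ≤ 2 * m → D k ∨ D (k + 1))
    (hU : ∀ k, 1 ≤ k → k ≤ 2 * m → ¬ (D k ∧ D (2 * m + 1 - k))) :
    (∀ k, 1 ≤ k → k ≤ 2 * m → (D k ↔ Odd k)) ∨ (∀ k, 1 ≤ k → k ≤ 2 * m → (D k ↔ Even k)) := by
  have hN : ∀ k, 1 ≤ k → k + 1 ≤ 2 * m → (D (k + 1) ↔ ¬ D k) := by
    intro k h1 h2
    constructor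
    · intro h3 h4
      have a1 := hU k h1 (by omega)
      have a2 := hU (k + 1) (by omega) h2
      have a3 := hT (2 * m - k) (by omega) (by omega)
      have e1 : 2 * m + 1 - k = 2 * m - k + 1 := by omega
      have e2 : 2 * m + 1 - (k + 1) = 2 * m - k := by omega
      rw [e1] at a1
      rw [e2] at a2
      rcases a3 with h | h
      · exact a2 ⟨h3, h⟩
      · exact a1 ⟨h4, h⟩
    · intro h3
      rcases hT k h1 h2 with h | h
      · exact absurd h h3
      · exact h
  by_cases hD : D 1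
  · left
    intro k
    induction k with
    | zero => intro h; omega
    | succ k ih =>
      intro h1 h2
      rcases Nat.eq_zero_or_pos k with rfl | hk
      · simp [hD]
      · rw [hN k hk h2, ih hk (by omega), Nat.odd_add_one]
  · right
    intro k
    induction k with
    | zero => intro h; omega
    | succ k ih =>
      intro h1 h2
      rcases Nat.eq_zero_or_pos k with rfl | hk
      · simp [hD]
      · rw [hN k hk h2, ih hk (by omega), Nat.even_add_one]

theorem b4_pair {n : ℕ} (g : SLZ n) (z : Fin n → ℂ) (hz : Multiset.map z Finset.univ.val = eigs g)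
    (h3 : NoThree g) (i j : Fin n) (hij : i ≠ j) (h : ‖z i‖ = ‖z j‖) :
    Multiset.card ((eigs g).filter (fun v => ‖v‖ = ‖z i‖)) = 2 := by
  refine le_antisymm (h3 _) ?_
  rw [count_eq g z hz]
  have h1 : ({i, j} : Finset (Fin n)) ⊆ Finset.univ.filter (fun l => ‖z l‖ = ‖z i‖) := by
    intro l hl
    rw [Finset.mem_insert, Finset.mem_singleton] at hl
    rw [Finset.mem_filter]
    refine ⟨Finset.mem_univ _, ?_⟩
    rcases hl with rfl | rfl
    · rfl
    · exact h.symm
  calc 2 = ({i, j} : Finset (Fin n)).card := (Finset.card_pair hij).symm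
    _ ≤ _ := Finset.card_le_card h1

theorem b4_mem {n : ℕ} (g : SLZ n) (z : Fin n → ℂ) (hz : Multiset.map z Finset.univ.val = eigs g)
    (w : ℂ) : w ∈ eigs g ↔ ∃ i, z i = w := by
  rw [← hz, Multiset.mem_map]
  constructor
  · rintro ⟨i, -, h⟩
    exact ⟨i, h⟩
  · rintro ⟨i, h⟩
    exact ⟨i, Finset.mem_univ i, h⟩

theorem odd_case (m : ℕ) (hm : 1 ≤ m) (g : SLZ (2 * m + 1)) (h3 : NoThree g) :
    (∃ k, 1 ≤ k ∧ k ≤ m ∧ Gap g k ∧ Gap g (2 * m + 1 - k)) ∨ Exc g := by
  by_cases hA : ∃ k, 1 ≤ k ∧ k ≤ m ∧ Gap g k ∧ Gap g (2 * m + 1 - k)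
  · exact Or.inl hA
  right
  obtain ⟨z, hz, ha⟩ := exists_sorted g
  set D : ℕ → Prop := fun k => ∃ i j : Fin (2 * m + 1), i.1 + 1 = k ∧ j.1 = k ∧ ‖z j‖ < ‖z i‖
    with hDdef
  have hG : ∀ k, D k → Gap g k := by
    rintro k ⟨i, j, h1, h2, h⟩
    have := gap_of_lt g z hz ha i j (by omega) h
    rwa [h1] at this
  have hT : ∀ k, 1 ≤ k → k + 1 ≤ 2 * m → D k ∨ D (k + 1) := by
    intro k h1 h2
    rcases not_three g z hz ha h3 ⟨k - 1, by omega⟩ ⟨k, by omega⟩ ⟨k + 1, by omega⟩
      (by simp only; omega) (by simp only) with h | h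
    · left
      exact ⟨⟨k - 1, by omega⟩, ⟨k, by omega⟩, by simp only; omega, rfl, h⟩
    · right
      exact ⟨⟨k, by omega⟩, ⟨k + 1, by omega⟩, rfl, rfl, h⟩
  have hU : ∀ k, 1 ≤ k → k ≤ 2 * m → ¬ (D k ∧ D (2 * m + 1 - k)) := by
    rintro k h1 h2 ⟨h4, h5⟩
    rcases le_or_gt k m with h | h
    · exact hA ⟨k, h1, h, hG _ h4, hG _ h5⟩
    · refine hA ⟨2 * m + 1 - k, by omega, by omega, hG _ h5, ?_⟩
      have e : 2 * m + 1 - (2 * m + 1 - k) = k := by omega
      rw [e]
      exact hG _ h4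
  -- two neighbours of equal modulus
  have hEq : ∀ i j : Fin (2 * m + 1), j.1 = i.1 + 1 → ¬ D j.1 → ‖z i‖ = ‖z j‖ := by
    intro i j hij h
    refine le_antisymm ?_ (ha (by rw [Fin.le_def]; omega))
    by_contra hlt
    rw [not_le] at hlt
    exact h ⟨i, j, by omega, rfl, hlt⟩
  have hcount1 : ∀ i : Fin (2 * m + 1), (∀ j, j ≠ i → ‖z j‖ ≠ ‖z i‖) →
      Multiset.card ((eigs g).filter (fun w => ‖w‖ = ‖z i‖)) = 1 := by
    intro i h
    rw [count_eq g z hz, Finset.card_eq_one]
    refine ⟨i, ?_⟩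
    ext j
    rw [Finset.mem_filter, Finset.mem_singleton]
    constructor
    · rintro ⟨-, hj⟩
      by_contra hne
      exact h j hne hj
    · rintro rfl
      exact ⟨Finset.mem_univ _, rfl⟩
  rcases alternate m hm D hT hU with hO | hE
  · have hD1 : D 1 := (hO 1 le_rfl (by omega)).2 odd_one
    obtain ⟨i0, i1, h01, h11, hlt⟩ := hD1
    refine ⟨z i0, (b4_mem g z hz _).2 ⟨i0, rfl⟩, hcount1 i0 ?_, Or.inl ?_, ?_⟩
    · intro j hj he
      have h1 : ‖z j‖ ≤ ‖z i1‖ := by
        refine ha ?_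
        rw [Fin.le_def]
        have : j.1 ≠ i0.1 := fun h => hj (Fin.ext h)
        omega
      linarith
    · intro w hw
      obtain ⟨i, rfl⟩ := (b4_mem g z hz _).1 hw
      exact ha (by rw [Fin.le_def]; omega)
    · intro w hw hne
      obtain ⟨i, rfl⟩ := (b4_mem g z hz _).1 hw
      have hi : i.1 ≠ i0.1 := by
        intro h
        exact hne (by rw [Fin.ext h])
      have hi2 := i.2
      rcases Nat.even_or_odd i.1 with hev | hod
      · have hn : ¬ D i.1 := by
          rw [hO i.1 (by omega) (by omega), Nat.not_odd_iff_even]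
          exact hev
        have hj : i.1 = (⟨i.1 - 1, by omega⟩ : Fin (2 * m + 1)).1 + 1 := by
          simp only
          omega
        have he := hEq ⟨i.1 - 1, by omega⟩ i hj hn
        refine b4_pair g z hz h3 i ⟨i.1 - 1, by omega⟩ ?_ he.symm
        intro h
        have := congrArg Fin.val h
        simp only at this
        omega
      · have hlt2 : i.1 + 1 < 2 * m + 1 := by
          obtain ⟨t, ht⟩ := hod
          omega
        have hn : ¬ D (i.1 + 1) := by
          rw [hO (i.1 + 1) (by omega) (by omega), Nat.not_odd_iff_even]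
          exact hod.add_one
        have he := hEq i ⟨i.1 + 1, hlt2⟩ rfl hn
        refine b4_pair g z hz h3 i ⟨i.1 + 1, hlt2⟩ ?_ he
        intro h
        have := congrArg Fin.val h
        simp only at this
        omega
  · have hD1 : D (2 * m) := (hE (2 * m) (by omega) le_rfl).2 (even_two_mul m)
    obtain ⟨i1, i0, h11, h01, hlt⟩ := hD1
    refine ⟨z i0, (b4_mem g z hz _).2 ⟨i0, rfl⟩, hcount1 i0 ?_, Or.inr ?_, ?_⟩
    · intro j hj he
      have h1 : ‖z i1‖ ≤ ‖z j‖ := by
        refine ha ?_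
        rw [Fin.le_def]
        have : j.1 ≠ i0.1 := fun h => hj (Fin.ext h)
        have := j.2
        omega
      linarith
    · intro w hw
      obtain ⟨i, rfl⟩ := (b4_mem g z hz _).1 hw
      have := i.2
      exact ha (by rw [Fin.le_def]; omega)
    · intro w hw hne
      obtain ⟨i, rfl⟩ := (b4_mem g z hz _).1 hw
      have hi : i.1 ≠ i0.1 := by
        intro h
        exact hne (by rw [Fin.ext h])
      have hi2 := i.2
      rcases Nat.even_or_odd i.1 with hev | hod
      · have hlt2 : i.1 + 1 < 2 * m + 1 := by omega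
        have hn : ¬ D (i.1 + 1) := by
          rw [hE (i.1 + 1) (by omega) (by omega), Nat.not_even_iff_odd]
          exact hev.add_one
        have he := hEq i ⟨i.1 + 1, hlt2⟩ rfl hn
        refine b4_pair g z hz h3 i ⟨i.1 + 1, hlt2⟩ ?_ he
        intro h
        have := congrArg Fin.val h
        simp only at this
        omega
      · have h1 : 1 ≤ i.1 := by
          obtain ⟨t, ht⟩ := hod
          omega
        have hn : ¬ D i.1 := by
          rw [hE i.1 (by omega) (by omega), Nat.not_even_iff_odd]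
          exact hod
        have hj : i.1 = (⟨i.1 - 1, by omega⟩ : Fin (2 * m + 1)).1 + 1 := by
          simp only
          omega
        have he := hEq ⟨i.1 - 1, by omega⟩ i hj hn
        refine b4_pair g z hz h3 i ⟨i.1 - 1, by omega⟩ ?_ he.symm
        intro h
        have := congrArg Fin.val h
        simp only at this
        omega

end H60T
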