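import Pool.Agent.Lib.H60T.Defs

/-! # H60T, chunk D1 (M): contraction

PROOF of `contract`.  Let `a, a'` be the scalars for `T` (`‖a‖ = ‖a'‖ = T^k`), `L = rk1 w f`, `y ∈ PP f δ`.
`X' T y = a' f(y) w + e₁`, `‖e₁‖ ≤ C T^{k-1} ‖y‖`.  `M (X' T y) = a' f(y) M w + M e₁`.
`X T (M (X' T y)) = a f(M (X' T y)) w + e₂`, `‖e₂‖ ≤ C T^{k-1} ‖M (X' T y)‖ ≤ C T^{k-1} ‖M‖ (T^k ‖f‖ ‖w‖ + C T^{k-1}) ‖y‖`.
Put `α = a f(M (X' T y)) = a (a' f(y) f(M w) + f(M e₁))`.  Then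
`‖α‖ ≥ T^k (T^k δ ‖y‖ c ‖M‖ - ‖f‖ ‖M‖ C T^{k-1} ‖y‖) = T^{2k-1} ‖M‖ ‖y‖ (T δ c - C ‖f‖)` and
`‖e₂‖ ≤ T^{2k-1} ‖M‖ ‖y‖ C (‖f‖ ‖w‖ + C)` (as `T ≥ 1`, `T^{2k-2} ≤ T^{2k-1}`; write `k = k' + 1`).
Choose `T0 ≥ 1` with `T0 δ c - C ‖f‖ > 0` and `C (‖f‖ ‖w‖ + C) ≤ η (T0 δ c - C ‖f‖)`.
(`C ≥ 0` follows from the hypothesis at `T = 1`.)  `y ≠ 0` by definition of `PP`. -/

namespace H60T

theorem contract {W : Type*} [NormedAddCommGroup W] [NormedSpace ℂ W] (w : W) (f : W →L[ℂ] ℂ)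
    {k : ℕ} (hk : 1 ≤ k) (X X' : ℝ → W →L[ℂ] W) {C : ℝ}
    (hX : ∀ T : ℝ, 1 ≤ T → ∃ a : ℂ, ‖a‖ = T ^ k ∧ ‖X T - a • rk1 w f‖ ≤ C * T ^ (k - 1))
    (hX' : ∀ T : ℝ, 1 ≤ T → ∃ a : ℂ, ‖a‖ = T ^ k ∧ ‖X' T - a • rk1 w f‖ ≤ C * T ^ (k - 1))
    {c δ η : ℝ} (hc : 0 < c) (hδ : 0 < δ) (hη : 0 < η) :
    ∃ T0 : ℝ, ∀ T : ℝ, T0 ≤ T → ∀ M : W →L[ℂ] W, 0 < ‖M‖ → c * ‖M‖ ≤ ‖f (M w)‖ →
      ∀ y ∈ PP f δ, (X T) (M (X' T y)) ∈ AA w η := by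
  have hC : 0 ≤ C := by
    obtain ⟨a, _, h2⟩ := hX 1 le_rfl
    have := norm_nonneg (X 1 - a • rk1 w f)
    rw [one_pow, mul_one] at h2
    exact this.trans h2
  set D : ℝ := C * (‖f‖ * ‖w‖ + C) with hD
  have hD0 : 0 ≤ D := by positivity
  refine ⟨max 1 ((C * ‖f‖ + 1 + D / η) / (δ * c)), ?_⟩
  intro T hT M hM hfM y hy
  have hT1 : 1 ≤ T := (le_max_left _ _).trans hT
  have hT0 : 0 < T := by linarith
  have hT2 : C * ‖f‖ + 1 + D / η ≤ T * (δ * c) := by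
    have := (le_max_right _ _).trans hT
    rwa [div_le_iff₀ (by positivity)] at this
  obtain ⟨a, ha, hXa⟩ := hX T hT1
  obtain ⟨a', ha', hXa'⟩ := hX' T hT1
  obtain ⟨hy0, hyf⟩ := hy
  have hyn : 0 < ‖y‖ := norm_pos_iff.2 hy0
  obtain ⟨k', rfl⟩ : ∃ k', k = k' + 1 := ⟨k - 1, by omega⟩
  rw [Nat.add_sub_cancel] at hXa hXa'
  set P : ℝ := T ^ k' with hP
  have hP0 : 0 < P := by positivity
  have hTP : T ^ (k' + 1) = T * P := by rw [pow_succ, mul_comm]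
  rw [hTP] at ha ha'
  set z : W := X' T y with hz
  set e1 : W := z - (a' * f y) • w with he1
  have hn1 : ‖e1‖ ≤ C * P * ‖y‖ := by
    have h : e1 = (X' T - a' • rk1 w f) y := by
      simp only [he1, hz, rk1, ContinuousLinearMap.sub_apply, ContinuousLinearMap.smul_apply,
        ContinuousLinearMap.smulRight_apply, mul_smul]
    rw [h]
    refine (ContinuousLinearMap.le_opNorm _ _).trans ?_
    exact mul_le_mul_of_nonneg_right hXa' hyn.le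
  have hze : z = (a' * f y) • w + e1 := by rw [he1]; abel
  have hzn : ‖z‖ ≤ T * P * (‖f‖ * ‖w‖ + C) * ‖y‖ := by
    rw [hze]
    refine (norm_add_le _ _).trans ?_
    rw [norm_smul, norm_mul, ha']
    have h1 : ‖f y‖ ≤ ‖f‖ * ‖y‖ := f.le_opNorm y
    have h2 : T * P * ‖f y‖ * ‖w‖ ≤ T * P * (‖f‖ * ‖y‖) * ‖w‖ := by gcongr
    have h3 : C * P * ‖y‖ ≤ T * (C * P * ‖y‖) := by
      have : 0 ≤ C * P * ‖y‖ := by positivity
      nlinarith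
    nlinarith
  set u : W := M z with hu
  have hun : ‖u‖ ≤ ‖M‖ * (T * P * (‖f‖ * ‖w‖ + C) * ‖y‖) :=
    (M.le_opNorm z).trans (mul_le_mul_of_nonneg_left hzn hM.le)
  have hfu : f u = a' * f y * f (M w) + f (M e1) := by
    rw [hu]
    conv_lhs => rw [hze]
    rw [map_add, map_smul, map_add, map_smul, smul_eq_mul]
  have hfe : ‖f (M e1)‖ ≤ ‖f‖ * (‖M‖ * (C * P * ‖y‖)) := by
    refine (f.le_opNorm _).trans ?_
    refine mul_le_mul_of_nonneg_left ?_ (norm_nonneg _)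
    exact (M.le_opNorm _).trans (mul_le_mul_of_nonneg_left hn1 hM.le)
  have hfm : T * P * (δ * ‖y‖) * (c * ‖M‖) ≤ ‖a' * f y * f (M w)‖ := by
    rw [norm_mul, norm_mul, ha']
    gcongr
  have hfun : T * P * (δ * ‖y‖) * (c * ‖M‖) - ‖f‖ * (‖M‖ * (C * P * ‖y‖)) ≤ ‖f u‖ := by
    rw [hfu]
    have h1 : ‖a' * f y * f (M w)‖ ≤ ‖a' * f y * f (M w) + f (M e1)‖ + ‖f (M e1)‖ := by
      have := norm_sub_le (a' * f y * f (M w) + f (M e1)) (f (M e1))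
      rwa [add_sub_cancel_right] at this
    linarith
  set Q : ℝ := T * P * P * ‖M‖ * ‖y‖ with hQ
  have hQ0 : 0 < Q := by positivity
  have hα : Q * (T * (δ * c) - C * ‖f‖) ≤ ‖a * f u‖ := by
    rw [norm_mul, ha]
    have : Q * (T * (δ * c) - C * ‖f‖) =
        T * P * (T * P * (δ * ‖y‖) * (c * ‖M‖) - ‖f‖ * (‖M‖ * (C * P * ‖y‖))) := by
      rw [hQ]; ring
    rw [this]
    exact mul_le_mul_of_nonneg_left hfun (by positivity)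
  have hgap : 1 + D / η ≤ T * (δ * c) - C * ‖f‖ := by linarith
  have hDη : D ≤ η * (T * (δ * c) - C * ‖f‖) := by
    have h1 : η * (1 + D / η) ≤ η * (T * (δ * c) - C * ‖f‖) :=
      mul_le_mul_of_nonneg_left hgap hη.le
    have h2 : η * (1 + D / η) = η + D := by
      rw [mul_add, mul_one, mul_div_cancel₀ _ hη.ne']
    linarith
  have hgap0 : 0 < T * (δ * c) - C * ‖f‖ := by
    have : 0 ≤ D / η := by positivity
    linarith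
  refine ⟨a * f u, ?_, ?_⟩
  · rw [← norm_pos_iff]
    exact lt_of_lt_of_le (by positivity) hα
  · have h1 : (X T) u - (a * f u) • w = (X T - a • rk1 w f) u := by
      simp only [rk1, ContinuousLinearMap.sub_apply, ContinuousLinearMap.smul_apply,
        ContinuousLinearMap.smulRight_apply, mul_smul]
    rw [h1]
    refine (ContinuousLinearMap.le_opNorm _ _).trans ?_
    have h2 : ‖X T - a • rk1 w f‖ * ‖u‖ ≤
        C * P * (‖M‖ * (T * P * (‖f‖ * ‖w‖ + C) * ‖y‖)) :=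
      mul_le_mul hXa hun (norm_nonneg _) (by positivity)
    have h3 : C * P * (‖M‖ * (T * P * (‖f‖ * ‖w‖ + C) * ‖y‖)) = Q * D := by
      rw [hQ, hD]; ring
    rw [h3] at h2
    refine h2.trans ?_
    calc Q * D ≤ Q * (η * (T * (δ * c) - C * ‖f‖)) := mul_le_mul_of_nonneg_left hDη hQ0.le
      _ = η * (Q * (T * (δ * c) - C * ‖f‖)) := by ring
      _ ≤ η * ‖a * f u‖ := mul_le_mul_of_nonneg_left hα hη.le

end H60T
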