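import Pool.Agent.Lib.H60T.Defs

/-! # H60T, chunk D2 (M): four elementary facts on cones

All in a complex normed space.  `AA w η = {y | ∃ α ≠ 0, ‖y - α w‖ ≤ η ‖α‖}`, `PP f δ = {y ≠ 0 | δ ‖y‖ ≤ ‖f y‖}`.

`old_mem`: `ε` with `ε (‖w'‖ + η') < ‖fi w'‖ - η' ‖fi‖`.  Let `y = α w' + r`, `‖r‖ ≤ η' ‖α‖`.  Then
`‖fi y‖ ≥ ‖α‖ (‖fi w'‖ - ‖fi‖ η')`, `‖y‖ ≤ ‖α‖ (‖w'‖ + η')`, `‖f y - s fi y‖ ≤ ε ‖s‖ ‖y‖`, so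
`‖f y‖ ≥ ‖s‖ ‖α‖ γ` with `γ = ‖fi w'‖ - ‖fi‖ η' - ε (‖w'‖ + η') > 0`; hence `y ≠ 0`, and `δ0 = ‖s‖ γ / (‖w'‖ + η')`
works (`0 < ‖w'‖ + η'`).
`new_mem`: let `h0 = ‖f' wi‖ - δ' ‖wi‖ > 0` and `ε` with `2 ε (‖f'‖ + δ') < h0`.  For `y = α w + r`, `‖r‖ ≤ η ‖α‖ ≤ ε ‖s‖ ‖α‖`
we get `y = α s wi + e`, `‖e‖ ≤ 2 ε ‖s‖ ‖α‖`, so `‖f' y‖ - δ' ‖y‖ ≥ ‖α s‖ (‖f' wi‖ - 2 ε ‖f'‖ - δ' ‖wi‖ - 2 ε δ') > 0`.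
`y ≠ 0` since otherwise this would read `0 > 0`.
`base_P`: `ε` with `ε ‖w0‖ < ‖fi w0‖`; `‖f w0‖ ≥ ‖s‖ (‖fi w0‖ - ε ‖w0‖) > 0`; `w0 ≠ 0` as `fi w0 ≠ 0`;
`δ0 = ‖s‖ (‖fi w0‖ - ε ‖w0‖) / ‖w0‖`.
`base_A`: if `‖w0 - α w‖ ≤ η ‖α‖` then `w0 = α s wi + e`, `‖e‖ ≤ 2 ε ‖s‖ ‖α‖` (as before).  Apply `fi`: `‖fi w0‖ ≤ 2 ε ‖s α‖ ‖fi‖`.
Norms: `‖s α‖ (‖wi‖ - 2 ε) ≤ ‖w0‖`.  With `2 ε ≤ ‖wi‖ / 2`: `‖s α‖ ≤ 2 ‖w0‖ / ‖wi‖`, so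
`‖fi w0‖ ≤ 4 ε ‖fi‖ ‖w0‖ / ‖wi‖`; contradiction when `ε` is small. -/

namespace H60T

variable {W : Type*} [NormedAddCommGroup W] [NormedSpace ℂ W]

theorem d2_e {w wi y : W} {s α : ℂ} {ε ε' η : ℝ} (hε : ε' ≤ ε) (hw : ‖w - s • wi‖ ≤ ε' * ‖s‖)
    (hη : η ≤ ε' * ‖s‖) (hy : ‖y - α • w‖ ≤ η * ‖α‖) :
    ‖y - (α * s) • wi‖ ≤ 2 * ε * (‖α‖ * ‖s‖) := by
  have e : y - (α * s) • wi = (y - α • w) + α • (w - s • wi) := by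
    rw [smul_sub, smul_smul]
    abel
  have h1 : ε' * ‖s‖ ≤ ε * ‖s‖ := mul_le_mul_of_nonneg_right hε (norm_nonneg _)
  have h2 : ‖y - α • w‖ ≤ ε * ‖s‖ * ‖α‖ :=
    hy.trans (mul_le_mul_of_nonneg_right (hη.trans h1) (norm_nonneg _))
  have h3 : ‖α • (w - s • wi)‖ ≤ ‖α‖ * (ε * ‖s‖) := by
    rw [norm_smul]
    exact mul_le_mul_of_nonneg_left (hw.trans h1) (norm_nonneg _)
  rw [e]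
  refine (norm_add_le _ _).trans ?_
  linarith

theorem d2_f {f fi : W →L[ℂ] ℂ} {s : ℂ} {ε ε' : ℝ} (hε : ε' ≤ ε) (hf : ‖f - s • fi‖ ≤ ε' * ‖s‖)
    (y : W) : ‖s‖ * ‖fi y‖ - ε * ‖s‖ * ‖y‖ ≤ ‖f y‖ := by
  have h1 : ‖f - s • fi‖ ≤ ε * ‖s‖ := hf.trans (mul_le_mul_of_nonneg_right hε (norm_nonneg _))
  have h2 : ‖(f - s • fi) y‖ ≤ ε * ‖s‖ * ‖y‖ :=
    ((f - s • fi).le_opNorm y).trans (mul_le_mul_of_nonneg_right h1 (norm_nonneg _))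
  have h3 : s * fi y = f y - (f - s • fi) y := by
    simp
  have h4 : ‖s‖ * ‖fi y‖ ≤ ‖f y‖ + ‖(f - s • fi) y‖ := by
    rw [← norm_mul, h3]
    exact norm_sub_le _ _
  linarith

theorem old_mem (w' : W) (fi : W →L[ℂ] ℂ) {η' : ℝ} (hη' : 0 < η') (h : η' * ‖fi‖ < ‖fi w'‖) :
    ∃ ε : ℝ, 0 < ε ∧ ∀ ε' ≤ ε, ∀ (f : W →L[ℂ] ℂ) (s : ℂ), s ≠ 0 → ‖f - s • fi‖ ≤ ε' * ‖s‖ →
      ∃ δ0 : ℝ, 0 < δ0 ∧ ∀ δ ≤ δ0, AA w' η' ⊆ PP f δ := by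
  set D := ‖w'‖ + η' with hD
  have hDpos : 0 < D := by positivity
  set γ := ‖fi w'‖ - η' * ‖fi‖ with hγ
  have hγpos : 0 < γ := by linarith
  refine ⟨γ / (2 * D), by positivity, ?_⟩
  intro ε' hε' f s hs hf
  have hs' : 0 < ‖s‖ := norm_pos_iff.2 hs
  refine ⟨‖s‖ * (γ / 2) / D, by positivity, ?_⟩
  intro δ hδ y hy
  obtain ⟨α, hα, hy⟩ := hy
  have hα' : 0 < ‖α‖ := norm_pos_iff.2 hα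
  have h1 : ‖y‖ ≤ ‖α‖ * D := by
    have e : y = (y - α • w') + α • w' := by abel
    have h2 := norm_add_le (y - α • w') (α • w')
    rw [← e, norm_smul] at h2
    rw [hD]
    linarith
  have h2 : ‖α‖ * γ ≤ ‖fi y‖ := by
    have e : α * fi w' = fi y - fi (y - α • w') := by
      simp
    have h3 : ‖α‖ * ‖fi w'‖ ≤ ‖fi y‖ + ‖fi (y - α • w')‖ := by
      rw [← norm_mul, e]
      exact norm_sub_le _ _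
    have h4 : ‖fi (y - α • w')‖ ≤ ‖fi‖ * (η' * ‖α‖) :=
      (fi.le_opNorm _).trans (mul_le_mul_of_nonneg_left hy (norm_nonneg _))
    rw [hγ]
    linarith
  have h3 := d2_f hε' hf y
  have h4 : γ / (2 * D) * ‖s‖ * ‖y‖ ≤ ‖s‖ * (‖α‖ * (γ / 2)) := by
    calc γ / (2 * D) * ‖s‖ * ‖y‖ ≤ γ / (2 * D) * ‖s‖ * (‖α‖ * D) :=
          mul_le_mul_of_nonneg_left h1 (by positivity)
      _ = ‖s‖ * (‖α‖ * (γ / 2)) := by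
          field_simp
  have h5 : ‖s‖ * (‖α‖ * γ) ≤ ‖s‖ * ‖fi y‖ := mul_le_mul_of_nonneg_left h2 hs'.le
  have h6 : ‖s‖ * (‖α‖ * (γ / 2)) ≤ ‖f y‖ := by
    have e : ‖s‖ * (‖α‖ * γ) = 2 * (‖s‖ * (‖α‖ * (γ / 2))) := by ring
    linarith
  have h7 : 0 < ‖s‖ * (‖α‖ * (γ / 2)) := by positivity
  refine ⟨?_, ?_⟩
  · intro hy0
    rw [hy0, map_zero, norm_zero] at h6
    linarith
  · calc δ * ‖y‖ ≤ ‖s‖ * (γ / 2) / D * ‖y‖ := mul_le_mul_of_nonneg_right hδ (norm_nonneg _)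
      _ ≤ ‖s‖ * (γ / 2) / D * (‖α‖ * D) := mul_le_mul_of_nonneg_left h1 (by positivity)
      _ = ‖s‖ * (‖α‖ * (γ / 2)) := by
          field_simp
      _ ≤ ‖f y‖ := h6

theorem new_mem (f' : W →L[ℂ] ℂ) (wi : W) {δ' : ℝ} (hδ' : 0 < δ') (h : δ' * ‖wi‖ < ‖f' wi‖) :
    ∃ ε : ℝ, 0 < ε ∧ ∀ ε' ≤ ε, ∀ (w : W) (s : ℂ), s ≠ 0 → ‖w - s • wi‖ ≤ ε' * ‖s‖ →
      ∀ η ≤ ε' * ‖s‖, AA w η ⊆ PP f' δ' := by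
  set h0 := ‖f' wi‖ - δ' * ‖wi‖ with hh0
  have h0pos : 0 < h0 := by linarith
  set E := ‖f'‖ + δ' with hE
  have hEpos : 0 < E := by positivity
  refine ⟨h0 / (4 * E), by positivity, ?_⟩
  intro ε' hε' w s hs hw η hη y hy
  obtain ⟨α, hα, hy⟩ := hy
  have hα' : 0 < ‖α‖ := norm_pos_iff.2 hα
  have hs' : 0 < ‖s‖ := norm_pos_iff.2 hs
  have h1 := d2_e hε' hw hη hy
  have e : 2 * (h0 / (4 * E)) * (‖α‖ * ‖s‖) * E = ‖α‖ * ‖s‖ * h0 / 2 := by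
    field_simp
    ring
  have h2 : E * ‖y - (α * s) • wi‖ ≤ ‖α‖ * ‖s‖ * h0 / 2 := by
    rw [← e, mul_comm]
    exact mul_le_mul_of_nonneg_right h1 hEpos.le
  have h3 : ‖α‖ * ‖s‖ * ‖f' wi‖ ≤ ‖f' y‖ + ‖f'‖ * ‖y - (α * s) • wi‖ := by
    have e2 : (α * s) * f' wi = f' y - f' (y - (α * s) • wi) := by
      simp
    rw [← norm_mul, ← norm_mul, e2]
    exact (norm_sub_le _ _).trans (add_le_add le_rfl (f'.le_opNorm _))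
  have h4 : ‖y‖ ≤ ‖α‖ * ‖s‖ * ‖wi‖ + ‖y - (α * s) • wi‖ := by
    have e3 : y = (α * s) • wi + (y - (α * s) • wi) := by abel
    have h5 := norm_add_le ((α * s) • wi) (y - (α * s) • wi)
    rw [← e3, norm_smul, norm_mul] at h5
    exact h5
  have h5 : 0 < ‖α‖ * ‖s‖ * h0 / 2 := by positivity
  have h6 : δ' * ‖y‖ ≤ δ' * (‖α‖ * ‖s‖ * ‖wi‖ + ‖y - (α * s) • wi‖) :=
    mul_le_mul_of_nonneg_left h4 hδ'.le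
  have h7 : δ' * ‖y‖ + ‖α‖ * ‖s‖ * h0 / 2 ≤ ‖f' y‖ := by
    have e4 : ‖α‖ * ‖s‖ * h0 = ‖α‖ * ‖s‖ * ‖f' wi‖ - δ' * (‖α‖ * ‖s‖ * ‖wi‖) := by
      rw [hh0]
      ring
    have e5 : E * ‖y - (α * s) • wi‖ = ‖f'‖ * ‖y - (α * s) • wi‖ + δ' * ‖y - (α * s) • wi‖ := by
      rw [hE]
      ring
    linarith
  refine ⟨?_, by linarith⟩
  intro hy0
  rw [hy0, map_zero, norm_zero, norm_zero] at h7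
  linarith

theorem base_P (w0 : W) (fi : W →L[ℂ] ℂ) (h : fi w0 ≠ 0) :
    ∃ ε : ℝ, 0 < ε ∧ ∀ ε' ≤ ε, ∀ (f : W →L[ℂ] ℂ) (s : ℂ), s ≠ 0 → ‖f - s • fi‖ ≤ ε' * ‖s‖ →
      ∃ δ0 : ℝ, 0 < δ0 ∧ ∀ δ ≤ δ0, w0 ∈ PP f δ := by
  have ha : 0 < ‖fi w0‖ := norm_pos_iff.2 h
  have hw0 : w0 ≠ 0 := by
    intro h0
    rw [h0, map_zero] at h
    exact h rfl
  have hb : 0 < ‖w0‖ := norm_pos_iff.2 hw0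
  refine ⟨‖fi w0‖ / (2 * ‖w0‖), by positivity, ?_⟩
  intro ε' hε' f s hs hf
  have hs' : 0 < ‖s‖ := norm_pos_iff.2 hs
  refine ⟨‖s‖ * ‖fi w0‖ / (2 * ‖w0‖), by positivity, ?_⟩
  intro δ hδ
  refine ⟨hw0, ?_⟩
  have h1 := d2_f hε' hf w0
  have e1 : ‖fi w0‖ / (2 * ‖w0‖) * ‖s‖ * ‖w0‖ = ‖s‖ * ‖fi w0‖ / 2 := by
    field_simp
  have e2 : ‖s‖ * ‖fi w0‖ / (2 * ‖w0‖) * ‖w0‖ = ‖s‖ * ‖fi w0‖ / 2 := by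
    field_simp
  have h2 : δ * ‖w0‖ ≤ ‖s‖ * ‖fi w0‖ / (2 * ‖w0‖) * ‖w0‖ :=
    mul_le_mul_of_nonneg_right hδ (norm_nonneg _)
  rw [e1] at h1
  rw [e2] at h2
  linarith

theorem base_A (w0 wi : W) (fi : W →L[ℂ] ℂ) (h1 : fi w0 ≠ 0) (h2 : fi wi = 0) (h3 : wi ≠ 0) :
    ∃ ε : ℝ, 0 < ε ∧ ∀ ε' ≤ ε, ∀ (w : W) (s : ℂ), s ≠ 0 → ‖w - s • wi‖ ≤ ε' * ‖s‖ →
      ∀ η ≤ ε' * ‖s‖, w0 ∉ AA w η := by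
  have ha : 0 < ‖fi w0‖ := norm_pos_iff.2 h1
  have hc : 0 < ‖wi‖ := norm_pos_iff.2 h3
  set Q := 8 * (‖fi‖ * ‖w0‖ + 1) with hQ
  have hQpos : 0 < Q := by positivity
  refine ⟨min (‖wi‖ / 4) (‖fi w0‖ * ‖wi‖ / Q), by positivity, ?_⟩
  intro ε' hε' w s hs hw η hη hmem
  obtain ⟨α, hα, hy⟩ := hmem
  have hα' : 0 < ‖α‖ := norm_pos_iff.2 hα
  have hs' : 0 < ‖s‖ := norm_pos_iff.2 hs
  have hσ : 0 < ‖α‖ * ‖s‖ := by positivity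
  have h4 := d2_e (hε'.trans (min_le_left _ _)) hw hη hy
  have h5 := d2_e (hε'.trans (min_le_right _ _)) hw hη hy
  have e1 : fi w0 = fi (w0 - (α * s) • wi) := by
    rw [map_sub, map_smul, h2, smul_zero, sub_zero]
  have h6 : ‖fi w0‖ ≤ ‖fi‖ * (2 * (‖fi w0‖ * ‖wi‖ / Q) * (‖α‖ * ‖s‖)) := by
    conv_lhs => rw [e1]
    exact (fi.le_opNorm _).trans (mul_le_mul_of_nonneg_left h5 (norm_nonneg _))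
  have h7 : ‖α‖ * ‖s‖ * ‖wi‖ ≤ ‖w0‖ + ‖w0 - (α * s) • wi‖ := by
    have e3 : (α * s) • wi = w0 - (w0 - (α * s) • wi) := by abel
    rw [← norm_mul, ← norm_smul, e3]
    refine (norm_sub_le _ _).trans (le_of_eq ?_)
    rw [← e3]
  have h8 : ‖α‖ * ‖s‖ * ‖wi‖ ≤ 2 * ‖w0‖ := by
    have e4 : 2 * (‖wi‖ / 4) * (‖α‖ * ‖s‖) = ‖α‖ * ‖s‖ * ‖wi‖ / 2 := by ring
    rw [e4] at h4
    linarith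
  have h9 : ‖fi w0‖ * Q ≤ 4 * (‖fi‖ * ‖w0‖) * ‖fi w0‖ := by
    calc ‖fi w0‖ * Q ≤ ‖fi‖ * (2 * (‖fi w0‖ * ‖wi‖ / Q) * (‖α‖ * ‖s‖)) * Q :=
          mul_le_mul_of_nonneg_right h6 hQpos.le
      _ = 2 * (‖fi‖ * ‖fi w0‖) * (‖α‖ * ‖s‖ * ‖wi‖) := by
          field_simp
      _ ≤ 2 * (‖fi‖ * ‖fi w0‖) * (2 * ‖w0‖) := mul_le_mul_of_nonneg_left h8 (by positivity)
      _ = 4 * (‖fi‖ * ‖w0‖) * ‖fi w0‖ := by ring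
  have h10 : 0 ≤ ‖fi‖ * ‖w0‖ := by positivity
  rw [hQ] at h9
  nlinarith

end H60T
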