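import Pool.Agent.Lib.H60T.D2

/-! # H60T, chunk D3 (M): one more datum can be added (abstract form)

PROOF.  For every `d' ∈ L` take the `ε` of `old_mem` (for `d'.w`, `fi`, `d'.η`) and of `new_mem` (for `d'.f`, `wi`, `d'.δ`);
together with the two `ε` of `base_P` and `base_A` these are finitely many positive numbers (induction on `L`);
let `ε` be smaller than all of them.  Given `w, f, s, s'`: `η = min (ε ‖s‖) (‖fi w‖ / (2 (‖fi‖ + 1)))`; then `0 < η`, `η ‖fi‖ < ‖fi w‖`,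
`η ≤ ε ‖s‖`.  `δ` is the minimum of the finitely many `δ0` (of `old_mem` for all `d' ∈ L`, of `base_P`) and of
`‖f wi‖ / (2 (‖wi‖ + 1))`.  (The hypotheses of the four lemmas allow any `ε' ≤ ε`.) -/

namespace H60T

variable {W : Type*} [NormedAddCommGroup W] [NormedSpace ℂ W]

theorem d3_old {G : Type*} (wi : W) (fi : W →L[ℂ] ℂ) (L : List (Dat W G))
    (hL : ∀ d ∈ L, Inv wi fi d) :
    ∃ ε : ℝ, 0 < ε ∧ ∀ ε' ≤ ε, ∀ (f : W →L[ℂ] ℂ) (s : ℂ), s ≠ 0 → ‖f - s • fi‖ ≤ ε' * ‖s‖ →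
      ∃ δ0 : ℝ, 0 < δ0 ∧ ∀ δ ≤ δ0, ∀ d ∈ L, AA d.w d.η ⊆ PP f δ := by
  induction L with
  | nil => exact ⟨1, one_pos, fun _ _ _ _ _ _ => ⟨1, one_pos, fun _ _ d hd => by simp at hd⟩⟩
  | cons d L ih =>
    obtain ⟨ε1, h1, h2⟩ := ih (fun d hd => hL d (List.mem_cons_of_mem _ hd))
    obtain ⟨_, _, i3, i4⟩ := hL d List.mem_cons_self
    obtain ⟨ε2, h3, h4⟩ := old_mem d.w fi i3 i4
    refine ⟨min ε1 ε2, lt_min h1 h3, ?_⟩
    intro ε' hε' f s hs hf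
    obtain ⟨δ1, k1, k2⟩ := h2 ε' (hε'.trans (min_le_left _ _)) f s hs hf
    obtain ⟨δ2, k3, k4⟩ := h4 ε' (hε'.trans (min_le_right _ _)) f s hs hf
    refine ⟨min δ1 δ2, lt_min k1 k3, ?_⟩
    intro δ hδ d' hd'
    rcases List.mem_cons.mp hd' with e | hd'
    · rw [e]
      exact k4 δ (hδ.trans (min_le_right _ _))
    · exact k2 δ (hδ.trans (min_le_left _ _)) d' hd'

theorem d3_new {G : Type*} (wi : W) (fi : W →L[ℂ] ℂ) (L : List (Dat W G))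
    (hL : ∀ d ∈ L, Inv wi fi d) :
    ∃ ε : ℝ, 0 < ε ∧ ∀ ε' ≤ ε, ∀ (w : W) (s : ℂ), s ≠ 0 → ‖w - s • wi‖ ≤ ε' * ‖s‖ →
      ∀ η ≤ ε' * ‖s‖, ∀ d ∈ L, AA w η ⊆ PP d.f d.δ := by
  induction L with
  | nil => exact ⟨1, one_pos, fun _ _ _ _ _ _ _ _ d hd => by simp at hd⟩
  | cons d L ih =>
    obtain ⟨ε1, h1, h2⟩ := ih (fun d hd => hL d (List.mem_cons_of_mem _ hd))
    obtain ⟨i1, i2, _, _⟩ := hL d List.mem_cons_self
    obtain ⟨ε2, h3, h4⟩ := new_mem d.f wi i1 i2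
    refine ⟨min ε1 ε2, lt_min h1 h3, ?_⟩
    intro ε' hε' w s hs hw η hη d' hd'
    rcases List.mem_cons.mp hd' with e | hd'
    · rw [e]
      exact h4 ε' (hε'.trans (min_le_right _ _)) w s hs hw η hη
    · exact h2 ε' (hε'.trans (min_le_left _ _)) w s hs hw η hη d' hd'

theorem step_abs {G : Type*} (w0 wi : W) (fi : W →L[ℂ] ℂ) (h1 : fi w0 ≠ 0) (h2 : fi wi = 0)
    (h3 : wi ≠ 0) (L : List (Dat W G)) (hL : ∀ d ∈ L, Inv wi fi d) :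
    ∃ ε : ℝ, 0 < ε ∧ ∀ (w : W) (f : W →L[ℂ] ℂ) (s s' : ℂ), s ≠ 0 → s' ≠ 0 →
      ‖w - s • wi‖ ≤ ε * ‖s‖ → ‖f - s' • fi‖ ≤ ε * ‖s'‖ → f wi ≠ 0 → fi w ≠ 0 →
      ∃ δ η : ℝ, 0 < δ ∧ 0 < η ∧ w0 ∈ PP f δ ∧ w0 ∉ AA w η ∧ δ * ‖wi‖ < ‖f wi‖ ∧
        η * ‖fi‖ < ‖fi w‖ ∧
        ∀ d' ∈ L, AA d'.w d'.η ⊆ PP f δ ∧ AA w η ⊆ PP d'.f d'.δ := by
  obtain ⟨ε1, a1, a2⟩ := d3_old wi fi L hL
  obtain ⟨ε2, b1, b2⟩ := d3_new wi fi L hL
  obtain ⟨ε3, c1, c2⟩ := base_P w0 fi h1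
  obtain ⟨ε4, d1, d2⟩ := base_A w0 wi fi h1 h2 h3
  refine ⟨min (min ε1 ε2) (min ε3 ε4), lt_min (lt_min a1 b1) (lt_min c1 d1), ?_⟩
  set ε := min (min ε1 ε2) (min ε3 ε4) with hε
  have hε0 : 0 < ε := lt_min (lt_min a1 b1) (lt_min c1 d1)
  have e1 : ε ≤ ε1 := (min_le_left _ _).trans (min_le_left _ _)
  have e2 : ε ≤ ε2 := (min_le_left _ _).trans (min_le_right _ _)
  have e3 : ε ≤ ε3 := (min_le_right _ _).trans (min_le_left _ _)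
  have e4 : ε ≤ ε4 := (min_le_right _ _).trans (min_le_right _ _)
  intro w f s s' hs hs' hw hf hfw hfiw
  obtain ⟨δ1, p1, p2⟩ := a2 ε e1 f s' hs' hf
  obtain ⟨δ2, q1, q2⟩ := c2 ε e3 f s' hs' hf
  have hns : 0 < ‖s‖ := norm_pos_iff.mpr hs
  have hA : 0 < ‖fi w‖ / (2 * (‖fi‖ + 1)) := by
    have := norm_pos_iff.mpr hfiw
    positivity
  have hB : 0 < ‖f wi‖ / (2 * (‖wi‖ + 1)) := by
    have := norm_pos_iff.mpr hfw
    positivity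
  have key : ∀ u v : ℝ, 0 < u → 0 ≤ v → u / (2 * (v + 1)) * v < u := by
    intro u v hu hv
    rw [div_mul_eq_mul_div, div_lt_iff₀ (by positivity)]
    nlinarith
  refine ⟨min (min δ1 δ2) (‖f wi‖ / (2 * (‖wi‖ + 1))), min (ε * ‖s‖) (‖fi w‖ / (2 * (‖fi‖ + 1))),
    lt_min (lt_min p1 q1) hB, lt_min (by positivity) hA, ?_, ?_, ?_, ?_, ?_⟩
  · exact q2 _ ((min_le_left _ _).trans (min_le_right _ _))
  · exact d2 ε e4 w s hs hw _ (min_le_left _ _)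
  · refine lt_of_le_of_lt (mul_le_mul_of_nonneg_right (min_le_right _ _) (norm_nonneg _)) ?_
    exact key _ _ (norm_pos_iff.mpr hfw) (norm_nonneg _)
  · refine lt_of_le_of_lt (mul_le_mul_of_nonneg_right (min_le_right _ _) (norm_nonneg _)) ?_
    exact key _ _ (norm_pos_iff.mpr hfiw) (norm_nonneg _)
  · intro d' hd'
    exact ⟨p2 _ ((min_le_left _ _).trans (min_le_left _ _)) d' hd',
      b2 ε e2 w s hs hw _ (min_le_left _ _) d' hd'⟩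

end H60T
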