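import Pool.Agent.Lib.H60T.Defs

/-! # H60T, chunk D4 (M): ping-pong

PROOF (compare `H93I.pong`, file Lib/H93I/Pong.lean, which can be copied almost word for word).  Inductive predicate
`D4_Red h : Option ι → G → Prop` (reduced words with their first index): `Red none 1`; `Red (some i) (h i ^ m * u)` if
`m ≠ 0`, `Red o u`, `o ≠ some i`.
(1) `Red o s` implies `∃ o', Red o' (h i ^ e * s)`: if `e = 0` clear; if `o ≠ some i` step; if `s = h i ^ m * u` then
`h i ^ (e + m) * u`, either `e + m = 0` or step.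
(2) every `s` in the closure is reduced: `Subgroup.closure_induction_left`.
(3) `Red o u` implies: `ρ u w0 ∈ A i` if `o = some i`, and `ρ u w0 ∈ P j` for all `j` with `o ≠ some j` (induction on `Red`).
(4) if `ρ s w0 = w0` then `o = some i` is impossible by `h5`; so `s = 1`. -/

namespace H60T

/-- reduced words with their first index -/
inductive D4_Red {G ι : Type*} [Group G] (h : ι → G) : Option ι → G → Prop
  | base : D4_Red h none 1
  | step (o : Option ι) (u : G) (i : ι) (m : ℤ) (hm : m ≠ 0) (ho : o ≠ some i)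
      (hu : D4_Red h o u) : D4_Red h (some i) (h i ^ m * u)

theorem d4_pow {G ι : Type*} [Group G] (h : ι → G) {o : Option ι} {s : G} (i : ι) (e : ℤ)
    (hs : D4_Red h o s) : ∃ o', D4_Red h o' (h i ^ e * s) := by
  by_cases he : e = 0
  · subst he
    exact ⟨o, by simpa using hs⟩
  by_cases ho : o = some i
  · cases hs with
    | base => exact absurd ho (by simp)
    | step o1 u j m hm ho1 hu =>
      have hji : j = i := Option.some.inj ho
      subst hji
      rw [← mul_assoc, ← _root_.zpow_add]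
      by_cases hsc : e + m = 0
      · refine ⟨o1, ?_⟩
        rw [hsc, zpow_zero, one_mul]
        exact hu
      · exact ⟨some j, D4_Red.step o1 u j _ hsc ho1 hu⟩
  · exact ⟨some i, D4_Red.step o s i e he ho hs⟩

theorem d4_closure {G ι : Type*} [Group G] (h : ι → G) (s : G)
    (hs : s ∈ Subgroup.closure (Set.range h)) : ∃ o, D4_Red h o s := by
  induction hs using Subgroup.closure_induction_left with
  | one => exact ⟨none, D4_Red.base⟩
  | mul_left x hx y hy ih =>
    obtain ⟨o, ho⟩ := ih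
    obtain ⟨i, rfl⟩ := hx
    have := d4_pow h i 1 ho
    rwa [zpow_one] at this
  | inv_mul_cancel x hx y hy ih =>
    obtain ⟨o, ho⟩ := ih
    obtain ⟨i, rfl⟩ := hx
    have := d4_pow h i (-1) ho
    rwa [_root_.zpow_neg_one] at this

theorem d4_dyn {W : Type*} [NormedAddCommGroup W] [NormedSpace ℂ W] {G ι : Type*} [Group G]
    (ρ : G →* (W →L[ℂ] W)) (h : ι → G) (A P : ι → Set W) (w0 : W)
    (h1 : ∀ i, ∀ m : ℤ, m ≠ 0 → ∀ y ∈ P i, ρ (h i ^ m) y ∈ A i)
    (h2 : ∀ i j, i ≠ j → A j ⊆ P i) (h4 : ∀ i, w0 ∈ P i)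
    {o : Option ι} {u : G} (hu : D4_Red h o u) :
    (∀ i, o = some i → ρ u w0 ∈ A i) ∧ (∀ j, o ≠ some j → ρ u w0 ∈ P j) := by
  induction hu with
  | base =>
    refine ⟨fun i hi => absurd hi (by simp), fun j _ => ?_⟩
    rw [map_one]
    exact h4 j
  | step o u i m hm ho hu ih =>
    have key : ρ (h i ^ m * u) w0 ∈ A i := by
      rw [map_mul]
      exact h1 i m hm _ (ih.2 i ho)
    refine ⟨fun j hj => ?_, fun j hj => ?_⟩
    · have : i = j := Option.some.inj hj
      subst this
      exact key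
    · have hne : j ≠ i := fun hji => hj (by rw [hji])
      exact h2 j i hne key

theorem pong {W : Type*} [NormedAddCommGroup W] [NormedSpace ℂ W] {G ι : Type*} [Group G]
    (ρ : G →* (W →L[ℂ] W)) (h : ι → G) (A P : ι → Set W) (w0 : W)
    (h1 : ∀ i, ∀ m : ℤ, m ≠ 0 → ∀ y ∈ P i, ρ (h i ^ m) y ∈ A i)
    (h2 : ∀ i j, i ≠ j → A j ⊆ P i) (h4 : ∀ i, w0 ∈ P i) (h5 : ∀ i, w0 ∉ A i) (s : G)
    (hs : s ∈ Subgroup.closure (Set.range h)) (hw : ρ s w0 = w0) : s = 1 := by
  obtain ⟨o, ho⟩ := d4_closure h s hs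
  have hd := d4_dyn ρ h A P w0 h1 h2 h4 ho
  cases ho with
  | base => rfl
  | step o u i m hm ho hu =>
    exfalso
    have := hd.1 i rfl
    rw [hw] at this
    exact h5 i this

end H60T
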