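import Pool.Agent.Lib.H60T.Defs

/-! # H60T, chunk D5 (S): an infinite sequence of compatible data; infinite index

`exists_seq5`: copy of `H93I.exists_seq` (file Lib/H93I/Seq.lean): choose `next k L` for every list `L` of elements with `inv`;
`L 0 = []`, `L (k+1) = next k (L k) :: L k`, `f k = next k (L k)`.
`index_zero`: `Subgroup.exists_pow_mem_of_index_ne_zero` (if the index is finite some power `u ^ j`, `0 < j`, is in `H`). -/

namespace H60T

theorem exists_seq5 {α : Type*} (inv : α → Prop) (good : ℕ → α → Prop) (compat : α → α → Prop)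
    (h : ∀ (k : ℕ) (L : List α), (∀ a ∈ L, inv a) →
      ∃ a, good k a ∧ inv a ∧ ∀ a' ∈ L, compat a' a) :
    ∃ f : ℕ → α, (∀ k, good k (f k)) ∧ ∀ i j, i < j → compat (f i) (f j) := by
  classical
  choose nx h1 h2 h3 using h
  -- the sequence of lists, with the proof of the invariant
  let S : ℕ → {L : List α // ∀ a ∈ L, inv a} := fun k =>
    Nat.rec (motive := fun _ => {L : List α // ∀ a ∈ L, inv a}) ⟨[], by simp⟩
      (fun k L => ⟨nx k L.1 L.2 :: L.1, by
        intro a ha
        rcases List.mem_cons.mp ha with rfl | ha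
        · exact h2 k L.1 L.2
        · exact L.2 a ha⟩) k
  have hS : ∀ k, (S (k + 1)).1 = nx k (S k).1 (S k).2 :: (S k).1 := fun k => rfl
  have hmem : ∀ i j, i < j → nx i (S i).1 (S i).2 ∈ (S j).1 := by
    intro i j hij
    induction j with
    | zero => omega
    | succ j ih =>
      rw [hS]
      rcases Nat.lt_succ_iff_lt_or_eq.mp hij with hlt | rfl
      · exact List.mem_cons_of_mem _ (ih hlt)
      · exact List.mem_cons_self
  exact ⟨fun k => nx k (S k).1 (S k).2, fun k => h1 k _ _, fun i j hij => h3 j _ _ _ (hmem i j hij)⟩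

theorem index_zero {G : Type*} [Group G] (H : Subgroup G) (u : G)
    (hu : ∀ j : ℕ, 0 < j → u ^ j ∉ H) : H.index = 0 := by
  by_contra hne
  obtain ⟨j, hj, _, hmem⟩ := Subgroup.exists_pow_mem_of_index_ne_zero hne u
  exact hu j hj hmem

end H60T
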