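import Mathlib

/-!
# H60T (MP_5a327f_al): subgroups of infinite index of `SL_n(ℤ)` meeting many conjugacy classes

Definitions.  See PROOF.md.
-/

namespace H60T

open Matrix

/-- `SL_n(ℤ)` -/
abbrev SLZ (n : ℕ) := Matrix.SpecialLinearGroup (Fin n) ℤ

variable {n k : ℕ}

/-- the complex matrix of `g` -/
def cm (g : SLZ n) : Matrix (Fin n) (Fin n) ℂ :=
  (g : Matrix (Fin n) (Fin n) ℤ).map (fun a : ℤ => (a : ℂ))

/-- the complex eigenvalues of `g`, with multiplicity -/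
noncomputable def eigs (g : SLZ n) : Multiset ℂ := (cm g).charpoly.roots

/-- for some radius `ρ` exactly `k` eigenvalues (with multiplicity) have modulus `> ρ`, and
no eigenvalue has modulus `ρ` -/
def Gap (g : SLZ n) (k : ℕ) : Prop :=
  ∃ ρ : ℝ, Multiset.card ((eigs g).filter (fun z => ρ < ‖z‖)) = k ∧ ∀ z ∈ eigs g, ‖z‖ ≠ ρ

/-- the space of alternating `k`-forms on `ℂ^n` -/
abbrev Form (n k : ℕ) := (Fin n → ℂ) [⋀^Fin k]→L[ℂ] ℂ

/-- the continuous linear map of a matrix -/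
noncomputable def lin (M : Matrix (Fin n) (Fin n) ℂ) : (Fin n → ℂ) →L[ℂ] (Fin n → ℂ) :=
  LinearMap.toContinuousLinearMap M.mulVecLin

/-- pull back of forms: `op M ω (y_1, …, y_k) = ω (M y_1, …, M y_k)` -/
noncomputable def op (k : ℕ) (M : Matrix (Fin n) (Fin n) ℂ) : Form n k →L[ℂ] Form n k :=
  ContinuousAlternatingMap.compContinuousLinearMapCLM (lin M)

/-- the form `y ↦ det (φ_a (y_b))`, `φ_a` the columns of `Φ` -/
noncomputable def dform (Φ : Matrix (Fin n) (Fin k) ℂ) : Form n k :=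
  { ((Matrix.detRowAlternating (n := Fin k) (R := ℂ)).compLinearMap Φᵀ.mulVecLin) with
    cont := by
      change Continuous fun y : Fin k → Fin n → ℂ =>
        Matrix.det (fun b : Fin k => Φᵀ *ᵥ y b)
      refine Continuous.matrix_det ?_
      refine continuous_pi fun b => ?_
      exact (continuous_const.matrix_mulVec (continuous_apply b)) }

/-- evaluation at the columns of `V` -/
noncomputable def evl (V : Matrix (Fin n) (Fin k) ℂ) : Form n k →L[ℂ] ℂ :=
  ContinuousAlternatingMap.apply ℂ (Fin n → ℂ) ℂ (fun b : Fin k => V.col b)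

/-- the rank one operator `ω ↦ f ω • w` -/
noncomputable def rk1 {W : Type*} [NormedAddCommGroup W] [NormedSpace ℂ W] (w : W)
    (f : W →L[ℂ] ℂ) : W →L[ℂ] W := f.smulRight w

theorem lin_apply (M : Matrix (Fin n) (Fin n) ℂ) (v : Fin n → ℂ) : lin M v = M *ᵥ v := rfl

theorem op_apply (M : Matrix (Fin n) (Fin n) ℂ) (ω : Form n k) (y : Fin k → Fin n → ℂ) :
    op k M ω y = ω (fun b => M *ᵥ y b) := rfl

theorem dform_apply (Φ : Matrix (Fin n) (Fin k) ℂ) (y : Fin k → Fin n → ℂ) :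
    dform Φ y = Matrix.det (fun b : Fin k => Φᵀ *ᵥ y b) := rfl

theorem evl_apply (V : Matrix (Fin n) (Fin k) ℂ) (ω : Form n k) : evl V ω = ω (fun b => V.col b) := rfl

theorem rk1_apply {W : Type*} [NormedAddCommGroup W] [NormedSpace ℂ W] (w : W)
    (f : W →L[ℂ] ℂ) (x : W) : rk1 w f x = f x • w := rfl

theorem op_mul (M N : Matrix (Fin n) (Fin n) ℂ) : op k (M * N) = op k N * op k M := by
  ext ω y
  change ω (fun b => (M * N) *ᵥ y b) = ω (fun b => M *ᵥ (N *ᵥ y b))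
  simp_rw [Matrix.mulVec_mulVec]

theorem op_one : op k (1 : Matrix (Fin n) (Fin n) ℂ) = 1 := by
  ext ω y
  change ω (fun b => (1 : Matrix (Fin n) (Fin n) ℂ) *ᵥ y b) = ω y
  simp_rw [Matrix.one_mulVec]

theorem evl_dform (V Φ : Matrix (Fin n) (Fin k) ℂ) : evl V (dform Φ) = (Φᵀ * V).det := by
  rw [evl_apply, dform_apply, ← Matrix.det_transpose (Φᵀ * V)]
  congr 1

theorem evl_op_dform (V Φ : Matrix (Fin n) (Fin k) ℂ) (M : Matrix (Fin n) (Fin n) ℂ) :
    evl V (op k M (dform Φ)) = (Φᵀ * M * V).det := by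
  rw [Matrix.mul_assoc, evl_apply, op_apply, dform_apply, ← Matrix.det_transpose (Φᵀ * (M * V))]
  congr 1

instance : FiniteDimensional ℂ (Form n k) := by
  let F : Form n k →ₗ[ℂ] MultilinearMap ℂ (fun _ : Fin k => Fin n → ℂ) ℂ :=
    { toFun := fun ω => ω.toMultilinearMap
      map_add' := fun _ _ => rfl
      map_smul' := fun _ _ => rfl }
  refine Module.Finite.of_injective F ?_
  intro ω ω' h
  ext y
  exact congrArg (fun f : MultilinearMap ℂ (fun _ : Fin k => Fin n → ℂ) ℂ => f y) h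

instance : CompleteSpace (Form n k) := FiniteDimensional.complete ℂ _

/-! ### the representation -/

theorem cm_one : cm (1 : SLZ n) = 1 := by
  have h : cm (1 : SLZ n) = (Int.castRingHom ℂ).mapMatrix (1 : Matrix (Fin n) (Fin n) ℤ) := rfl
  rw [h, map_one]

theorem cm_mul (g h : SLZ n) : cm (g * h) = cm g * cm h := by
  have h1 : cm (g * h) = (Int.castRingHom ℂ).mapMatrix
      ((g : Matrix (Fin n) (Fin n) ℤ) * (h : Matrix (Fin n) (Fin n) ℤ)) := rfl
  rw [h1, map_mul]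
  rfl

theorem cm_pow (g : SLZ n) (j : ℕ) : cm (g ^ j) = cm g ^ j := by
  induction j with
  | zero => rw [pow_zero, pow_zero, cm_one]
  | succ j ih => rw [pow_succ, pow_succ, cm_mul, ih]

theorem cm_inv_mul (g : SLZ n) : cm g⁻¹ * cm g = 1 := by
  rw [← cm_mul, inv_mul_cancel, cm_one]

theorem cm_mul_inv (g : SLZ n) : cm g * cm g⁻¹ = 1 := by
  rw [← cm_mul, mul_inv_cancel, cm_one]

/-- the action of `SL_n(ℤ)` on forms, `rho g ω = ω ∘ g⁻¹` -/
noncomputable def rho (n k : ℕ) : SLZ n →* (Form n k →L[ℂ] Form n k) where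
  toFun g := op k (cm g⁻¹)
  map_one' := by rw [inv_one, cm_one, op_one]
  map_mul' g h := by rw [_root_.mul_inv_rev, cm_mul, op_mul]

theorem rho_apply (g : SLZ n) : rho n k g = op k (cm g⁻¹) := rfl

/-! ### attracting and repelling sets -/

section Dyn

variable {W : Type*} [NormedAddCommGroup W] [NormedSpace ℂ W]

/-- cone over the ball of radius `η` around `w` -/
def AA (w : W) (η : ℝ) : Set W := {y | ∃ α : ℂ, α ≠ 0 ∧ ‖y - α • w‖ ≤ η * ‖α‖}

/-- complement of a neighbourhood of the hyperplane `f = 0` -/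
def PP (f : W →L[ℂ] ℂ) (δ : ℝ) : Set W := {y | y ≠ 0 ∧ δ * ‖y‖ ≤ ‖f y‖}

/-- data attached to one element -/
structure Dat (W : Type*) [NormedAddCommGroup W] [NormedSpace ℂ W] (G : Type*) where
  w : W
  f : W →L[ℂ] ℂ
  δ : ℝ
  η : ℝ
  x : G

/-- invariant which makes the induction possible -/
def Inv {G : Type*} (wi : W) (fi : W →L[ℂ] ℂ) (d : Dat W G) : Prop :=
  0 < d.δ ∧ d.δ * ‖wi‖ < ‖d.f wi‖ ∧ 0 < d.η ∧ d.η * ‖fi‖ < ‖fi d.w‖

/-- ping-pong compatibility -/
def Compat {G : Type*} (d d' : Dat W G) : Prop :=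
  AA d.w d.η ⊆ PP d'.f d'.δ ∧ AA d'.w d'.η ⊆ PP d.f d.δ

end Dyn

/-! ### base frames -/

/-- `a ↦ a`, the first block -/
def iI (h : 2 * k ≤ n) (a : Fin k) : Fin n := ⟨a.1, by omega⟩

/-- `a ↦ k + a`, the second block -/
def iJ (h : 2 * k ≤ n) (a : Fin k) : Fin n := ⟨k + a.1, by omega⟩

/-- the matrix with columns `e_0, …, e_{k-1}` -/
def eI (R : Type*) [Zero R] [One R] (h : 2 * k ≤ n) : Matrix (Fin n) (Fin k) R :=
  Matrix.of fun i a => if i = iI h a then 1 else 0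

/-- the matrix with columns `e_k, …, e_{2k-1}` -/
def eJ (R : Type*) [Zero R] [One R] (h : 2 * k ≤ n) : Matrix (Fin n) (Fin k) R :=
  Matrix.of fun i a => if i = iJ h a then 1 else 0

/-- all nonzero powers of `x g x⁻¹` map `P` into `A`, and the base form lies in `P`, not in `A` -/
def Good (h : 2 * k ≤ n) (g : SLZ n) (d : Dat (Form n k) (SLZ n)) : Prop :=
  (∀ m : ℤ, m ≠ 0 → ∀ y ∈ PP d.f d.δ, rho n k ((d.x * g * d.x⁻¹) ^ m) y ∈ AA d.w d.η) ∧
  dform (eI ℂ h) ∈ PP d.f d.δ ∧ dform (eI ℂ h) ∉ AA d.w d.η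

/-! ### triangular bases and asymptotics -/

/-- `M` is upper triangular in the basis `b`, with diagonal `z` -/
def TriB (M : Matrix (Fin n) (Fin n) ℂ) (b : Fin n → Fin n → ℂ) (z : Fin n → ℂ) : Prop :=
  LinearIndependent ℂ b ∧ ∀ j, M *ᵥ b j - z j • b j ∈ Submodule.span ℂ (b '' {i | i < j})

/-- the matrix with columns `b_0, …, b_{k-1}` -/
def fr (b : Fin n → Fin n → ℂ) (hk : k ≤ n) : Matrix (Fin n) (Fin k) ℂ :=
  Matrix.of fun i a => b (Fin.castLE hk a) i

/-- the normalised powers of `M` on `k`-forms converge to a rank one operator -/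
def HasAsym (k : ℕ) (M : Matrix (Fin n) (Fin n) ℂ) (lam : ℂ) (ω : Form n k)
    (U : Matrix (Fin n) (Fin k) ℂ) : Prop :=
  lam ≠ 0 ∧ ω ≠ 0 ∧ LinearIndependent ℂ U.col ∧
    Filter.Tendsto (fun j : ℕ => (lam⁻¹) ^ j • op k (M ^ j)) Filter.atTop (nhds (rk1 ω (evl U)))

/-! ### polynomial functions, the parametrisation -/

/-- polynomial functions -/
def PolyFn {σ : Type*} (F : (σ → ℂ) → ℂ) : Prop :=
  ∃ P : MvPolynomial σ ℂ, ∀ x, F x = MvPolynomial.eval x P

/-- the coordinates of a pair of matrices -/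
abbrev Sg (n k : ℕ) := Bool × Fin n × Fin k

/-- first matrix of a point -/
def mA (x : Sg n k → ℂ) : Matrix (Fin n) (Fin k) ℂ := Matrix.of fun i a => x (false, i, a)

/-- second matrix of a point -/
def mB (x : Sg n k → ℂ) : Matrix (Fin n) (Fin k) ℂ := Matrix.of fun i a => x (true, i, a)

/-- parametrisation of the pairs `(V, Φ)` with `Φᵀ V = 0`:
`phi A B = det (A_I) B - e_I adj(A_I)ᵀ Aᵀ B`, `A_I = e_Iᵀ A` -/
def phi {R : Type*} [CommRing R] (h : 2 * k ≤ n) (A B : Matrix (Fin n) (Fin k) R) :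
    Matrix (Fin n) (Fin k) R :=
  ((eI R h)ᵀ * A).det • B - eI R h * (((eI R h)ᵀ * A).adjugate)ᵀ * Aᵀ * B

/-! ### eigenvalues of equal modulus -/

/-- no three eigenvalues (with multiplicity) have the same modulus -/
def NoThree (g : SLZ n) : Prop :=
  ∀ r : ℝ, Multiset.card ((eigs g).filter (fun z => ‖z‖ = r)) ≤ 2

/-- one eigenvalue `z`, of largest or of smallest modulus, is the only one of its modulus, and for every
other eigenvalue `w` there are exactly two eigenvalues of modulus `‖w‖` (all counted with multiplicity) -/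
def Exc (g : SLZ n) : Prop :=
  ∃ z ∈ eigs g, Multiset.card ((eigs g).filter (fun w => ‖w‖ = ‖z‖)) = 1 ∧
    ((∀ w ∈ eigs g, ‖w‖ ≤ ‖z‖) ∨ (∀ w ∈ eigs g, ‖z‖ ≤ ‖w‖)) ∧
    ∀ w ∈ eigs g, ‖w‖ ≠ ‖z‖ → Multiset.card ((eigs g).filter (fun v => ‖v‖ = ‖w‖)) = 2

end H60T
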