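import Pool.Agent.Lib.H60T.Defs

/-! # H60T, chunk E1 (M): `op k (1 + t V Φᵀ) = t^k ω_Φ ⊗ ε_V + O(|t|^{k-1})`

PROOF.  Write `N = V * Φᵀ`.  For `ω : Form n k` and `y : Fin k → Fin n → ℂ`, by `op_apply`,
`op k (1 + t • N) ω y = ω (fun b => y b + t • (N *ᵥ y b))`.  `MultilinearMap.map_add_univ` (applied to `ω.toMultilinearMap`)
gives the sum over `S : Finset (Fin k)` of `ω (S.piecewise y (fun b => t • N *ᵥ y b))`; with `u` the number of indices not in `S`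
this term is bounded by `‖t‖^u ‖ω‖ (1 + ‖lin N‖)^k ∏ ‖y b‖` (`ContinuousAlternatingMap.le_opNorm`, `Finset.prod` bound).
The term `S = ∅` is `t^k ω (fun b => N *ᵥ y b)` (`map_smul_univ`).  All other terms have `u ≤ k - 1` and `‖t‖^u ≤ ‖t‖^{k-1}`
since `‖t‖ ≥ 1`; there are at most `2^k` of them: `C = 2^k (1 + ‖lin N‖)^k`.
`e1_top` : `ω (fun b => (V * Φᵀ) *ᵥ y b) = dform Φ y * evl V ω`: the linear map `A : (Fin k → ℂ) → (Fin n → ℂ)`, `c ↦ V *ᵥ c`;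
`ω ∘ A` is an alternating `k`-form on `Fin k → ℂ`, so by `AlternatingMap.eq_smul_basis_det` (for `Pi.basisFun ℂ (Fin k)`) it is
`ω (V e_b) • det`; `V *ᵥ e_b = V.col b`, `(V * Φᵀ) *ᵥ y b = V *ᵥ (Φᵀ *ᵥ y b)`, and `Pi.basisFun.det = detRowAlternating`
(`Pi.basisFun_det`).  Finally `‖·‖` of the difference by `ContinuousLinearMap.opNorm_le_bound` and
`ContinuousAlternatingMap.opNorm_le_bound`. -/

namespace H60T

open Matrix

variable {n k : ℕ}

theorem e1_top (V Φ : Matrix (Fin n) (Fin k) ℂ) (ω : Form n k) (y : Fin k → Fin n → ℂ) :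
    ω (fun b => (V * Φᵀ) *ᵥ y b) = dform Φ y * evl V ω := by
  set g : (Fin k → ℂ) [⋀^Fin k]→ₗ[ℂ] ℂ := ω.toAlternatingMap.compLinearMap V.mulVecLin with hg
  have h1 : g = g (Pi.basisFun ℂ (Fin k)) • (Pi.basisFun ℂ (Fin k)).det :=
    AlternatingMap.eq_smul_basis_det (Pi.basisFun ℂ (Fin k)) g
  rw [Pi.basisFun_det] at h1
  have h2 : g (fun b => Φᵀ *ᵥ y b) = ω (fun b => (V * Φᵀ) *ᵥ y b) := by
    change ω (fun b => V *ᵥ (Φᵀ *ᵥ y b)) = _
    simp_rw [Matrix.mulVec_mulVec]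
  have h3 : g (Pi.basisFun ℂ (Fin k)) = evl V ω := by
    change ω (fun b => V *ᵥ (Pi.basisFun ℂ (Fin k) b)) = ω (fun b => V.col b)
    refine congrArg ω (funext fun b => ?_)
    rw [Pi.basisFun_apply, Matrix.mulVec_single_one]
  have h4 : g (fun b => Φᵀ *ᵥ y b) =
      g (Pi.basisFun ℂ (Fin k)) * detRowAlternating (fun b => Φᵀ *ᵥ y b) := by
    conv_lhs => rw [h1]
    rfl
  rw [← h2, h4, h3, mul_comm]
  rfl

theorem e1_prod (S : Finset (Fin k)) (hS : S.Nonempty) {T : ℝ} (hT : 1 ≤ T) :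
    ∏ b : Fin k, (if b ∈ S then (1 : ℝ) else T) ≤ T ^ (k - 1) := by
  obtain ⟨b0, hb0⟩ := hS
  rw [← Finset.mul_prod_erase Finset.univ _ (Finset.mem_univ b0), if_pos hb0, one_mul]
  have h1 : ∏ b ∈ Finset.univ.erase b0, (if b ∈ S then (1 : ℝ) else T) ≤
      ∏ _b ∈ Finset.univ.erase b0, T := by
    refine Finset.prod_le_prod (fun b _ => ?_) (fun b _ => ?_)
    · split_ifs <;> linarith
    · split_ifs <;> linarith
  refine h1.trans (le_of_eq ?_)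
  rw [Finset.prod_const, Finset.card_erase_of_mem (Finset.mem_univ b0), Finset.card_univ,
    Fintype.card_fin]

theorem e1_term (N : Matrix (Fin n) (Fin n) ℂ) (ω : Form n k) (y : Fin k → Fin n → ℂ) {t : ℂ}
    (ht : 1 ≤ ‖t‖) (S : Finset (Fin k)) (hS : S.Nonempty) :
    ‖ω (S.piecewise y (fun b => t • (N *ᵥ y b)))‖ ≤
      ‖t‖ ^ (k - 1) * (1 + ‖lin N‖) ^ k * ‖ω‖ * ∏ b, ‖y b‖ := by
  refine (ω.le_opNorm _).trans ?_
  have h1 : ∏ b, ‖S.piecewise y (fun b => t • (N *ᵥ y b)) b‖ ≤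
      ∏ b, ((if b ∈ S then (1 : ℝ) else ‖t‖) * (1 + ‖lin N‖) * ‖y b‖) := by
    refine Finset.prod_le_prod (fun b _ => norm_nonneg _) (fun b _ => ?_)
    by_cases hb : b ∈ S
    · rw [Finset.piecewise_eq_of_mem _ _ _ hb, if_pos hb, one_mul]
      have h2 := norm_nonneg (lin N)
      have h3 := norm_nonneg (y b)
      nlinarith
    · rw [Finset.piecewise_eq_of_notMem _ _ _ hb, if_neg hb, norm_smul]
      have h2 : ‖N *ᵥ y b‖ ≤ ‖lin N‖ * ‖y b‖ := (lin N).le_opNorm (y b)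
      have h3 := norm_nonneg (y b)
      rw [mul_assoc]
      refine mul_le_mul_of_nonneg_left (h2.trans ?_) (norm_nonneg _)
      linarith [h3]
  have h2 : ∏ b, ((if b ∈ S then (1 : ℝ) else ‖t‖) * (1 + ‖lin N‖) * ‖y b‖) =
      (∏ b, (if b ∈ S then (1 : ℝ) else ‖t‖)) * (1 + ‖lin N‖) ^ k * ∏ b, ‖y b‖ := by
    rw [Finset.prod_mul_distrib, Finset.prod_mul_distrib, Finset.prod_const, Finset.card_univ,
      Fintype.card_fin]
  have h3 : (∏ b, (if b ∈ S then (1 : ℝ) else ‖t‖)) * (1 + ‖lin N‖) ^ k * ∏ b, ‖y b‖ ≤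
      ‖t‖ ^ (k - 1) * (1 + ‖lin N‖) ^ k * ∏ b, ‖y b‖ := by
    refine mul_le_mul_of_nonneg_right (mul_le_mul_of_nonneg_right (e1_prod S hS ht) ?_) ?_
    · positivity
    · exact Finset.prod_nonneg fun b _ => norm_nonneg _
  calc ‖ω‖ * ∏ b, ‖S.piecewise y (fun b => t • (N *ᵥ y b)) b‖
      ≤ ‖ω‖ * (‖t‖ ^ (k - 1) * (1 + ‖lin N‖) ^ k * ∏ b, ‖y b‖) :=
        mul_le_mul_of_nonneg_left (h1.trans (h2.le.trans h3)) (norm_nonneg _)
    _ = ‖t‖ ^ (k - 1) * (1 + ‖lin N‖) ^ k * ‖ω‖ * ∏ b, ‖y b‖ := by ring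

theorem expand (V Φ : Matrix (Fin n) (Fin k) ℂ) (hk : 1 ≤ k) :
    ∃ C : ℝ, ∀ t : ℂ, 1 ≤ ‖t‖ →
      ‖op k (1 + t • (V * Φᵀ)) - t ^ k • rk1 (dform Φ) (evl V)‖ ≤ C * ‖t‖ ^ (k - 1) := by
  set N := V * Φᵀ with hN
  refine ⟨2 ^ k * (1 + ‖lin N‖) ^ k, fun t ht => ?_⟩
  have hC : 0 ≤ 2 ^ k * (1 + ‖lin N‖) ^ k * ‖t‖ ^ (k - 1) := by positivity
  refine ContinuousLinearMap.opNorm_le_bound _ hC fun ω => ?_
  refine ContinuousAlternatingMap.opNorm_le_bound _ (mul_nonneg hC (norm_nonneg _)) fun y => ?_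
  have h1 : op k (1 + t • N) ω y = ω (y + fun b => t • (N *ᵥ y b)) := by
    rw [op_apply]
    refine congrArg ω (funext fun b => ?_)
    rw [Matrix.add_mulVec, Matrix.one_mulVec, Matrix.smul_mulVec, Pi.add_apply]
  have h2 : ω (y + fun b => t • (N *ᵥ y b)) =
      ∑ S : Finset (Fin k), ω (S.piecewise y (fun b => t • (N *ᵥ y b))) :=
    ω.toMultilinearMap.map_add_univ y (fun b => t • (N *ᵥ y b))
  have h3 : ω ((∅ : Finset (Fin k)).piecewise y (fun b => t • (N *ᵥ y b))) =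
      t ^ k * (dform Φ y * evl V ω) := by
    rw [Finset.piecewise_empty]
    have h4 : ω (fun b => t • (N *ᵥ y b)) = (∏ _b : Fin k, t) • ω (fun b => N *ᵥ y b) :=
      ω.toMultilinearMap.map_smul_univ (fun _ => t) (fun b => N *ᵥ y b)
    rw [h4, Finset.prod_const, Finset.card_univ, Fintype.card_fin, smul_eq_mul, hN, e1_top]
  have h5 : (op k (1 + t • N) - t ^ k • rk1 (dform Φ) (evl V) : Form n k →L[ℂ] Form n k) ω y =
      ∑ S ∈ Finset.univ.erase (∅ : Finset (Fin k)),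
        ω (S.piecewise y (fun b => t • (N *ᵥ y b))) := by
    have h6 : (op k (1 + t • N) - t ^ k • rk1 (dform Φ) (evl V) : Form n k →L[ℂ] Form n k) ω y =
        op k (1 + t • N) ω y - t ^ k * (evl V ω * dform Φ y) := rfl
    rw [h6, h1, h2, ← Finset.add_sum_erase Finset.univ _ (Finset.mem_univ (∅ : Finset (Fin k))),
      h3]
    ring
  rw [h5]
  refine (norm_sum_le _ _).trans ?_
  have h7 : ∑ S ∈ Finset.univ.erase (∅ : Finset (Fin k)),
      ‖ω (S.piecewise y (fun b => t • (N *ᵥ y b)))‖ ≤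
      ∑ _S ∈ Finset.univ.erase (∅ : Finset (Fin k)),
        ‖t‖ ^ (k - 1) * (1 + ‖lin N‖) ^ k * ‖ω‖ * ∏ b, ‖y b‖ :=
    Finset.sum_le_sum fun S hS =>
      e1_term N ω y ht S (Finset.nonempty_iff_ne_empty.2 (Finset.ne_of_mem_erase hS))
  refine h7.trans ?_
  rw [Finset.sum_const, nsmul_eq_mul]
  have h8 : ((Finset.univ.erase (∅ : Finset (Fin k))).card : ℝ) ≤ 2 ^ k := by
    have h9 : (Finset.univ.erase (∅ : Finset (Fin k))).card ≤ 2 ^ k := by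
      refine (Finset.card_le_card (Finset.erase_subset _ _)).trans (le_of_eq ?_)
      rw [Finset.card_univ, Fintype.card_finset, Fintype.card_fin]
    exact_mod_cast h9
  have h10 : 0 ≤ ‖t‖ ^ (k - 1) * (1 + ‖lin N‖) ^ k * ‖ω‖ * ∏ b, ‖y b‖ := by
    have := Finset.prod_nonneg (s := Finset.univ) (fun (b : Fin k) _ => norm_nonneg (y b))
    positivity
  refine (mul_le_mul_of_nonneg_right h8 h10).trans (le_of_eq ?_)
  ring

end H60T
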