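import Pool.Agent.Lib.H60T.E2

/-! # H60T, chunk F1 (M): the tail of the powers

PROOF.  Let `Q = rk1 ω (evl U)` and `κ(V, Φ) = evl V (Q (dform Φ)) = evl U (dform Φ) * evl V ω`, a continuous function of `(V, Φ)`
(`continuous_evl`, `continuous_dform`), nonzero at `(V0, Φ0)`.  Let `4 c₀ = ‖κ(V0, Φ0)‖ > 0`.  In a neighbourhood of `(V0, Φ0)`:
`‖κ‖ > 2 c₀`, and `‖evl V‖ ‖dform Φ‖ < R` for some `R`.  Choose `j0` with `‖lam⁻¹ ^ j • op k (M^j) - Q‖ < min (c₀ / R) 1` for `j ≥ j0`.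
Then `‖lam⁻¹ ^ j‖ * ‖evl V (op k (M^j) (dform Φ))‖ ≥ ‖κ‖ - R ‖lam⁻¹ ^ j • op k (M^j) - Q‖ ≥ c₀` and
`‖lam⁻¹ ^ j‖ * ‖op k (M^j)‖ ≤ ‖Q‖ + 1`; so `c = c₀ / (‖Q‖ + 1)`.  `evl_op_dform` rewrites
`evl V (op k (M^j) (dform Φ)) = det (Φᵀ * M^j * V)`. -/

namespace H60T

open Matrix

variable {n k : ℕ}

theorem f1_smul_norm (c : ℂ) (hc : c ≠ 0) (A : Form n k →L[ℂ] Form n k) :
    ‖c‖ * ‖A‖ ≤ ‖c • A‖ := by
  have hl : 0 < ‖c‖ := norm_pos_iff.mpr hc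
  have h : ‖A‖ ≤ ‖c • A‖ / ‖c‖ := by
    refine ContinuousLinearMap.opNorm_le_bound _ (div_nonneg (norm_nonneg (c • A)) hl.le) ?_
    intro x
    rw [div_mul_eq_mul_div, le_div_iff₀ hl]
    have e : (c • A) x = c • A x := rfl
    have e2 := ContinuousLinearMap.le_opNorm (c • A) x
    rw [e, norm_smul, mul_comm] at e2
    exact e2
  rw [le_div_iff₀ hl] at h
  rw [mul_comm]
  exact h

theorem tail {M : Matrix (Fin n) (Fin n) ℂ} {lam : ℂ} {ω : Form n k} {U : Matrix (Fin n) (Fin k) ℂ}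
    (hA : HasAsym k M lam ω U) (V0 Φ0 : Matrix (Fin n) (Fin k) ℂ) (h1 : evl V0 ω ≠ 0)
    (h2 : (Φ0ᵀ * U).det ≠ 0) :
    ∃ c : ℝ, 0 < c ∧ ∃ j0 : ℕ,
      ∀ᶠ p : Matrix (Fin n) (Fin k) ℂ × Matrix (Fin n) (Fin k) ℂ in nhds (V0, Φ0),
        ∀ j ≥ j0, c * ‖op k (M ^ j)‖ ≤ ‖(p.2ᵀ * M ^ j * p.1).det‖ := by
  obtain ⟨hlam, -, -, hT⟩ := hA
  have hcont : Continuous (fun x : (Matrix (Fin n) (Fin k) ℂ × Matrix (Fin n) (Fin k) ℂ) ×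
      (Form n k →L[ℂ] Form n k) => evl x.1.1 (x.2 (dform x.1.2))) := by
    refine Continuous.clm_apply (continuous_evl.comp (continuous_fst.comp continuous_fst)) ?_
    exact Continuous.clm_apply continuous_snd
      (continuous_dform.comp (continuous_snd.comp continuous_fst))
  have hκ : evl V0 ((rk1 ω (evl U)) (dform Φ0)) ≠ 0 := by
    rw [rk1_apply, map_smul, smul_eq_mul, evl_dform]
    exact mul_ne_zero h2 h1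
  have hpos : 0 < ‖evl V0 ((rk1 ω (evl U)) (dform Φ0))‖ := norm_pos_iff.mpr hκ
  have hQ : 0 < ‖rk1 ω (evl U)‖ + 1 := by
    have := norm_nonneg (rk1 ω (evl U))
    linarith
  have hev : ∀ᶠ x : (Matrix (Fin n) (Fin k) ℂ × Matrix (Fin n) (Fin k) ℂ) ×
      (Form n k →L[ℂ] Form n k) in nhds (V0, Φ0) ×ˢ nhds (rk1 ω (evl U)),
      ‖evl V0 ((rk1 ω (evl U)) (dform Φ0))‖ / 2 < ‖evl x.1.1 (x.2 (dform x.1.2))‖ ∧
        ‖x.2‖ < ‖rk1 ω (evl U)‖ + 1 := by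
    rw [← nhds_prod_eq]
    refine Filter.Eventually.and ?_ ?_
    · refine (hcont.norm.continuousAt (x := ((V0, Φ0), rk1 ω (evl U)))).eventually
        (lt_mem_nhds ?_)
      exact half_lt_self hpos
    · refine ((continuous_snd.norm).continuousAt (x := ((V0, Φ0), rk1 ω (evl U)))).eventually
        (gt_mem_nhds ?_)
      exact lt_add_one _
  obtain ⟨pa, hpa, pb, hpb, hab⟩ := Filter.eventually_prod_iff.mp hev
  obtain ⟨j0, hj0⟩ := Filter.eventually_atTop.mp (hT.eventually hpb)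
  refine ⟨‖evl V0 ((rk1 ω (evl U)) (dform Φ0))‖ / 2 / (‖rk1 ω (evl U)‖ + 1),
    div_pos (half_pos hpos) hQ, j0, ?_⟩
  filter_upwards [hpa] with p hp j hj
  obtain ⟨e1, e2⟩ := hab hp (hj0 j hj)
  have hl : 0 < ‖lam⁻¹ ^ j‖ := norm_pos_iff.mpr (pow_ne_zero _ (inv_ne_zero hlam))
  have e3 : evl p.1 ((lam⁻¹ ^ j • op k (M ^ j)) (dform p.2)) =
      lam⁻¹ ^ j * (p.2ᵀ * M ^ j * p.1).det := by
    have e : (lam⁻¹ ^ j • op k (M ^ j)) (dform p.2) = lam⁻¹ ^ j • op k (M ^ j) (dform p.2) := rfl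
    rw [e, map_smul, smul_eq_mul, evl_op_dform]
  have e2' : ‖lam⁻¹ ^ j‖ * ‖op k (M ^ j)‖ < ‖rk1 ω (evl U)‖ + 1 :=
    lt_of_le_of_lt (f1_smul_norm _ (pow_ne_zero _ (inv_ne_zero hlam)) _) e2
  change _ < ‖evl p.1 ((lam⁻¹ ^ j • op k (M ^ j)) (dform p.2))‖ at e1
  rw [e3, norm_mul] at e1
  rw [div_mul_eq_mul_div, div_le_iff₀ hQ]
  have e4 : ‖lam⁻¹ ^ j‖ * (‖evl V0 ((rk1 ω (evl U)) (dform Φ0))‖ / 2 * ‖op k (M ^ j)‖) ≤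
      ‖lam⁻¹ ^ j‖ * (‖(p.2ᵀ * M ^ j * p.1).det‖ * (‖rk1 ω (evl U)‖ + 1)) := by
    have g1 : ‖evl V0 ((rk1 ω (evl U)) (dform Φ0))‖ / 2 * (‖lam⁻¹ ^ j‖ * ‖op k (M ^ j)‖) ≤
        (‖lam⁻¹ ^ j‖ * ‖(p.2ᵀ * M ^ j * p.1).det‖) * (‖rk1 ω (evl U)‖ + 1) :=
      mul_le_mul e1.le e2'.le (mul_nonneg hl.le (norm_nonneg (op k (M ^ j))))
        (mul_nonneg hl.le (norm_nonneg _))
    linarith [g1]
  exact le_of_mul_le_mul_left e4 hl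

end H60T
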