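import Pool.Agent.Lib.H60T.P1

/-! # H60T, chunk P2 (M): rational points near a given real point

PROOF.  The product `F = ∏_{i ∈ s} F i` is a polynomial function (`PolyFn.prod`) whose polynomial is not zero (induction on `s` with
`PolyFn.nz_mul`, or: every factor polynomial is nonzero and `MvPolynomial σ ℂ` is a domain).  If `F` vanished at all points
`fun i => (q i : ℂ)`, `q i ∈ ℚ`, `|q i - p i| < ε`, then `MvPolynomial.funext_set` (the sets `{(q : ℂ) | q ∈ ℚ, |q - p i| < ε}` are infinite) would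
give that the polynomial is zero. -/

namespace H60T

theorem p2_inf (a : ℝ) {ε : ℝ} (hε : 0 < ε) :
    Set.Infinite {z : ℂ | ∃ q : ℚ, |(q : ℝ) - a| < ε ∧ (q : ℂ) = z} := by
  have h1 : Set.Infinite {q : ℚ | |(q : ℝ) - a| < ε} := by
    intro hfin
    have hfin2 : (((fun q : ℚ => (q : ℝ)) '' {q : ℚ | |(q : ℝ) - a| < ε})).Finite := hfin.image _
    have hcl := hfin2.isClosed
    have hopen : IsOpen (Set.Ioo (a - ε) (a + ε)) := isOpen_Ioo
    have hdense : Dense (Set.range (fun q : ℚ => (q : ℝ))) := Rat.denseRange_cast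
    have hsub : Set.Ioo (a - ε) (a + ε) ⊆ closure (Set.Ioo (a - ε) (a + ε) ∩ Set.range (fun q : ℚ => (q : ℝ))) :=
      hdense.open_subset_closure_inter hopen
    have hsub2 : Set.Ioo (a - ε) (a + ε) ∩ Set.range (fun q : ℚ => (q : ℝ)) ⊆
        (fun q : ℚ => (q : ℝ)) '' {q : ℚ | |(q : ℝ) - a| < ε} := by
      rintro x ⟨hx, q, rfl⟩
      refine ⟨q, ?_, rfl⟩
      rw [Set.mem_setOf_eq, abs_lt]
      constructor
      · have := hx.1
        dsimp only at this
        linarith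
      · have := hx.2
        dsimp only at this
        linarith
    have hsub3 : Set.Ioo (a - ε) (a + ε) ⊆ (fun q : ℚ => (q : ℝ)) '' {q : ℚ | |(q : ℝ) - a| < ε} :=
      hsub.trans (closure_minimal hsub2 hcl)
    exact Set.Ioo_infinite (by linarith) (hfin2.subset hsub3)
  have h2 : Set.InjOn (fun q : ℚ => (q : ℂ)) {q : ℚ | |(q : ℝ) - a| < ε} :=
    fun x _ y _ h => Rat.cast_injective h
  have h3 := h1.image h2
  exact h3

theorem rat_near {σ ι : Type*} [Finite σ] (s : Finset ι) (F : ι → (σ → ℂ) → ℂ)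
    (hF : ∀ i ∈ s, PolyFn (F i)) (hnz : ∀ i ∈ s, ∃ x, F i x ≠ 0) (p : σ → ℝ) {ε : ℝ}
    (hε : 0 < ε) :
    ∃ q : σ → ℚ, (∀ i, |(q i : ℝ) - p i| < ε) ∧ ∀ i ∈ s, F i (fun j => (q j : ℂ)) ≠ 0 := by
  classical
  choose! P hP using hF
  have hPne : ∀ i ∈ s, P i ≠ 0 := by
    intro i hi h0
    obtain ⟨x, hx⟩ := hnz i hi
    apply hx
    rw [hP i hi, h0, map_zero]
  have hprod : (∏ i ∈ s, P i) ≠ 0 := Finset.prod_ne_zero_iff.mpr hPne
  by_contra hcon
  push Not at hcon
  apply hprod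
  refine MvPolynomial.funext_set (fun i => {z : ℂ | ∃ q : ℚ, |(q : ℝ) - p i| < ε ∧ (q : ℂ) = z})
    (fun i => p2_inf (p i) hε) ?_
  intro x hx
  have hx' : ∀ i, ∃ q : ℚ, |(q : ℝ) - p i| < ε ∧ (q : ℂ) = x i := fun i => hx i (Set.mem_univ i)
  choose q hq1 hq2 using hx'
  obtain ⟨i, hi, h0⟩ := hcon q hq1
  have hxe : x = fun j => (q j : ℂ) := funext fun j => (hq2 j).symm
  rw [map_zero, map_prod]
  apply Finset.prod_eq_zero hi
  rw [hxe, ← hP i hi, h0]

end H60T
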