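import Pool.Agent.Lib.H60T.P4
import Pool.Agent.Lib.H60T.E2

/-! # H60T, chunk P5 (M): the polynomial conditions can be satisfied

`P5_U`: extend the `k` columns of `U` to `2k` linearly independent vectors (`2 k ≤ n`; e.g. `exists_linearIndependent_...`/ `LinearIndependent.extend`/
 dimension of the quotient `n - k ≥ k`), so there is `V` with `(V.col, U.col)` independent; `exists_pt` with `N = 0`.
`P5_N`: `exists_pt` with `U = 0`.
`P5_w`: `ω ≠ 0` has a tuple `y` with `ω y ≠ 0`; take `mA x` with columns `y` .  Polynomial: expand `ω` in the coordinates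
(`MultilinearMap.map_sum`-type formula: `ω (V.col ·) = ∑_{t : Fin k → Fin n} (∏_a V (t a) a) ω (e_{t ·})`).
`P5_det`: `x ↦ det ((phi ..)ᵀ * (N * mA x + U))` is a polynomial function (`PolyFn.det`, `mul_entry`, `phi_poly`). -/

namespace H60T

open Matrix

variable {n k : ℕ}

theorem p5_mA (i : Fin n) (a : Fin k) : PolyFn (fun x : Sg n k → ℂ => mA x i a) :=
  PolyFn.coord (σ := Sg n k) (false, i, a)

theorem p5_mB (i : Fin n) (a : Fin k) : PolyFn (fun x : Sg n k → ℂ => mB x i a) :=
  PolyFn.coord (σ := Sg n k) (true, i, a)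

theorem p5_poly_det (h2 : 2 * k ≤ n) (N : Matrix (Fin n) (Fin n) ℂ) (U : Matrix (Fin n) (Fin k) ℂ) :
    PolyFn (fun x : Sg n k → ℂ => ((phi h2 (mA x) (mB x))ᵀ * (N * mA x + U)).det) := by
  apply PolyFn.det
  intro a b
  apply PolyFn.mul_entry
  · intro a i
    exact phi_poly h2 i a
  · intro i b
    have h3 : ∀ i b, PolyFn (fun x : Sg n k → ℂ => (N * mA x) i b) := fun i b =>
      PolyFn.mul_entry (N := fun _ : Sg n k → ℂ => N) (N' := fun x : Sg n k → ℂ => mA x)
        (fun i j => PolyFn.const (N i j)) (fun i j => p5_mA i j) i b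
    exact (h3 i b).add (PolyFn.const (U i b))

theorem p5_poly_form (ω : Form n k) : PolyFn (fun x : Sg n k → ℂ => evl (mA x) ω) := by
  have h1 : ∀ x : Sg n k → ℂ, evl (mA x) ω =
      ∑ t : Fin k → Fin n, (∏ a, mA x (t a) a) * ω (fun a => Pi.single (t a) 1) := by
    intro x
    have h2 : (fun b : Fin k => (mA x).col b) =
        fun b : Fin k => ∑ i : Fin n, (mA x i b) • (Pi.single i (1 : ℂ) : Fin n → ℂ) := by
      funext b
      funext i
      rw [Finset.sum_apply, Finset.sum_eq_single i]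
      · simp [Matrix.col]
      · intro i' _ hi'
        simp [Ne.symm hi']
      · intro h
        exact absurd (Finset.mem_univ _) h
    rw [evl_apply, h2]
    have h3 := (ω.toMultilinearMap : MultilinearMap ℂ (fun _ : Fin k => Fin n → ℂ) ℂ).map_sum
      (fun (b : Fin k) (i : Fin n) => (mA x i b) • (Pi.single i (1 : ℂ) : Fin n → ℂ))
    refine Eq.trans h3 (Finset.sum_congr rfl fun t _ => ?_)
    have h4 := (ω.toMultilinearMap : MultilinearMap ℂ (fun _ : Fin k => Fin n → ℂ) ℂ).map_smul_univ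
      (fun a => mA x (t a) a) (fun a => (Pi.single (t a) (1 : ℂ) : Fin n → ℂ))
    exact h4
  have h5 : PolyFn (fun x : Sg n k → ℂ =>
      ∑ t : Fin k → Fin n, (∏ a, mA x (t a) a) * ω (fun a => Pi.single (t a) 1)) := by
    apply PolyFn.sum
    intro t _
    exact (PolyFn.prod Finset.univ fun a _ => p5_mA (t a) a).mul (PolyFn.const _)
  obtain ⟨P, hP⟩ := h5
  exact ⟨P, fun x => (h1 x).trans (hP x)⟩

/-- the point with the given pair of matrices -/
def p5_pt (A B : Matrix (Fin n) (Fin k) ℂ) : Sg n k → ℂ :=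
  fun s => if s.1 then B s.2.1 s.2.2 else A s.2.1 s.2.2

theorem p5_pt_A (A B : Matrix (Fin n) (Fin k) ℂ) : mA (p5_pt A B) = A := by
  ext i a
  simp [mA, p5_pt]

theorem p5_pt_B (A B : Matrix (Fin n) (Fin k) ℂ) : mB (p5_pt A B) = B := by
  ext i a
  simp [mB, p5_pt]

theorem p5_form_nz (ω : Form n k) (h : ω ≠ 0) : ∃ x : Sg n k → ℂ, evl (mA x) ω ≠ 0 := by
  by_contra hcon
  push Not at hcon
  apply h
  ext y
  have h1 := hcon (p5_pt (Matrix.of fun i a => y a i) 0)
  rw [p5_pt_A, evl_apply] at h1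
  exact h1

/-- Extension of an independent family of `k` vectors to `2 k` vectors. -/
theorem p5_extend (h2 : 2 * k ≤ n) (U : Matrix (Fin n) (Fin k) ℂ) (hU : LinearIndependent ℂ U.col) :
    ∃ V : Matrix (Fin n) (Fin k) ℂ, LinearIndependent ℂ (Sum.elim V.col U.col) := by
  let S : Submodule ℂ (Fin n → ℂ) := Submodule.span ℂ (Set.range U.col)
  have hS : Module.finrank ℂ S = k := by
    rw [finrank_span_eq_card hU, Fintype.card_fin]
  have hQ : k ≤ Module.finrank ℂ ((Fin n → ℂ) ⧸ S) := by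
    have h1 := Submodule.finrank_quotient_add_finrank S
    rw [hS, Module.finrank_fin_fun] at h1
    omega
  let c : Fin k → ((Fin n → ℂ) ⧸ S) := fun a => Module.finBasis ℂ _ (Fin.castLE hQ a)
  have hc : LinearIndependent ℂ c :=
    (Module.finBasis ℂ ((Fin n → ℂ) ⧸ S)).linearIndependent.comp _ (Fin.castLE_injective hQ)
  choose g hg using fun a => Submodule.Quotient.mk_surjective S (c a)
  have hf : LinearIndependent ℂ (fun a => (⟨U.col a, Submodule.subset_span ⟨a, rfl⟩⟩ : S)) := by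
    apply LinearIndependent.of_comp S.subtype
    exact hU
  have h3 := LinearIndependent.sumElim_of_quotient hf g (by
    have h4 : (Submodule.Quotient.mk (p := S) ∘ g) = c := funext hg
    rw [h4]
    exact hc)
  refine ⟨Matrix.of fun i a => g a i, ?_⟩
  have h5 := h3.comp (Equiv.sumComm (Fin k) (Fin k)) (Equiv.sumComm (Fin k) (Fin k)).injective
  have h6 : (Sum.elim (fun a => ((⟨U.col a, Submodule.subset_span ⟨a, rfl⟩⟩ : S) : Fin n → ℂ)) g) ∘
      (Equiv.sumComm (Fin k) (Fin k)) = Sum.elim (Matrix.of fun i a => g a i).col U.col := by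
    funext x
    rcases x with a | a
    · rfl
    · rfl
  rw [h6] at h5
  exact h5

theorem p5_U_nz (h2 : 2 * k ≤ n) (U : Matrix (Fin n) (Fin k) ℂ) (hU : LinearIndependent ℂ U.col) :
    ∃ x : Sg n k → ℂ, ((phi h2 (mA x) (mB x))ᵀ * U).det ≠ 0 := by
  obtain ⟨V, hV⟩ := p5_extend h2 U hU
  obtain ⟨x, hx⟩ := exists_pt h2 0 U V (by rw [Matrix.zero_mul, zero_add]; exact hV)
  rw [Matrix.zero_mul, zero_add] at hx
  exact ⟨x, hx⟩

theorem p5_eJ_nz (h2 : 2 * k ≤ n) : ∃ x : Sg n k → ℂ, ((eJ ℂ h2)ᵀ * mA x).det ≠ 0 := by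
  refine ⟨p5_pt (eJ ℂ h2) 0, ?_⟩
  have h1 : (eJ ℂ h2)ᵀ * (eJ ℂ h2) = 1 := by
    ext a b
    rw [Matrix.mul_apply, Finset.sum_eq_single (iJ h2 a)]
    · simp only [Matrix.transpose_apply, eJ, Matrix.of_apply, if_true, one_mul, Matrix.one_apply]
      by_cases h : a = b
      · rw [if_pos (by rw [h]), if_pos h]
      · rw [if_neg, if_neg h]
        intro h3
        apply h
        have h4 := congrArg Fin.val h3
        simp only [iJ] at h4
        exact Fin.ext (by omega)
    · intro i _ hi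
      simp [eJ, hi]
    · intro h
      exact absurd (Finset.mem_univ _) h
  rw [p5_pt_A, h1, Matrix.det_one]
  exact one_ne_zero

end H60T
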