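import Pool.Agent.Lib.H60T.A8
import Pool.Agent.Lib.H60T.P2
import Pool.Agent.Lib.H60T.P5
import Pool.Agent.Lib.H60T.F1

/-! # H60T, chunk F2 (M/L): choice of a rational pair `(V, Φ)`

PROOF.  Let `Ψ x = (mA x, phi (mA x) (mB x))`, continuous in `x : Sg n k → ℂ` (`phi_cont`).  Let `x0` be the real point with `mA x0 = e_I`,
`mB x0 = e_J`, so `Ψ x0 = (e_I, e_J)` (`phi_base`).  `O` = set of `x` with `‖dform (Ψ x).2 - dform e_J‖ < ε` and
`‖evl (Ψ x).1 - evl e_I‖ < ε`, open (`continuous_dform`, `continuous_evl`), contains `x0`.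
Let `(lam, ω, U)` be from `asym_pos` and `(lam', ω', U')` from `asym_neg`.
Stage 1: by `rat_near` (four polynomial functions, `p5_poly_form`, `p5_poly_det`, nonzero by `p5_form_nz`, `p5_U_nz`) there is a rational (real)
point `x1 ∈ O` with `evl (mA x1) ω ≠ 0`, `evl (mA x1) ω' ≠ 0`, `det (phiᵀ U) ≠ 0`, `det (phiᵀ U') ≠ 0`.
`tail` for `M = cm g` and `M = cm g⁻¹` at `Ψ x1` gives `c, j0` and `c', j0'` and neighbourhoods.
Stage 2: by `rat_near` around the real point `x1` there is a rational point `q` in `O` and in the preimages of both neighbourhoods such that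
`det (phiᵀ * cm (g ^ m) * mA) ≠ 0` for all `m ≠ 0` with `|m| ≤ j0 + j0'` (finitely many; nonzero functions by `witness` and `exists_pt` with
`U = 0`, `N = cm (g ^ m)`), `det (e_Jᵀ * mA) ≠ 0` (`p5_eJ_nz`), `det (phiᵀ * e_I) ≠ 0` (`p5_U_nz` for `U = e_I`, whose columns are independent by `eI_eI`).
For `m ≥ j0 + j0' + 1`, `cm (g ^ m) = cm g ^ j`, `tail`; for `m ≤ -(j0 + j0' + 1)`, `cm (g ^ m) = cm g⁻¹ ^ j`, `tail`; for the finitely many
others take the minimum of `‖det‖ / (‖op k (cm (g^m))‖ + 1)`. -/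

namespace H60T

open Matrix

variable {n k : ℕ}

theorem f2_cont_mA : Continuous (mA : (Sg n k → ℂ) → Matrix (Fin n) (Fin k) ℂ) := by
  refine continuous_matrix fun i a => ?_
  exact continuous_apply (false, i, a)

theorem f2_cont_mB : Continuous (mB : (Sg n k → ℂ) → Matrix (Fin n) (Fin k) ℂ) := by
  refine continuous_matrix fun i a => ?_
  exact continuous_apply (true, i, a)

theorem f2_cont_phi (h2 : 2 * k ≤ n) :
    Continuous (fun x : Sg n k → ℂ => phi h2 (mA x) (mB x)) := by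
  have h1 := (f2_cont_mA (n := n) (k := k)).prodMk (f2_cont_mB (n := n) (k := k))
  have h3 := (phi_cont h2).comp h1
  exact h3

theorem f2_open {X W : Type*} [TopologicalSpace X] [SeminormedAddCommGroup W] (f : X → W)
    (hf : Continuous f) (c : W) (ε : ℝ) : IsOpen {x | ‖f x - c‖ < ε} :=
  isOpen_lt (hf.sub continuous_const).norm continuous_const

theorem f2_self {W : Type*} [SeminormedAddCommGroup W] (w : W) {ε : ℝ} (hε : 0 < ε) :
    ‖w - w‖ < ε := by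
  rw [sub_self, norm_zero]
  exact hε

theorem f2_mulle {W : Type*} [SeminormedAddCommGroup W] (w : W) {c c' d : ℝ} (h : c ≤ c')
    (h' : c' * ‖w‖ ≤ d) : c * ‖w‖ ≤ d :=
  (mul_le_mul_of_nonneg_right h (norm_nonneg _)).trans h'

theorem f2_min {ι : Type*} (S : Finset ι) (a d : ι → ℝ) (hd : ∀ m ∈ S, 0 < d m) :
    ∃ c : ℝ, 0 < c ∧ ∀ c' ≤ c, 0 ≤ c' → ∀ m ∈ S, c' * a m ≤ d m := by
  classical
  induction S using Finset.induction_on with
  | empty => exact ⟨1, one_pos, by simp⟩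
  | insert m S hm ih =>
    obtain ⟨c, hc, h⟩ := ih fun m' hm' => hd m' (Finset.mem_insert_of_mem hm')
    have hdm := hd m (Finset.mem_insert_self _ _)
    refine ⟨min c (d m / (|a m| + 1)), lt_min hc (div_pos hdm (by positivity)), ?_⟩
    intro c' hc' hc0 m' hm'
    rcases Finset.mem_insert.mp hm' with rfl | hm'
    · have h1 : c' ≤ d m' / (|a m'| + 1) := hc'.trans (min_le_right _ _)
      rw [le_div_iff₀ (by positivity)] at h1
      have h3 : c' * a m' ≤ c' * (|a m'| + 1) :=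
        mul_le_mul_of_nonneg_left (by linarith [le_abs_self (a m')]) hc0
      linarith
    · exact h c' (hc'.trans (min_le_left _ _)) hc0 m' hm'

theorem f2_eI_indep (h2 : 2 * k ≤ n) : LinearIndependent ℂ (eI ℂ h2).col := by
  rw [← Matrix.mulVec_injective_iff]
  intro x y hxy
  have := congrArg (fun v => (eI ℂ h2)ᵀ *ᵥ v) hxy
  simpa [Matrix.mulVec_mulVec, eI_eI] using this

theorem f2_poly_eJ (h2 : 2 * k ≤ n) :
    PolyFn (fun x : Sg n k → ℂ => ((eJ ℂ h2)ᵀ * mA x).det) := by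
  refine PolyFn.det fun i j => ?_
  refine PolyFn.mul_entry (N := fun _ => (eJ ℂ h2)ᵀ) (N' := fun x => mA x) (fun i j => ?_)
    (fun i j => ?_) i j
  · exact PolyFn.const _
  · exact PolyFn.coord (false, i, j)

theorem rat_pair (g : SLZ n) (h2 : 2 * k ≤ n) (hg : Gap g k) (hg' : Gap g (n - k))
    {ε : ℝ} (hε : 0 < ε) :
    ∃ q : Sg n k → ℚ, ∀ A B Φ : Matrix (Fin n) (Fin k) ℂ, A = mA (fun i => (q i : ℂ)) →
      B = mB (fun i => (q i : ℂ)) → Φ = phi h2 A B →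
      ‖dform Φ - dform (eJ ℂ h2)‖ ≤ ε ∧ ‖evl A - evl (eI ℂ h2)‖ ≤ ε ∧
      ((eJ ℂ h2)ᵀ * A).det ≠ 0 ∧ (Φᵀ * eI ℂ h2).det ≠ 0 ∧
      ∃ c : ℝ, 0 < c ∧ ∀ m : ℤ, m ≠ 0 →
        c * ‖op k (cm (g ^ m))‖ ≤ ‖(Φᵀ * cm (g ^ m) * A).det‖ := by
  classical
  have hkn : k ≤ n := by omega
  obtain ⟨lam, ω, U, hA⟩ := asym_pos g hkn hg
  obtain ⟨lam', ω', U', hA'⟩ := asym_neg g hkn hg'
  have hΨ : Continuous (fun x : Sg n k → ℂ => (mA x, phi h2 (mA x) (mB x))) :=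
    f2_cont_mA.prodMk (f2_cont_phi h2)
  -- the base point
  obtain ⟨x0, hx0⟩ : ∃ x0 : Sg n k → ℝ, x0 = fun s => if s.1 then eJ ℝ h2 s.2.1 s.2.2
    else eI ℝ h2 s.2.1 s.2.2 := ⟨_, rfl⟩
  have hA0 : mA (fun s => (x0 s : ℂ)) = eI ℂ h2 := by
    ext i a
    simp only [mA, eI, hx0, Matrix.of_apply, Bool.false_eq_true, if_false]
    split_ifs <;> simp
  have hB0 : mB (fun s => (x0 s : ℂ)) = eJ ℂ h2 := by
    ext i a
    simp only [mB, eJ, hx0, Matrix.of_apply, if_true]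
    split_ifs <;> simp
  obtain ⟨O, hO⟩ : ∃ O : Set (Sg n k → ℂ), O = {x | ‖dform (phi h2 (mA x) (mB x)) - dform (eJ ℂ h2)‖ < ε ∧
    ‖evl (mA x) - evl (eI ℂ h2)‖ < ε} := ⟨_, rfl⟩
  have hOo : IsOpen O := by
    rw [hO]
    refine IsOpen.inter ?_ ?_
    · exact f2_open (fun x => dform (phi h2 (mA x) (mB x)))
        (continuous_dform.comp (f2_cont_phi h2)) (dform (eJ ℂ h2)) ε
    · exact f2_open (fun x : Sg n k → ℂ => evl (mA x))
        (continuous_evl.comp f2_cont_mA) (evl (eI ℂ h2)) ε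
  have hx0O : (fun s => (x0 s : ℂ)) ∈ O := by
    rw [hO]
    constructor
    · rw [hA0, hB0, phi_base, sub_self, norm_zero]; exact hε
    · rw [hA0]
      exact f2_self (evl (eI ℂ h2)) hε
  obtain ⟨ε1, hε1, hball1⟩ := Metric.isOpen_iff.mp hOo _ hx0O
  -- stage 1
  obtain ⟨F, hF⟩ : ∃ F : Bool × Bool → (Sg n k → ℂ) → ℂ, F = fun b x =>
    if b.1 then (if b.2 then evl (mA x) ω else evl (mA x) ω') else
      (if b.2 then ((phi h2 (mA x) (mB x))ᵀ * ((0 : Matrix (Fin n) (Fin n) ℂ) * mA x + U)).det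
        else ((phi h2 (mA x) (mB x))ᵀ * ((0 : Matrix (Fin n) (Fin n) ℂ) * mA x + U')).det) :=
    ⟨_, rfl⟩
  have hU : ∃ x : Sg n k → ℂ,
      ((phi h2 (mA x) (mB x))ᵀ * ((0 : Matrix (Fin n) (Fin n) ℂ) * mA x + U)).det ≠ 0 := by
    obtain ⟨x, hx⟩ := p5_U_nz h2 U hA.2.2.1
    exact ⟨x, by rwa [Matrix.zero_mul, zero_add]⟩
  have hU' : ∃ x : Sg n k → ℂ,
      ((phi h2 (mA x) (mB x))ᵀ * ((0 : Matrix (Fin n) (Fin n) ℂ) * mA x + U')).det ≠ 0 := by
    obtain ⟨x, hx⟩ := p5_U_nz h2 U' hA'.2.2.1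
    exact ⟨x, by rwa [Matrix.zero_mul, zero_add]⟩
  obtain ⟨q1, hq1, hF1⟩ := rat_near Finset.univ F
    (fun b _ => by
      rw [hF]
      rcases b with ⟨b1, b2⟩
      cases b1 <;> cases b2
      · exact p5_poly_det h2 0 U'
      · exact p5_poly_det h2 0 U
      · exact p5_poly_form ω'
      · exact p5_poly_form ω)
    (fun b _ => by
      rw [hF]
      rcases b with ⟨b1, b2⟩
      cases b1 <;> cases b2
      · exact hU'
      · exact hU
      · exact p5_form_nz ω' hA'.2.1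
      · exact p5_form_nz ω hA.2.1)
    x0 hε1
  obtain ⟨x1, hx1⟩ : ∃ x1 : Sg n k → ℂ, x1 = fun s => (q1 s : ℂ) := ⟨_, rfl⟩
  have hx1O : x1 ∈ O := by
    apply hball1
    rw [Metric.mem_ball, hx1, dist_pi_lt_iff hε1]
    intro s
    have := hq1 s
    rw [Complex.dist_eq]
    have h3 : ((q1 s : ℂ) - (x0 s : ℂ)) = (((q1 s : ℝ) - x0 s : ℝ) : ℂ) := by push_cast; rfl
    rw [h3, Complex.norm_real]
    exact this
  have e1 : evl (mA x1) ω ≠ 0 := by
    have := hF1 (true, true) (Finset.mem_univ _)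
    rw [hF] at this
    rw [hx1]
    exact this
  have e2 : evl (mA x1) ω' ≠ 0 := by
    have := hF1 (true, false) (Finset.mem_univ _)
    rw [hF] at this
    rw [hx1]
    exact this
  have e3 : ((phi h2 (mA x1) (mB x1))ᵀ * U).det ≠ 0 := by
    have := hF1 (false, true) (Finset.mem_univ _)
    rw [hF] at this
    rw [hx1]
    have h4 : ((phi h2 (mA (fun s => (q1 s : ℂ))) (mB (fun s => (q1 s : ℂ))))ᵀ *
      ((0 : Matrix (Fin n) (Fin n) ℂ) * mA (fun s => (q1 s : ℂ)) + U)).det ≠ 0 := this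
    rwa [Matrix.zero_mul, zero_add] at h4
  have e4 : ((phi h2 (mA x1) (mB x1))ᵀ * U').det ≠ 0 := by
    have := hF1 (false, false) (Finset.mem_univ _)
    rw [hF] at this
    rw [hx1]
    have h4 : ((phi h2 (mA (fun s => (q1 s : ℂ))) (mB (fun s => (q1 s : ℂ))))ᵀ *
      ((0 : Matrix (Fin n) (Fin n) ℂ) * mA (fun s => (q1 s : ℂ)) + U')).det ≠ 0 := this
    rwa [Matrix.zero_mul, zero_add] at h4
  obtain ⟨c1, hc1, j1, ht1⟩ := tail hA (mA x1) (phi h2 (mA x1) (mB x1)) e1 e3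
  obtain ⟨c2, hc2, j2, ht2⟩ := tail hA' (mA x1) (phi h2 (mA x1) (mB x1)) e2 e4
  have ht1' := hΨ.continuousAt.eventually ht1
  have ht2' := hΨ.continuousAt.eventually ht2
  have htO : ∀ᶠ x in nhds x1, x ∈ O := hOo.mem_nhds hx1O
  obtain ⟨ε2, hε2, hball2⟩ := Metric.eventually_nhds_iff.mp (ht1'.and (ht2'.and htO))
  -- stage 2
  obtain ⟨J, hJ⟩ : ∃ J : ℕ, J = j1 + j2 := ⟨_, rfl⟩
  obtain ⟨S, hS⟩ : ∃ S : Finset ℤ, S = (Finset.Icc (-(J : ℤ)) J).erase 0 := ⟨_, rfl⟩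
  obtain ⟨G, hG⟩ : ∃ G : ℤ ⊕ Bool → (Sg n k → ℂ) → ℂ, G = Sum.elim
    (fun m x => ((phi h2 (mA x) (mB x))ᵀ * (cm (g ^ m) * mA x + 0)).det)
    (fun b x => if b then ((eJ ℂ h2)ᵀ * mA x).det else
      ((phi h2 (mA x) (mB x))ᵀ * ((0 : Matrix (Fin n) (Fin n) ℂ) * mA x + eI ℂ h2)).det) :=
    ⟨_, rfl⟩
  obtain ⟨q, hq, hG1⟩ := rat_near (S.disjSum (Finset.univ : Finset Bool)) G
    (fun b hb => by
      rw [hG]
      rcases b with m | b
      · exact p5_poly_det h2 _ 0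
      · cases b
        · exact p5_poly_det h2 0 _
        · exact f2_poly_eJ h2)
    (fun b hb => by
      rw [hG]
      rcases b with m | b
      · have hm : m ≠ 0 := by
          have h5 : m ∈ S := by simpa using hb
          rw [hS] at h5
          exact (Finset.mem_erase.mp h5).1
        obtain ⟨V, hV⟩ := witness g h2 hg hg' m hm
        exact exists_pt h2 (cm (g ^ m)) 0 V (by rwa [add_zero])
      · cases b
        · obtain ⟨x, hx⟩ := p5_U_nz h2 (eI ℂ h2) (f2_eI_indep h2)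
          refine ⟨x, ?_⟩
          change ((phi h2 (mA x) (mB x))ᵀ * ((0 : Matrix (Fin n) (Fin n) ℂ) * mA x + eI ℂ h2)).det ≠ 0
          rwa [Matrix.zero_mul, zero_add]
        · exact p5_eJ_nz h2)
    (fun s => (q1 s : ℝ)) hε2
  obtain ⟨x, hx⟩ : ∃ x : Sg n k → ℂ, x = fun s => (q s : ℂ) := ⟨_, rfl⟩
  have hdist : dist x x1 < ε2 := by
    rw [hx, hx1, dist_pi_lt_iff hε2]
    intro s
    rw [Complex.dist_eq]
    have h3 : ((q s : ℂ) - (q1 s : ℂ)) = (((q s : ℝ) - (q1 s : ℝ) : ℝ) : ℂ) := by push_cast; rfl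
    rw [h3, Complex.norm_real]
    exact hq s
  obtain ⟨hb1, hb2, hb3⟩ := hball2 hdist
  have d1 : ((eJ ℂ h2)ᵀ * mA x).det ≠ 0 := by
    have := hG1 (Sum.inr true) (by simp)
    rw [hG] at this
    rw [hx]
    exact this
  have d2 : ((phi h2 (mA x) (mB x))ᵀ * eI ℂ h2).det ≠ 0 := by
    have := hG1 (Sum.inr false) (by simp)
    rw [hG] at this
    have h4 : ((phi h2 (mA (fun s => (q s : ℂ))) (mB (fun s => (q s : ℂ))))ᵀ *
      ((0 : Matrix (Fin n) (Fin n) ℂ) * mA (fun s => (q s : ℂ)) + eI ℂ h2)).det ≠ 0 := this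
    rw [hx]
    rwa [Matrix.zero_mul, zero_add] at h4
  have d3 : ∀ m ∈ S, ((phi h2 (mA x) (mB x))ᵀ * cm (g ^ m) * mA x).det ≠ 0 := by
    intro m hm
    have := hG1 (Sum.inl m) (by simpa using hm)
    rw [hG] at this
    have h4 : ((phi h2 (mA (fun s => (q s : ℂ))) (mB (fun s => (q s : ℂ))))ᵀ *
      (cm (g ^ m) * mA (fun s => (q s : ℂ)) + 0)).det ≠ 0 := this
    rw [hx, Matrix.mul_assoc]
    rwa [add_zero] at h4
  obtain ⟨c3, hc3, hc3'⟩ := f2_min S (fun m => ‖op k (cm (g ^ m))‖)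
    (fun m => ‖((phi h2 (mA x) (mB x))ᵀ * cm (g ^ m) * mA x).det‖)
    (fun m hm => norm_pos_iff.mpr (d3 m hm))
  refine ⟨q, fun A B Φ hAe hBe hΦ => ?_⟩
  rw [← hx] at hAe hBe
  subst hAe hBe hΦ
  rw [hO] at hb3
  refine ⟨hb3.1.le, hb3.2.le, d1, d2, min c1 (min c2 c3), lt_min hc1 (lt_min hc2 hc3), ?_⟩
  intro m hm
  obtain ⟨c, hc⟩ : ∃ c, c = min c1 (min c2 c3) := ⟨_, rfl⟩
  rw [← hc]
  have hc0 : 0 ≤ c := by rw [hc]; exact (lt_min hc1 (lt_min hc2 hc3)).le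
  have hcc1 : c ≤ c1 := by rw [hc]; exact min_le_left _ _
  have hcc2 : c ≤ c2 := by rw [hc]; exact (min_le_right _ _).trans (min_le_left _ _)
  have hcc3 : c ≤ c3 := by rw [hc]; exact (min_le_right _ _).trans (min_le_right _ _)
  by_cases hm1 : (j1 : ℤ) ≤ m
  · obtain ⟨j, rfl⟩ : ∃ j : ℕ, m = j := ⟨m.toNat, by omega⟩
    have hj : j1 ≤ j := by exact_mod_cast hm1
    have := hb1 j hj
    rw [zpow_natCast, cm_pow]
    exact f2_mulle (op k (cm g ^ j)) hcc1 this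
  · by_cases hm2 : m ≤ -(j2 : ℤ)
    · obtain ⟨j, rfl⟩ : ∃ j : ℕ, m = -(j : ℤ) := ⟨(-m).toNat, by omega⟩
      have hj : j2 ≤ j := by omega
      have := hb2 j hj
      have e : g ^ (-(j : ℤ)) = g⁻¹ ^ j := by rw [_root_.zpow_neg, zpow_natCast, inv_pow]
      rw [e, cm_pow]
      exact f2_mulle (op k (cm g⁻¹ ^ j)) hcc2 this
    · refine hc3' c hcc3 hc0 m ?_
      rw [hS]
      refine Finset.mem_erase.mpr ⟨hm, Finset.mem_Icc.mpr ⟨?_, ?_⟩⟩
      · rw [hJ]; push_cast; omega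
      · rw [hJ]; push_cast; omega

end H60T
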