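import Pool.Agent.Lib.H60T.F2

/-! # H60T, chunk F3 (M): the integral pair `(V, Φ)`

PROOF.  Let `q` be from `rat_pair` and `A, B, Φ` the complex matrices there.  Let `N ≥ 1` be a common denominator of the `q i` (finitely many);
`N q i` are integers, so there are integral matrices `A', B'` with `A'.map = N • A`, `B'.map = N • B`.  Put `V = A'`, `Φ' = phi A' B'`.
`phi_mul`: `Φ'ᵀ * V = 0`.  `phi_map` and `phi_smul`: `Φ'.map = (N^k * N) • Φ`.  So with `s = (N^k N)^k`, `s' = N^k`: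
`dform (Φ'.map) = s • dform Φ` (`dform_smul`) and `evl (V.map) = s' • evl A` (`evl_smul`); `‖s • dform Φ - s • dform e_J‖ ≤ ε ‖s‖` etc.
`det ((e_J)ᵀ * V.map) = N^k det (e_Jᵀ A) ≠ 0`, `det ((Φ'.map)ᵀ * e_I) ≠ 0` similarly; the last inequality with `c * (N^k N)^k * N^k`
(`Matrix.det_smul`). -/

namespace H60T

open Matrix

variable {n k : ℕ}

theorem f3_norm {W : Type*} [NormedAddCommGroup W] [NormedSpace ℂ W] (s : ℂ) (x y : W →L[ℂ] ℂ) :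
    ‖s • x - s • y‖ = ‖s‖ * ‖x - y‖ :=
  (congrArg norm (smul_sub s x y).symm).trans (norm_smul s (x - y))

theorem f3_den {σ : Type*} [Fintype σ] (q : σ → ℚ) :
    ∃ N : ℕ, N ≠ 0 ∧ ∃ z : σ → ℤ, ∀ i, ((z i : ℤ) : ℂ) = (N : ℂ) * ((q i : ℚ) : ℂ) := by
  classical
  refine ⟨∏ i, (q i).den, Finset.prod_ne_zero_iff.mpr fun i _ => (q i).den_ne_zero, ?_⟩
  have h : ∀ i, ∃ w : ℤ, ((w : ℤ) : ℂ) = ((∏ j, (q j).den : ℕ) : ℂ) * ((q i : ℚ) : ℂ) := by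
    intro i
    refine ⟨((∏ j ∈ Finset.univ.erase i, (q j).den : ℕ) : ℤ) * (q i).num, ?_⟩
    rw [← Finset.mul_prod_erase Finset.univ (fun j => (q j).den) (Finset.mem_univ i)]
    have hq : ((q i).den : ℂ) * ((q i : ℚ) : ℂ) = ((q i).num : ℂ) := by
      have := Rat.den_mul_eq_num (q i)
      exact_mod_cast congrArg (fun x : ℚ => (x : ℂ)) this
    push_cast
    rw [← hq]
    ring
  choose z hz using h
  exact ⟨z, hz⟩

theorem flag (g : SLZ n) (h2 : 2 * k ≤ n) (hk : 1 ≤ k) (hg : Gap g k) (hg' : Gap g (n - k))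
    {ε : ℝ} (hε : 0 < ε) :
    ∃ V Φ : Matrix (Fin n) (Fin k) ℤ, Φᵀ * V = 0 ∧ ∃ Vc Φc : Matrix (Fin n) (Fin k) ℂ,
      Vc = V.map (fun a : ℤ => (a : ℂ)) ∧ Φc = Φ.map (fun a : ℤ => (a : ℂ)) ∧
      ∃ s s' : ℂ, s ≠ 0 ∧ s' ≠ 0 ∧
      ‖dform Φc - s • dform (eJ ℂ h2)‖ ≤ ε * ‖s‖ ∧ ‖evl Vc - s' • evl (eI ℂ h2)‖ ≤ ε * ‖s'‖ ∧
      evl Vc (dform (eJ ℂ h2)) ≠ 0 ∧ evl (eI ℂ h2) (dform Φc) ≠ 0 ∧
      ∃ c : ℝ, 0 < c ∧ ∀ m : ℤ, m ≠ 0 →
        c * ‖op k (cm (g ^ m))‖ ≤ ‖evl Vc (op k (cm (g ^ m)) (dform Φc))‖ := by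
  obtain ⟨q, hq⟩ := rat_pair g h2 hg hg' hε
  obtain ⟨N, hN, z, hz⟩ := f3_den q
  have hNc : (N : ℂ) ≠ 0 := by exact_mod_cast hN
  set A : Matrix (Fin n) (Fin k) ℂ := mA (fun i => (q i : ℂ)) with hA
  set B : Matrix (Fin n) (Fin k) ℂ := mB (fun i => (q i : ℂ)) with hB
  set A' : Matrix (Fin n) (Fin k) ℤ := Matrix.of fun i a => z (false, i, a) with hA'
  set B' : Matrix (Fin n) (Fin k) ℤ := Matrix.of fun i a => z (true, i, a) with hB'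
  have hmA : A'.map (fun a : ℤ => (a : ℂ)) = (N : ℂ) • A := by
    ext i a
    exact hz (false, i, a)
  have hmB : B'.map (fun a : ℤ => (a : ℂ)) = (N : ℂ) • B := by
    ext i a
    exact hz (true, i, a)
  obtain ⟨e1, e2, e3, e4, c, hc, e5⟩ := hq A B (phi h2 A B) rfl rfl rfl
  have hΦ : (phi h2 A' B').map (fun a : ℤ => (a : ℂ)) = ((N : ℂ) ^ k * (N : ℂ)) • phi h2 A B := by
    rw [phi_map, hmA, hmB, phi_smul h2 hk]
  have hs : ((N : ℂ) ^ k * (N : ℂ)) ^ k ≠ 0 := pow_ne_zero _ (mul_ne_zero (pow_ne_zero _ hNc) hNc)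
  have hs' : (N : ℂ) ^ k ≠ 0 := pow_ne_zero _ hNc
  refine ⟨A', phi h2 A' B', phi_mul h2 A' B', _, _, rfl, rfl, ((N : ℂ) ^ k * (N : ℂ)) ^ k, (N : ℂ) ^ k,
    hs, hs', ?_⟩
  have hd : dform ((phi h2 A' B').map (fun a : ℤ => (a : ℂ)))
      = ((N : ℂ) ^ k * (N : ℂ)) ^ k • dform (phi h2 A B) := by
    rw [hΦ, dform_smul]
  have he : evl (A'.map (fun a : ℤ => (a : ℂ))) = ((N : ℂ) ^ k) • evl A := by
    rw [hmA, evl_smul]
  rw [hd, he]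
  set s : ℂ := ((N : ℂ) ^ k * (N : ℂ)) ^ k with hsdef
  set s' : ℂ := (N : ℂ) ^ k with hs'def
  refine ⟨?_, ?_, ?_, ?_, c * ‖s‖ * ‖s'‖, ?_, ?_⟩
  · have h1 : ‖s • dform (phi h2 A B) - s • dform (eJ ℂ h2)‖
        = ‖s‖ * ‖dform (phi h2 A B) - dform (eJ ℂ h2)‖ :=
      (congrArg norm (smul_sub s (dform (phi h2 A B)) (dform (eJ ℂ h2))).symm).trans (norm_smul _ _)
    rw [h1, mul_comm]
    exact mul_le_mul_of_nonneg_right e1 (norm_nonneg _)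
  · have h1 : ‖s' • evl A - s' • evl (eI ℂ h2)‖ = ‖s'‖ * ‖evl A - evl (eI ℂ h2)‖ :=
      f3_norm (W := Form n k) s' (evl A) (evl (eI ℂ h2))
    rw [h1, mul_comm]
    exact mul_le_mul_of_nonneg_right e2 (norm_nonneg _)
  · change s' • evl A (dform (eJ ℂ h2)) ≠ 0
    rw [evl_dform]
    exact smul_ne_zero hs' e3
  · rw [map_smul, evl_dform]
    exact smul_ne_zero hs e4
  · exact mul_pos (mul_pos hc (norm_pos_iff.mpr hs)) (norm_pos_iff.mpr hs')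
  · intro m hm
    have e6 := e5 m hm
    have hval : (s' • evl A) (op k (cm (g ^ m)) (s • dform (phi h2 A B)))
        = s' • (s • ((phi h2 A B)ᵀ * cm (g ^ m) * A).det) := by
      rw [map_smul, ← evl_op_dform]
      change s' • evl A (s • op k (cm (g ^ m)) (dform (phi h2 A B))) = _
      rw [map_smul]
    rw [hval, norm_smul, norm_smul]
    calc c * ‖s‖ * ‖s'‖ * ‖op k (cm (g ^ m))‖
        = ‖s'‖ * (‖s‖ * (c * ‖op k (cm (g ^ m))‖)) := by ring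
      _ ≤ ‖s'‖ * (‖s‖ * ‖((phi h2 A B)ᵀ * cm (g ^ m) * A).det‖) := by
          gcongr

end H60T
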