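import Pool.Agent.Lib.H60T.Q2
import Pool.Agent.Lib.H60T.B1
import Pool.Agent.Lib.H93I.Defs

/-! # H60T, chunk Q3 (M): elements of `SL_4(ℤ)` without a gap in the middle are tame

`H93I.Tame g` : every eigenvalue `z` of largest or of smallest modulus satisfies `z ^ N = ‖z‖ ^ N` for some `N > 0`.
Facts: `H93I.eig g` is the set of elements of `eigs g` (`Matrix.mem_spectrum_iff_isRoot_charpoly`, `mem_roots`; `H93I.eig g` is the spectrum of the same complex
matrix).  `eigs g` is the multiset of roots of `p.map` with `p = charpoly` of the integral matrix (`Matrix.charpoly_map`), `p.coeff 0 = det = 1`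
(`Matrix.det_eq_sign_charpoly_coeff`, dimension `4`), `p` monic.
PROOF.  `z` from `exists_sorted` (`n = 4`).  `¬ Gap g 2` and `gap_of_lt` give `‖z 1‖ = ‖z 2‖`.
(i) `‖z 1‖ < ‖z 0‖` and `‖z 3‖ < ‖z 2‖`: the only eigenvalue of largest modulus is `z 0`; its conjugate is an eigenvalue of the same modulus, so `z 0` is real, and
`z 0 ^ 2 = ‖z 0‖ ^ 2`; the same for `z 3`.
(ii) `‖z 0‖ = ‖z 1‖`, `‖z 3‖ < ‖z 2‖`: `three_one` for `z 0, z 1, z 2, z 3`: all eigenvalues are real, so `N = 2`.
(iii) `‖z 1‖ < ‖z 0‖`, `‖z 2‖ = ‖z 3‖`: `three_one` for `z 1, z 2, z 3, z 0`.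
(iv) all moduli equal: their product is `‖det‖ = 1`, so all are `1`, and `kronecker` gives `z ^ N = 1 = ‖z‖ ^ N`. -/

namespace H60T

open Polynomial

theorem q3_map (g : SLZ 4) : (cm g).charpoly =
    ((g : Matrix (Fin 4) (Fin 4) ℤ).charpoly).map (Int.castRingHom ℂ) :=
  Matrix.charpoly_map (g : Matrix (Fin 4) (Fin 4) ℤ) (Int.castRingHom ℂ)

theorem q3_mem (g : SLZ 4) (z : ℂ) : z ∈ H93I.eig g ↔ z ∈ eigs g := by
  have h1 : z ∈ H93I.eig g ↔ (cm g).charpoly.IsRoot z := Matrix.mem_spectrum_iff_isRoot_charpoly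
  rw [h1, eigs, Polynomial.mem_roots (Matrix.charpoly_monic (cm g)).ne_zero]

theorem q3_conj (g : SLZ 4) (z : ℂ) (hz : z ∈ eigs g) : (starRingEnd ℂ) z ∈ eigs g := by
  rw [eigs, Polynomial.mem_roots (Matrix.charpoly_monic (cm g)).ne_zero] at hz ⊢
  have h1 := Polynomial.IsRoot.map (f := starRingEnd ℂ) hz
  rw [q3_map, Polynomial.map_map] at h1
  have h2 : (starRingEnd ℂ).comp (Int.castRingHom ℂ) = Int.castRingHom ℂ := RingHom.ext_int _ _
  rw [h2, ← q3_map] at h1
  exact h1

theorem q3_single (g : SLZ 4) (w : ℂ) (hw : w ∈ eigs g) (h : ∀ v ∈ eigs g, ‖v‖ = ‖w‖ → v = w) :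
    w.im = 0 := by
  have h1 := h _ (q3_conj g w hw) (by rw [RCLike.norm_conj])
  exact Complex.conj_eq_iff_im.1 h1

theorem q3_real (w : ℂ) (h : w.im = 0) : ∃ N : ℕ, 0 < N ∧ w ^ N = (‖w‖ : ℂ) ^ N := by
  refine ⟨2, by norm_num, ?_⟩
  have h1 : w = (w.re : ℂ) := by
    apply Complex.ext
    · rw [Complex.ofReal_re]
    · rw [Complex.ofReal_im, h]
  have h2 : ‖w‖ = |w.re| := by
    rw [h1, Complex.norm_real, Complex.ofReal_re, Real.norm_eq_abs]
  rw [h2, ← Complex.ofReal_pow, sq_abs, Complex.ofReal_pow, ← h1]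

theorem tame_of_not_gap (g : SLZ 4) (h : ¬ Gap g 2) : H93I.Tame g := by
  obtain ⟨z, hz, ha⟩ := exists_sorted g
  have hmem : ∀ w, w ∈ eigs g ↔ ∃ i, z i = w := by
    intro w
    rw [← hz, Multiset.mem_map]
    exact ⟨fun ⟨i, _, hi⟩ => ⟨i, hi⟩, fun ⟨i, hi⟩ => ⟨i, Finset.mem_univ_val i, hi⟩⟩
  have h01 : ‖z 1‖ ≤ ‖z 0‖ := ha (show (0 : Fin 4) ≤ 1 by decide)
  have h12' : ‖z 2‖ ≤ ‖z 1‖ := ha (show (1 : Fin 4) ≤ 2 by decide)
  have h23 : ‖z 3‖ ≤ ‖z 2‖ := ha (show (2 : Fin 4) ≤ 3 by decide)
  have h12 : ‖z 1‖ = ‖z 2‖ := by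
    refine le_antisymm ?_ h12'
    by_contra hlt
    push Not at hlt
    exact h (gap_of_lt g z hz ha 1 2 rfl hlt)
  have hall : ∀ i : Fin 4, i = 0 ∨ i = 1 ∨ i = 2 ∨ i = 3 := by decide
  have hm : ((g : Matrix (Fin 4) (Fin 4) ℤ).charpoly).Monic := Matrix.charpoly_monic _
  have hc0 : ((g : Matrix (Fin 4) (Fin 4) ℤ).charpoly).coeff 0 = 1 := by
    have h1 := Matrix.det_eq_sign_charpoly_coeff (g : Matrix (Fin 4) (Fin 4) ℤ)
    rw [g.2, Fintype.card_fin] at h1
    norm_num at h1
    exact h1.symm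
  have hroots : (((g : Matrix (Fin 4) (Fin 4) ℤ).charpoly).map (Int.castRingHom ℂ)).roots =
      {z 0, z 1, z 2, z 3} := by
    rw [← q3_map]
    have h1 : Multiset.map z Finset.univ.val = (cm g).charpoly.roots := hz
    rw [← h1]
    rfl
  have hfin : (∀ i : Fin 4, (z i).im = 0) → H93I.Tame g := by
    intro hr w hw _
    obtain ⟨i, rfl⟩ := (hmem w).1 ((q3_mem g w).1 hw)
    exact q3_real _ (hr i)
  rcases eq_or_lt_of_le h01 with e01 | l01
  · rcases eq_or_lt_of_le h23 with e23 | l23
    · -- all moduli are equal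
      have hr : ∀ i : Fin 4, ‖z i‖ = ‖z 0‖ := by
        intro i
        rcases hall i with rfl | rfl | rfl | rfl
        · rfl
        · exact e01
        · rw [← h12, e01]
        · rw [e23, ← h12, e01]
      have hprod : ‖z 0‖ ^ 4 = 1 := by
        have h1 := Matrix.det_eq_prod_roots_charpoly (cm g)
        have h2 : (cm g).charpoly.roots = {z 0, z 1, z 2, z 3} := by
          rw [q3_map]
          exact hroots
        have h3 : (cm g).det = 1 := by
          have h4 := RingHom.map_det (Int.castRingHom ℂ) (g : Matrix (Fin 4) (Fin 4) ℤ)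
          rw [g.2, map_one] at h4
          exact h4.symm
        rw [h2, h3] at h1
        have h5 : ({z 0, z 1, z 2, z 3} : Multiset ℂ).prod = z 0 * (z 1 * (z 2 * z 3)) := by
          rw [Multiset.insert_eq_cons, Multiset.insert_eq_cons, Multiset.insert_eq_cons,
            Multiset.prod_cons, Multiset.prod_cons, Multiset.prod_cons, Multiset.prod_singleton]
        rw [h5] at h1
        have h6 := congrArg norm h1
        rw [norm_one, norm_mul, norm_mul, norm_mul, hr 1, hr 2, hr 3] at h6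
        rw [h6]
        ring
      have h1 : ‖z 0‖ = 1 := by
        have h2 := pow_eq_one_iff_of_nonneg (norm_nonneg (z 0)) (show (4 : ℕ) ≠ 0 by norm_num)
        exact h2.1 hprod
      intro w hw _
      have hw' := (q3_mem g w).1 hw
      have hw1 : ‖w‖ = 1 := by
        obtain ⟨i, rfl⟩ := (hmem w).1 hw'
        rw [hr i, h1]
      obtain ⟨N, hN, hN'⟩ := kronecker _ hm (by
        intro v hv
        rw [← q3_map] at hv
        obtain ⟨i, rfl⟩ := (hmem v).1 hv
        rw [hr i, h1]) w (by
        rw [← q3_map]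
        exact hw')
      refine ⟨N, hN, ?_⟩
      rw [hN', hw1, Complex.ofReal_one, one_pow]
    · obtain ⟨t1, t2, t3, t4⟩ := three_one _ hm (Or.inl hc0) (z 0) (z 1) (z 2) (z 3) hroots
        e01.symm h12 (ne_of_lt l23)
      refine hfin fun i => ?_
      rcases hall i with rfl | rfl | rfl | rfl
      · exact t1
      · exact t2
      · exact t3
      · exact t4
  · rcases eq_or_lt_of_le h23 with e23 | l23
    · have hroots' : (((g : Matrix (Fin 4) (Fin 4) ℤ).charpoly).map (Int.castRingHom ℂ)).roots =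
          {z 1, z 2, z 3, z 0} := by
        rw [hroots]
        simp only [Multiset.insert_eq_cons]
        rw [Multiset.cons_swap (z 0) (z 1), Multiset.cons_swap (z 0) (z 2)]
        rw [← Multiset.singleton_add (z 0), ← Multiset.singleton_add (z 3), add_comm]
      obtain ⟨t1, t2, t3, t4⟩ := three_one _ hm (Or.inl hc0) (z 1) (z 2) (z 3) (z 0) hroots'
        h12 e23.symm (by rw [e23, ← h12]; exact ne_of_gt l01)
      refine hfin fun i => ?_
      rcases hall i with rfl | rfl | rfl | rfl
      · exact t4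
      · exact t1
      · exact t2
      · exact t3
    · intro w hw hext
      have hw' := (q3_mem g w).1 hw
      refine q3_real w (q3_single g w hw' ?_)
      obtain ⟨i, rfl⟩ := (hmem w).1 hw'
      intro v hv hvw
      obtain ⟨j, rfl⟩ := (hmem v).1 hv
      rcases hext with hext | hext
      · have h0 := hext (z 0) ((q3_mem g _).2 ((hmem _).2 ⟨0, rfl⟩))
        have hi0 : i = 0 := by
          rcases hall i with rfl | rfl | rfl | rfl
          · rfl
          · linarith
          · linarith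
          · linarith
        rw [hi0] at hvw ⊢
        rcases hall j with rfl | rfl | rfl | rfl
        · rfl
        · linarith
        · linarith
        · linarith
      · have h0 := hext (z 3) ((q3_mem g _).2 ((hmem _).2 ⟨3, rfl⟩))
        have hi0 : i = 3 := by
          rcases hall i with rfl | rfl | rfl | rfl
          · linarith
          · linarith
          · linarith
          · rfl
        rw [hi0] at hvw ⊢
        rcases hall j with rfl | rfl | rfl | rfl
        · linarith
        · linarith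
        · linarith
        · rfl

end H60T
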