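import Pool.Agent.Lib.H60T.Z1
import Pool.Agent.Lib.H60T.B3
import Pool.Agent.Lib.H60T.B4
import Pool.Agent.Lib.H60T.Q3
import Pool.Agent.Lib.H93I.Final

/-! # H60T, final theorems -/

namespace H60T

theorem even_main (m : ℕ) (hm : 2 ≤ m) :
    ∃ H H' : Subgroup (SLZ (2 * m)), H.index = 0 ∧ H'.index = 0 ∧
      ∀ g : SLZ (2 * m), NoThree g → ∃ x : SLZ (2 * m), x * g * x⁻¹ ∈ H ∨ x * g * x⁻¹ ∈ H' := by
  obtain ⟨H, hH, h1⟩ := exists_H (2 * m) m (by omega) le_rfl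
  obtain ⟨H', hH', h2⟩ := exists_H (2 * m) (m - 1) (by omega) (by omega)
  refine ⟨H, H', hH, hH', fun g hg => ?_⟩
  rcases even_case m hm g hg with h | ⟨h, h'⟩
  · obtain ⟨x, hx⟩ := h1 g h (by rwa [show 2 * m - m = m by omega])
    exact ⟨x, Or.inl hx⟩
  · obtain ⟨x, hx⟩ := h2 g h (by rwa [show 2 * m - (m - 1) = m + 1 by omega])
    exact ⟨x, Or.inr hx⟩

theorem odd_main (m : ℕ) (hm : 1 ≤ m) :
    ∃ H : Fin m → Subgroup (SLZ (2 * m + 1)), (∀ i, (H i).index = 0) ∧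
      ∀ g : SLZ (2 * m + 1), NoThree g → ¬ Exc g →
        ∃ (i : Fin m) (x : SLZ (2 * m + 1)), x * g * x⁻¹ ∈ H i := by
  choose H hH h1 using fun i : Fin m => exists_H (2 * m + 1) (i.1 + 1) (by omega) (by omega)
  refine ⟨H, hH, fun g hg he => ?_⟩
  rcases odd_case m hm g hg with ⟨k, hk, hkm, h, h'⟩ | h
  · obtain ⟨x, hx⟩ := h1 ⟨k - 1, by omega⟩ g (by
      show Gap g (k - 1 + 1)
      rwa [show k - 1 + 1 = k by omega]) (by
      show Gap g (2 * m + 1 - (k - 1 + 1))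
      rwa [show k - 1 + 1 = k by omega])
    exact ⟨_, x, hx⟩
  · exact absurd h he

/-- the family `H_1, …, H_{n/2}` and its consequence for elements without three equal moduli -/
theorem family_main (n : ℕ) (hn : 3 ≤ n) :
    ∃ H : ℕ → Subgroup (SLZ n),
      (∀ k, 1 ≤ k → 2 * k ≤ n → (H k).index = 0 ∧
        ∀ g : SLZ n, Gap g k → Gap g (n - k) → ∃ x : SLZ n, x * g * x⁻¹ ∈ H k) ∧
      ∀ g : SLZ n, NoThree g → ¬ (Odd n ∧ Exc g) →
        ∃ (k : ℕ) (x : SLZ n), 1 ≤ k ∧ 2 * k ≤ n ∧ (Even n → n ≤ 2 * k + 2) ∧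
          x * g * x⁻¹ ∈ H k := by
  classical
  have h0 : ∀ k : ℕ, ∃ H : Subgroup (SLZ n), 1 ≤ k → 2 * k ≤ n → H.index = 0 ∧
      ∀ g : SLZ n, Gap g k → Gap g (n - k) → ∃ x : SLZ n, x * g * x⁻¹ ∈ H := by
    intro k
    by_cases h : 1 ≤ k ∧ 2 * k ≤ n
    · obtain ⟨H, hH⟩ := exists_H n k h.1 h.2
      exact ⟨H, fun _ _ => hH⟩
    · exact ⟨⊤, fun h1 h2 => absurd ⟨h1, h2⟩ h⟩
  choose H hH using h0
  refine ⟨H, hH, fun g h3 hE => ?_⟩
  rcases Nat.even_or_odd' n with ⟨m, hm | hm⟩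
  · subst hm
    rcases even_case m (by omega) g h3 with h | ⟨h, h'⟩
    · obtain ⟨x, hx⟩ := (hH m (by omega) (by omega)).2 g h (by rwa [show 2 * m - m = m by omega])
      exact ⟨m, x, by omega, by omega, fun _ => by omega, hx⟩
    · obtain ⟨x, hx⟩ := (hH (m - 1) (by omega) (by omega)).2 g h
        (by rwa [show 2 * m - (m - 1) = m + 1 by omega])
      exact ⟨m - 1, x, by omega, by omega, fun _ => by omega, hx⟩
  · subst hm
    rcases odd_case m (by omega) g h3 with ⟨k, hk, hkm, h, h'⟩ | h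
    · obtain ⟨x, hx⟩ := (hH k hk (by omega)).2 g h h'
      refine ⟨k, x, hk, by omega, fun he => ?_, hx⟩
      exact absurd he (by rw [Nat.not_even_iff_odd]; exact ⟨m, rfl⟩)
    · exact absurd ⟨⟨m, rfl⟩, h⟩ hE

theorem four_main :
    ∃ H H' : Subgroup (SLZ 4), H.index = 0 ∧ H'.index = 0 ∧
      ∀ g : SLZ 4, ∃ x : SLZ 4, x * g * x⁻¹ ∈ H ∨ x * g * x⁻¹ ∈ H' := by
  obtain ⟨H, hH, h1⟩ := exists_H 4 2 (by omega) (by omega)
  obtain ⟨H', hH', h2⟩ := H93I.main (n := 4) (by omega)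
  refine ⟨H, H', hH, hH', fun g => ?_⟩
  by_cases h : Gap g 2
  · obtain ⟨x, hx⟩ := h1 g h h
    exact ⟨x, Or.inl hx⟩
  · obtain ⟨x, hx⟩ := h2 g (tame_of_not_gap g h)
    exact ⟨x, Or.inr hx⟩

end H60T
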