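import Pool.Agent.Lib.H60T.Defs

/-! # H60T, chunk P1 (M): closure properties of polynomial functions

All immediate from the ring operations of `MvPolynomial σ ℂ` (`MvPolynomial.C`, `X`, `+`, `*`, `∑`, `∏`, `eval` is a ring hom).
`PolyFn.det`: choose a polynomial for every entry, take the determinant of the matrix of polynomials (`RingHom.map_det`).
`PolyFn.adjugate`: entries of the adjugate, `RingHom.map_adjugate`.
`PolyFn.mul_entry`: entries of a matrix product.
`PolyFn.nz_mul`: if `F ≠ 0` at `x` and `G ≠ 0` at `y` then `F * G ≠ 0` at some point: the polynomials are not zero, `MvPolynomial σ ℂ` is a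
domain, `MvPolynomial.funext` (infinite field). -/

namespace H60T

open Matrix

variable {σ : Type*}

theorem PolyFn.const (c : ℂ) : PolyFn (fun _ : σ → ℂ => c) :=
  ⟨MvPolynomial.C c, fun x => by rw [MvPolynomial.eval_C]⟩

theorem PolyFn.coord (i : σ) : PolyFn (fun x : σ → ℂ => x i) :=
  ⟨MvPolynomial.X i, fun x => by rw [MvPolynomial.eval_X]⟩

theorem PolyFn.add {F G : (σ → ℂ) → ℂ} (hF : PolyFn F) (hG : PolyFn G) :
    PolyFn (fun x => F x + G x) := by
  obtain ⟨P, hP⟩ := hF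
  obtain ⟨Q, hQ⟩ := hG
  exact ⟨P + Q, fun x => by rw [map_add, ← hP, ← hQ]⟩

theorem PolyFn.sub {F G : (σ → ℂ) → ℂ} (hF : PolyFn F) (hG : PolyFn G) :
    PolyFn (fun x => F x - G x) := by
  obtain ⟨P, hP⟩ := hF
  obtain ⟨Q, hQ⟩ := hG
  exact ⟨P - Q, fun x => by rw [map_sub, ← hP, ← hQ]⟩

theorem PolyFn.mul {F G : (σ → ℂ) → ℂ} (hF : PolyFn F) (hG : PolyFn G) :
    PolyFn (fun x => F x * G x) := by
  obtain ⟨P, hP⟩ := hF
  obtain ⟨Q, hQ⟩ := hG
  exact ⟨P * Q, fun x => by rw [map_mul, ← hP, ← hQ]⟩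

theorem PolyFn.sum {ι : Type*} (s : Finset ι) {F : ι → (σ → ℂ) → ℂ} (hF : ∀ i ∈ s, PolyFn (F i)) :
    PolyFn (fun x => ∑ i ∈ s, F i x) := by
  classical
  induction s using Finset.induction_on with
  | empty =>
    have h : (fun x : σ → ℂ => ∑ i ∈ (∅ : Finset ι), F i x) = fun _ => 0 := by
      funext x
      rw [Finset.sum_empty]
    rw [h]
    exact PolyFn.const 0
  | insert a s ha ih =>
    have h : (fun x : σ → ℂ => ∑ i ∈ insert a s, F i x) = fun x => F a x + ∑ i ∈ s, F i x := by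
      funext x
      rw [Finset.sum_insert ha]
    rw [h]
    exact PolyFn.add (hF a (Finset.mem_insert_self a s))
      (ih fun i hi => hF i (Finset.mem_insert_of_mem hi))

theorem PolyFn.prod {ι : Type*} (s : Finset ι) {F : ι → (σ → ℂ) → ℂ}
    (hF : ∀ i ∈ s, PolyFn (F i)) : PolyFn (fun x => ∏ i ∈ s, F i x) := by
  classical
  induction s using Finset.induction_on with
  | empty =>
    have h : (fun x : σ → ℂ => ∏ i ∈ (∅ : Finset ι), F i x) = fun _ => 1 := by
      funext x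
      rw [Finset.prod_empty]
    rw [h]
    exact PolyFn.const 1
  | insert a s ha ih =>
    have h : (fun x : σ → ℂ => ∏ i ∈ insert a s, F i x) = fun x => F a x * ∏ i ∈ s, F i x := by
      funext x
      rw [Finset.prod_insert ha]
    rw [h]
    exact PolyFn.mul (hF a (Finset.mem_insert_self a s))
      (ih fun i hi => hF i (Finset.mem_insert_of_mem hi))

/-- a matrix of polynomials -/
theorem p1_mat {l r : Type*} {N : (σ → ℂ) → Matrix l r ℂ}
    (hN : ∀ i j, PolyFn (fun x => N x i j)) :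
    ∃ P : Matrix l r (MvPolynomial σ ℂ), ∀ x, N x = P.map (MvPolynomial.eval x) := by
  choose P hP using hN
  refine ⟨Matrix.of P, fun x => ?_⟩
  ext i j
  rw [Matrix.map_apply, Matrix.of_apply]
  exact hP i j x

theorem PolyFn.det {m : Type*} [Fintype m] [DecidableEq m] {N : (σ → ℂ) → Matrix m m ℂ}
    (hN : ∀ i j, PolyFn (fun x => N x i j)) : PolyFn (fun x => (N x).det) := by
  obtain ⟨P, hP⟩ := p1_mat hN
  refine ⟨P.det, fun x => ?_⟩
  rw [RingHom.map_det, RingHom.mapMatrix_apply, ← hP x]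

theorem PolyFn.adjugate {m : Type*} [Fintype m] [DecidableEq m] {N : (σ → ℂ) → Matrix m m ℂ}
    (hN : ∀ i j, PolyFn (fun x => N x i j)) (i j : m) : PolyFn (fun x => (N x).adjugate i j) := by
  obtain ⟨P, hP⟩ := p1_mat hN
  refine ⟨P.adjugate i j, fun x => ?_⟩
  have h := RingHom.map_adjugate (MvPolynomial.eval x) P
  rw [RingHom.mapMatrix_apply, RingHom.mapMatrix_apply] at h
  have h2 : (N x).adjugate i j = (P.adjugate.map (MvPolynomial.eval x)) i j := by
    rw [hP x, h]
  exact h2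

theorem PolyFn.mul_entry {l m r : Type*} [Fintype m] {N : (σ → ℂ) → Matrix l m ℂ}
    {N' : (σ → ℂ) → Matrix m r ℂ} (hN : ∀ i j, PolyFn (fun x => N x i j))
    (hN' : ∀ i j, PolyFn (fun x => N' x i j)) (i : l) (j : r) :
    PolyFn (fun x => (N x * N' x) i j) := by
  have h : (fun x : σ → ℂ => (N x * N' x) i j) = fun x => ∑ a ∈ Finset.univ, N x i a * N' x a j := by
    funext x
    rw [Matrix.mul_apply]
  rw [h]
  exact PolyFn.sum _ fun a _ => PolyFn.mul (hN i a) (hN' a j)

theorem PolyFn.nz_mul {F G : (σ → ℂ) → ℂ} (hF : PolyFn F) (hG : PolyFn G) {x y : σ → ℂ}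
    (hx : F x ≠ 0) (hy : G y ≠ 0) : ∃ w, F w ≠ 0 ∧ G w ≠ 0 := by
  obtain ⟨P, hP⟩ := hF
  obtain ⟨Q, hQ⟩ := hG
  have hP0 : P ≠ 0 := by
    rintro rfl
    exact hx (by rw [hP x, map_zero])
  have hQ0 : Q ≠ 0 := by
    rintro rfl
    exact hy (by rw [hQ y, map_zero])
  by_contra hno
  push Not at hno
  refine mul_ne_zero hP0 hQ0 (MvPolynomial.funext fun w => ?_)
  rw [map_mul, map_zero, ← hP w, ← hQ w]
  by_cases h : F w = 0
  · rw [h, zero_mul]
  · rw [hno w h, mul_zero]

end H60T
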