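import Pool.Agent.Lib.H60T.T1
import Pool.Agent.Lib.H60T.P1

/-! # H60T, chunk P3 (S/M): the parametrisation `phi`

`d = det (e_Iᵀ A)`, `phi A B = d B - e_I adj(e_Iᵀ A)ᵀ Aᵀ B`.
`phi_mul`: `(phi A B)ᵀ A = d Bᵀ A - Bᵀ A adj(A_I) e_Iᵀ A = d Bᵀ A - Bᵀ A (adj(A_I) A_I) = 0` (`Matrix.adjugate_mul`).
`phi_of_orth`: `Bᵀ A = 0` implies `Aᵀ B = 0`, so `phi A B = d B`.
`phi_base`: `A = e_I`, `B = e_J`: `d = det 1 = 1`, `e_Iᵀ e_J = 0` (`eI_eI`, `eI_eJ`).
`phi_map`: `phi` commutes with ring homs applied to the entries (here `ℤ → ℂ`; `RingHom.map_det`, `RingHom.map_adjugate`).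
`phi_smul`: `phi (c A) (c' B) = c^k c' phi A B` for `1 ≤ k`: `det (c N) = c^k det N`, `adj (c N) = c^(k-1) adj N`
(`Matrix.det_smul`, `Matrix.adjugate_smul`).
`phi_poly`: every entry of `phi (mA x) (mB x)` is a polynomial function of `x`.
`phi_cont`: `(A, B) ↦ phi A B` is continuous (over `ℂ`). -/

namespace H60T

open Matrix

variable {n k : ℕ}

theorem phi_mul {R : Type*} [CommRing R] (h2 : 2 * k ≤ n) (A B : Matrix (Fin n) (Fin k) R) :
    (phi h2 A B)ᵀ * A = 0 := by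
  unfold phi
  rw [Matrix.transpose_sub, Matrix.transpose_smul, Matrix.transpose_mul, Matrix.transpose_mul,
    Matrix.transpose_mul, Matrix.transpose_transpose, Matrix.transpose_transpose, Matrix.sub_mul,
    Matrix.smul_mul]
  have h1 : Bᵀ * (A * (((eI R h2)ᵀ * A).adjugate * (eI R h2)ᵀ)) * A
      = Bᵀ * A * (((eI R h2)ᵀ * A).adjugate * ((eI R h2)ᵀ * A)) := by
    simp only [Matrix.mul_assoc]
  rw [h1, Matrix.adjugate_mul, Matrix.mul_smul, Matrix.mul_one, sub_self]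

theorem phi_of_orth {R : Type*} [CommRing R] (h2 : 2 * k ≤ n) (A B : Matrix (Fin n) (Fin k) R)
    (h : Bᵀ * A = 0) : phi h2 A B = ((eI R h2)ᵀ * A).det • B := by
  unfold phi
  have h1 : Aᵀ * B = 0 := by
    have h3 : (Bᵀ * A)ᵀ = 0 := by rw [h, Matrix.transpose_zero]
    rwa [Matrix.transpose_mul, Matrix.transpose_transpose] at h3
  rw [Matrix.mul_assoc _ Aᵀ B, h1, Matrix.mul_zero, sub_zero]

theorem phi_base {R : Type*} [CommRing R] (h2 : 2 * k ≤ n) : phi h2 (eI R h2) (eJ R h2) = eJ R h2 := by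
  rw [phi_of_orth h2 _ _ (eJ_eI h2), eI_eI, Matrix.det_one, one_smul]

theorem p3_eI_map (h2 : 2 * k ≤ n) :
    (eI ℤ h2).map (Int.castRingHom ℂ) = eI ℂ h2 := by
  ext i a
  rw [Matrix.map_apply]
  unfold eI
  rw [Matrix.of_apply, Matrix.of_apply]
  split_ifs <;> simp

theorem phi_map (h2 : 2 * k ≤ n) (A B : Matrix (Fin n) (Fin k) ℤ) :
    (phi h2 A B).map (fun a : ℤ => (a : ℂ))
      = phi h2 (A.map (fun a : ℤ => (a : ℂ))) (B.map (fun a : ℤ => (a : ℂ))) := by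
  have key : (phi h2 A B).map (Int.castRingHom ℂ)
      = phi h2 (A.map (Int.castRingHom ℂ)) (B.map (Int.castRingHom ℂ)) := by
    have hN : ((eI ℤ h2)ᵀ * A).map (Int.castRingHom ℂ)
        = (eI ℂ h2)ᵀ * A.map (Int.castRingHom ℂ) := by
      rw [Matrix.map_mul, Matrix.transpose_map, p3_eI_map]
    have hdet : (Int.castRingHom ℂ) ((eI ℤ h2)ᵀ * A).det
        = ((eI ℂ h2)ᵀ * A.map (Int.castRingHom ℂ)).det := by
      rw [RingHom.map_det, RingHom.mapMatrix_apply, hN]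
    have hadj : (((eI ℤ h2)ᵀ * A).adjugate).map (Int.castRingHom ℂ)
        = ((eI ℂ h2)ᵀ * A.map (Int.castRingHom ℂ)).adjugate := by
      have h := (Int.castRingHom ℂ).map_adjugate ((eI ℤ h2)ᵀ * A)
      rw [RingHom.mapMatrix_apply, RingHom.mapMatrix_apply, hN] at h
      exact h
    unfold phi
    rw [Matrix.map_sub _ (fun a b => map_sub _ a b), Matrix.map_mul, Matrix.map_mul, Matrix.map_mul,
      p3_eI_map, Matrix.transpose_map, hadj, Matrix.transpose_map]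
    congr 1
    ext i a
    rw [Matrix.map_apply, Matrix.smul_apply, Matrix.smul_apply, Matrix.map_apply, smul_eq_mul,
      smul_eq_mul, map_mul, hdet]
  exact key

theorem phi_smul {R : Type*} [CommRing R] (h2 : 2 * k ≤ n) (hk : 1 ≤ k) (c c' : R)
    (A B : Matrix (Fin n) (Fin k) R) : phi h2 (c • A) (c' • B) = (c ^ k * c') • phi h2 A B := by
  unfold phi
  have hc : c ^ (k - 1) * c = c ^ k := by
    rw [← pow_succ]
    congr 1
    omega
  rw [Matrix.mul_smul (eI R h2)ᵀ c A, Matrix.det_smul, Matrix.adjugate_smul, Fintype.card_fin,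
    Matrix.transpose_smul, Matrix.transpose_smul, smul_sub]
  congr 1
  · rw [smul_smul, smul_smul]
    congr 1
    ring
  · simp only [Matrix.mul_smul, Matrix.smul_mul, smul_smul]
    congr 1
    rw [← hc]
    ring

theorem phi_poly (h2 : 2 * k ≤ n) (i : Fin n) (a : Fin k) :
    PolyFn (fun x : Sg n k → ℂ => phi h2 (mA x) (mB x) i a) := by
  have hA : ∀ i a, PolyFn (fun x : Sg n k → ℂ => mA x i a) := fun i a =>
    PolyFn.coord ((false, i, a) : Sg n k)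
  have hB : ∀ i a, PolyFn (fun x : Sg n k → ℂ => mB x i a) := fun i a =>
    PolyFn.coord ((true, i, a) : Sg n k)
  have hN : ∀ a b, PolyFn (fun x : Sg n k → ℂ => ((eI ℂ h2)ᵀ * mA x) a b) := fun a b =>
    PolyFn.mul_entry (N := fun _ => (eI ℂ h2)ᵀ) (N' := fun x => mA x)
      (fun i j => PolyFn.const _) hA a b
  have hdet : PolyFn (fun x : Sg n k → ℂ => ((eI ℂ h2)ᵀ * mA x).det) := PolyFn.det hN
  have hadj : ∀ a b, PolyFn (fun x : Sg n k → ℂ => (((eI ℂ h2)ᵀ * mA x).adjugate)ᵀ a b) :=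
    fun a b => PolyFn.adjugate hN b a
  have h1 : ∀ i b, PolyFn (fun x : Sg n k → ℂ =>
      (eI ℂ h2 * (((eI ℂ h2)ᵀ * mA x).adjugate)ᵀ) i b) := fun i b =>
    PolyFn.mul_entry (N := fun _ => eI ℂ h2) (N' := fun x => (((eI ℂ h2)ᵀ * mA x).adjugate)ᵀ)
      (fun i j => PolyFn.const _) hadj i b
  have h3 : ∀ i j, PolyFn (fun x : Sg n k → ℂ =>
      (eI ℂ h2 * (((eI ℂ h2)ᵀ * mA x).adjugate)ᵀ * (mA x)ᵀ) i j) := fun i j =>
    PolyFn.mul_entry (N := fun x => eI ℂ h2 * (((eI ℂ h2)ᵀ * mA x).adjugate)ᵀ)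
      (N' := fun x => (mA x)ᵀ) h1 (fun a j => hA j a) i j
  have h4 : PolyFn (fun x : Sg n k → ℂ =>
      (eI ℂ h2 * (((eI ℂ h2)ᵀ * mA x).adjugate)ᵀ * (mA x)ᵀ * mB x) i a) :=
    PolyFn.mul_entry (N := fun x => eI ℂ h2 * (((eI ℂ h2)ᵀ * mA x).adjugate)ᵀ * (mA x)ᵀ)
      (N' := fun x => mB x) h3 hB i a
  exact (hdet.mul (hB i a)).sub h4

theorem phi_cont (h2 : 2 * k ≤ n) :
    Continuous (fun p : Matrix (Fin n) (Fin k) ℂ × Matrix (Fin n) (Fin k) ℂ => phi h2 p.1 p.2) := by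
  unfold phi
  have hN : Continuous (fun p : Matrix (Fin n) (Fin k) ℂ × Matrix (Fin n) (Fin k) ℂ =>
      (eI ℂ h2)ᵀ * p.1) := continuous_const.matrix_mul continuous_fst
  have h1 : Continuous (fun p : Matrix (Fin n) (Fin k) ℂ × Matrix (Fin n) (Fin k) ℂ =>
      ((eI ℂ h2)ᵀ * p.1).det • p.2) := hN.matrix_det.smul continuous_snd
  have h3 : Continuous (fun p : Matrix (Fin n) (Fin k) ℂ × Matrix (Fin n) (Fin k) ℂ =>
      eI ℂ h2 * (((eI ℂ h2)ᵀ * p.1).adjugate)ᵀ * p.1ᵀ * p.2) :=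
    ((continuous_const.matrix_mul hN.matrix_adjugate.matrix_transpose).matrix_mul
      continuous_fst.matrix_transpose).matrix_mul continuous_snd
  exact h1.sub h3

end H60T
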