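import Pool.Agent.Lib.H60T.P3

/-! # H60T, chunk P4 (M): points of the parametrisation with prescribed transversality

`left_inv`: a matrix with linearly independent columns has a left inverse (index type `Fin k ⊕ Fin k`; `Matrix.vecMul`/`LinearMap.exists_leftInverse_of_injective`
for `mulVecLin`, `Matrix.mulVec_injective_iff`).
`exists_pt`: let `V` be as in the hypothesis and `D` a left inverse of the matrix `[V | N V + U]`.  The functions
`F₁ x = det (e_Iᵀ (mA x))` and `F₂ x = det (D * [mA x | N (mA x) + U])` (a `(Fin k ⊕ Fin k)`-square matrix) are polynomial functions, `F₁ ≠ 0` at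
a point with `mA = e_I` (`eI_eI`), `F₂ = 1` at a point with `mA = V`.  By `PolyFn.nz_mul` there is `A = mA w` with
`det (e_Iᵀ A) ≠ 0` and `D' * [A | N A + U] = 1` for some `D'` (a multiple of `adj * D`).  Let `Bᵀ` be the second block of rows of `D'`:
`Bᵀ A = 0`, `Bᵀ (N A + U) = 1`.  By `phi_of_orth`, `phi A B = d • B`, `d = det (e_Iᵀ A) ≠ 0`, and
`(phi A B)ᵀ (N A + U) = d • 1` has determinant `d ^ k ≠ 0`. -/

namespace H60T

open Matrix

variable {n k : ℕ}

theorem p4_left_inv {m : Type*} [Fintype m] [DecidableEq m] (M : Matrix (Fin n) m ℂ)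
    (hM : LinearIndependent ℂ M.col) : ∃ D : Matrix m (Fin n) ℂ, D * M = 1 := by
  have hinj : Function.Injective M.mulVec := Matrix.mulVec_injective_iff.2 hM
  have hker : LinearMap.ker M.mulVecLin = ⊥ := by
    rw [LinearMap.ker_eq_bot]
    exact hinj
  obtain ⟨g, hg⟩ := LinearMap.exists_leftInverse_of_injective M.mulVecLin hker
  refine ⟨LinearMap.toMatrix' g, ?_⟩
  have h1 : LinearMap.toMatrix' (g ∘ₗ M.mulVecLin) = LinearMap.toMatrix' g * M := by
    rw [LinearMap.toMatrix'_comp]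
    congr 1
    exact LinearMap.toMatrix'_toLin' M
  rw [← h1, hg, LinearMap.toMatrix'_id]

theorem p4_poly_mA (i : Fin n) (a : Fin k) : PolyFn (fun x : Sg n k → ℂ => mA x i a) :=
  PolyFn.coord (false, i, a)

theorem exists_pt (h2 : 2 * k ≤ n) (N : Matrix (Fin n) (Fin n) ℂ) (U V : Matrix (Fin n) (Fin k) ℂ)
    (hV : LinearIndependent ℂ (Sum.elim V.col (N * V + U).col)) :
    ∃ x : Sg n k → ℂ, ((phi h2 (mA x) (mB x))ᵀ * (N * mA x + U)).det ≠ 0 := by
  have hcol : (Matrix.fromCols V (N * V + U)).col = Sum.elim V.col (N * V + U).col := by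
    funext j
    cases j <;> rfl
  obtain ⟨D, hD⟩ := p4_left_inv (Matrix.fromCols V (N * V + U)) (by rw [hcol]; exact hV)
  -- the two polynomial functions
  have hF1 : PolyFn (fun x : Sg n k → ℂ => ((eI ℂ h2)ᵀ * mA x).det) := by
    refine PolyFn.det (N := fun x : Sg n k → ℂ => (eI ℂ h2)ᵀ * mA x) fun i j => ?_
    exact PolyFn.mul_entry (N := fun _ : Sg n k → ℂ => (eI ℂ h2)ᵀ) (N' := fun x => mA x)
      (fun i j => PolyFn.const _) (fun i j => p4_poly_mA i j) i j
  have hNA : ∀ (i : Fin n) (a : Fin k), PolyFn (fun x : Sg n k → ℂ => (N * mA x + U) i a) := by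
    intro i a
    have h1 := PolyFn.mul_entry (N := fun _ : Sg n k → ℂ => N) (N' := fun x : Sg n k → ℂ => mA x)
      (fun i j => PolyFn.const _) (fun i j => p4_poly_mA i j) i a
    exact PolyFn.add h1 (PolyFn.const (U i a))
  have hF2 : PolyFn (fun x : Sg n k → ℂ =>
      (D * Matrix.fromCols (mA x) (N * mA x + U)).det) := by
    refine PolyFn.det (N := fun x : Sg n k → ℂ => D * Matrix.fromCols (mA x) (N * mA x + U))
      fun i j => ?_
    refine PolyFn.mul_entry (N := fun _ : Sg n k → ℂ => D)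
      (N' := fun x : Sg n k → ℂ => Matrix.fromCols (mA x) (N * mA x + U))
      (fun i j => PolyFn.const _) (fun i j => ?_) i j
    cases j with
    | inl a => exact p4_poly_mA i a
    | inr a => exact hNA i a
  have hx1 : (fun x : Sg n k → ℂ => ((eI ℂ h2)ᵀ * mA x).det)
      (fun s => if s.1 then 0 else eI ℂ h2 s.2.1 s.2.2) ≠ 0 := by
    have h1 : mA (fun s : Sg n k => if s.1 then 0 else eI ℂ h2 s.2.1 s.2.2) = eI ℂ h2 := by
      ext i a
      simp [mA]
    change ((eI ℂ h2)ᵀ * mA (fun s : Sg n k => if s.1 then 0 else eI ℂ h2 s.2.1 s.2.2)).det ≠ 0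
    rw [h1, eI_eI, Matrix.det_one]
    exact one_ne_zero
  have hx2 : (fun x : Sg n k → ℂ => (D * Matrix.fromCols (mA x) (N * mA x + U)).det)
      (fun s => if s.1 then 0 else V s.2.1 s.2.2) ≠ 0 := by
    have h1 : mA (fun s : Sg n k => if s.1 then 0 else V s.2.1 s.2.2) = V := by
      ext i a
      simp [mA]
    change (D * Matrix.fromCols (mA (fun s : Sg n k => if s.1 then 0 else V s.2.1 s.2.2))
      (N * mA (fun s : Sg n k => if s.1 then 0 else V s.2.1 s.2.2) + U)).det ≠ 0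
    rw [h1, hD, Matrix.det_one]
    exact one_ne_zero
  obtain ⟨w, hw1, hw2⟩ := PolyFn.nz_mul hF1 hF2 hx1 hx2
  obtain ⟨A, hA⟩ : ∃ A : Matrix (Fin n) (Fin k) ℂ, A = mA w := ⟨_, rfl⟩
  have hw1' : ((eI ℂ h2)ᵀ * A).det ≠ 0 := by rw [hA]; exact hw1
  have hw2' : (D * Matrix.fromCols A (N * A + U)).det ≠ 0 := by rw [hA]; exact hw2
  obtain ⟨D', hD'⟩ : ∃ D' : Matrix (Fin k ⊕ Fin k) (Fin n) ℂ,
      D' * Matrix.fromCols A (N * A + U) = 1 := by
    refine ⟨(D * Matrix.fromCols A (N * A + U))⁻¹ * D, ?_⟩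
    rw [Matrix.mul_assoc]
    exact Matrix.nonsing_inv_mul _ (isUnit_iff_ne_zero.2 hw2')
  obtain ⟨B, hB⟩ : ∃ B : Matrix (Fin n) (Fin k) ℂ, B = Matrix.of fun i a => D' (Sum.inr a) i :=
    ⟨_, rfl⟩
  have hBA : Bᵀ * A = 0 := by
    ext a b
    have h1 := congrFun (congrFun hD' (Sum.inr a)) (Sum.inl b)
    rw [Matrix.mul_apply, Matrix.one_apply_ne (by simp)] at h1
    rw [Matrix.mul_apply, Matrix.zero_apply, ← h1]
    refine Finset.sum_congr rfl fun i _ => ?_
    rw [hB]
    rfl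
  have hBU : Bᵀ * (N * A + U) = 1 := by
    ext a b
    have h1 := congrFun (congrFun hD' (Sum.inr a)) (Sum.inr b)
    rw [Matrix.mul_apply] at h1
    rw [Matrix.mul_apply]
    have h2' : (1 : Matrix (Fin k ⊕ Fin k) (Fin k ⊕ Fin k) ℂ) (Sum.inr a) (Sum.inr b)
        = (1 : Matrix (Fin k) (Fin k) ℂ) a b := by
      rw [Matrix.one_apply, Matrix.one_apply]
      simp
    rw [← h2', ← h1]
    refine Finset.sum_congr rfl fun i _ => ?_
    rw [hB]
    rfl
  refine ⟨fun s => if s.1 then B s.2.1 s.2.2 else A s.2.1 s.2.2, ?_⟩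
  have e1 : mA (fun s : Sg n k => if s.1 then B s.2.1 s.2.2 else A s.2.1 s.2.2) = A := by
    ext i a
    simp [mA]
  have e2 : mB (fun s : Sg n k => if s.1 then B s.2.1 s.2.2 else A s.2.1 s.2.2) = B := by
    ext i a
    simp [mB]
  rw [e1, e2, phi_of_orth h2 A B hBA, Matrix.transpose_smul, Matrix.smul_mul, hBU, Matrix.det_smul,
    Matrix.det_one, mul_one]
  exact pow_ne_zero _ hw1'

end H60T
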