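import Mathlib

/-! # H60T, chunk Q1 (M): a Galois argument

`Q1_conj`: PROOF.  `q = minpoly ℚ r` divides `p` (over `ℚ`), and `q` is the image of the monic integral polynomial `q₀ = minpoly ℤ r`
(`minpoly.isIntegrallyClosed_eq_field_fractions'`; `r` is integral as a root of the monic `p`); `q₀ ∣ p` in `ℤ[X]` (`minpoly.isIntegrallyClosed_dvd`), so
`q₀.coeff 0 ∣ p.coeff 0`, hence `|q₀.coeff 0| = 1`.  The product of the complex roots of `q₀` is `± q₀.coeff 0`, of modulus `1`; all of them are roots of `p`.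
If `w` were not a root of `q₀`, all these roots would have modulus `a`, so `a ^ (deg q₀) = 1` with `deg q₀ ≥ 1`, contradiction with `a ≠ 1`.
So `w` is a root of the irreducible monic `q`, hence `minpoly ℚ w = q`.
`Q1_aut`: two algebraic complex numbers with the same minimal polynomial are exchanged by a field automorphism of `K = algebraicClosure ℚ ℂ`
(an `IntermediateField ℚ ℂ`, normal over `ℚ` since algebraically closed and algebraic; `Normal.minpoly_eq_iff_mem_orbit`); the values on roots of `p`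
are roots of `p`.  Formulated with a map `τ` defined on `K`. -/

namespace H60T

open Polynomial

theorem q1_norm : Normal ℚ (algebraicClosure ℚ ℂ) :=
  @IsAlgClosure.normal ℚ _ _ _ _ (algebraicClosure.isAlgClosure ℚ ℂ)

theorem Q1_conj (p : ℤ[X]) (hp : p.Monic) (h0 : p.coeff 0 = 1 ∨ p.coeff 0 = -1) (r w : ℂ) {a : ℝ}
    (ha : a ≠ 1) (ha0 : 0 ≤ a) (hr : aeval r p = 0) (hw : aeval w p = 0)
    (h : ∀ v : ℂ, aeval v p = 0 → v ≠ w → ‖v‖ = a) : minpoly ℚ r = minpoly ℚ w := by
  by_cases hrw : r = w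
  · rw [hrw]
  have hri : IsIntegral ℤ r := ⟨p, hp, hr⟩
  have hd : minpoly ℤ r ∣ p := minpoly.isIntegrallyClosed_dvd hri hr
  have hm : (minpoly ℤ r).Monic := minpoly.monic hri
  have hc : ‖(((minpoly ℤ r).coeff 0 : ℤ) : ℂ)‖ = 1 := by
    obtain ⟨c, hc⟩ := hd
    have h1 : p.coeff 0 = (minpoly ℤ r).coeff 0 * c.coeff 0 := by
      conv_lhs => rw [hc]
      exact mul_coeff_zero _ _
    have h2 : IsUnit ((minpoly ℤ r).coeff 0) := by
      refine isUnit_of_mul_isUnit_left (y := c.coeff 0) ?_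
      rw [← h1]
      rcases h0 with h0 | h0
      · rw [h0]
        exact isUnit_one
      · rw [h0]
        exact isUnit_one.neg
    rcases Int.isUnit_iff.1 h2 with h3 | h3
    · rw [h3]
      simp
    · rw [h3]
      simp
  have hwq : aeval w (minpoly ℤ r) = 0 := by
    by_contra hwq
    set Q : ℂ[X] := (minpoly ℤ r).map (algebraMap ℤ ℂ) with hQ
    have hQm : Q.Monic := hm.map _
    have hroots : ∀ v ∈ Q.roots, ‖v‖ = a := by
      intro v hv
      rw [mem_roots hQm.ne_zero, IsRoot.def, hQ, eval_map_algebraMap] at hv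
      refine h v ?_ ?_
      · obtain ⟨c, hc⟩ := hd
        rw [hc, map_mul, hv, zero_mul]
      · intro hvw
        rw [hvw] at hv
        exact hwq hv
    have h1 : Q.coeff 0 = (-1) ^ Q.natDegree * Q.roots.prod :=
      (IsAlgClosed.splits Q).coeff_zero_eq_prod_roots_of_monic hQm
    have h2 : ‖Q.coeff 0‖ = 1 := by
      rw [hQ, coeff_map]
      exact hc
    have h3 : ∀ s : Multiset ℂ, (∀ v ∈ s, ‖v‖ = a) → ‖s.prod‖ = a ^ (Multiset.card s) := by
      intro s
      induction s using Multiset.induction_on with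
      | empty => intro _; simp
      | cons v s ih =>
        intro hs
        rw [Multiset.prod_cons, norm_mul, hs v (Multiset.mem_cons_self v s),
          ih (fun u hu => hs u (Multiset.mem_cons_of_mem hu)), Multiset.card_cons, pow_succ]
        ring
    have h4 : a ^ (Multiset.card Q.roots) = 1 := by
      rw [← h3 _ hroots, ← h2, h1, norm_mul, norm_pow, norm_neg, norm_one, one_pow, one_mul]
    have h5 : Multiset.card Q.roots ≠ 0 := by
      have h6 : r ∈ Q.roots := by
        rw [mem_roots hQm.ne_zero, IsRoot.def, hQ, eval_map_algebraMap]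
        exact minpoly.aeval ℤ r
      exact (Multiset.card_pos_iff_exists_mem.2 ⟨r, h6⟩).ne'
    exact ha ((pow_eq_one_iff_of_nonneg ha0 h5).1 h4)
  have hirr : Irreducible (minpoly ℚ r) := minpoly.irreducible (hri.tower_top)
  have hmap : minpoly ℚ r = (minpoly ℤ r).map (algebraMap ℤ ℚ) :=
    minpoly.isIntegrallyClosed_eq_field_fractions' ℚ hri
  refine minpoly.eq_of_irreducible_of_monic hirr ?_ (minpoly.monic hri.tower_top)
  rw [hmap, aeval_map_algebraMap]
  exact hwq

theorem Q1_aut (r w : ℂ) (hr : IsIntegral ℚ r) (h : minpoly ℚ r = minpoly ℚ w) :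
    ∃ τ : algebraicClosure ℚ ℂ ≃ₐ[ℚ] algebraicClosure ℚ ℂ,
      ∀ x : algebraicClosure ℚ ℂ, (x : ℂ) = r → ((τ x : algebraicClosure ℚ ℂ) : ℂ) = w := by
  have hn := q1_norm
  have hw : IsIntegral ℚ w := by
    by_contra hw
    rw [minpoly.eq_zero hw] at h
    exact minpoly.ne_zero hr h
  obtain ⟨r', hr'⟩ : ∃ r' : algebraicClosure ℚ ℂ, (r' : ℂ) = r :=
    ⟨⟨r, mem_algebraicClosure_iff.2 hr.isAlgebraic⟩, rfl⟩
  obtain ⟨w', hw'⟩ : ∃ w' : algebraicClosure ℚ ℂ, (w' : ℂ) = w :=
    ⟨⟨w, mem_algebraicClosure_iff.2 hw.isAlgebraic⟩, rfl⟩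
  have h2 : minpoly ℚ w' = minpoly ℚ r' := by
    have e1 : minpoly ℚ w' = minpoly ℚ (w' : ℂ) := IntermediateField.minpoly_eq w'
    have e2 : minpoly ℚ r' = minpoly ℚ (r' : ℂ) := IntermediateField.minpoly_eq r'
    rw [e1, e2, hr', hw']
    exact h.symm
  obtain ⟨τ, hτ⟩ := (Normal.minpoly_eq_iff_mem_orbit (algebraicClosure ℚ ℂ)).1 h2
  refine ⟨τ, fun x hx => ?_⟩
  have e3 : x = r' := Subtype.ext (hx.trans hr'.symm)
  have e4 : τ r' = w' := hτ
  rw [e3, e4, hw']

end H60T
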