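import Pool.Agent.Lib.H60T.Q1

/-! # H60T, chunk Q2 (M): three roots of equal modulus

PROOF of `three_one`.  Let `a = ‖z1‖`, `b = ‖z4‖`.  The product of the roots is `p.coeff 0` (degree `4`), so `a ^ 3 * b = 1`; `b ≠ a`, hence `a ≠ 1`
(if `a = 1` then `b = 1`), and `a ≥ 0`.  The multiset of roots is invariant under complex conjugation (`p` has real coefficients;
`Polynomial.roots_map` for `starRingEnd ℂ`).  `z4` is the only root of modulus `b`, so `conj z4 = z4`.
`q2_real`: the multiset `{z1, z2, z3}` (roots of modulus `a`) is invariant under conjugation.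
Suppose one of them, `c`, is not real.  Then `conj c` is another one, and the third one `r` satisfies `conj r = r`
(the multiset `{c, conj c, r}` is invariant: `{conj c, c, conj r} = {c, conj c, r}`, cancel).  So `r ^ 2 = a ^ 2 = c * conj c`, `c ≠ r`, `conj c ≠ r`.
`r ≠ z4`, `c ≠ z4`, `conj c ≠ z4` by the moduli.  `Q1_conj` with `w = z4` (roots `v ≠ z4` have modulus `a`) and `Q1_aut` give `τ` with `τ r = z4`.
From `r ^ 2 = c * conj c` in `K` we get `z4 ^ 2 = τ c * τ (conj c)`; `τ c` and `τ (conj c)` are roots of `p` (`p` has integral coefficients) different from `τ r = z4`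
(`τ` injective), so they have modulus `a`: `b ^ 2 = a ^ 2`, `b = a`, contradiction.  (All three of `z1, z2, z3` are algebraic, elements of `K`.)
`kronecker`: every root `x` is integral over `ℤ` and all its conjugates are roots of `p`, so of modulus `1`: apply
`NumberField.Embeddings.pow_eq_one_of_norm_eq_one` (or the version for `ℚ⟮x⟯`) to the number field `ℚ⟮x⟯` and push the result to `ℂ`. -/

namespace H60T

open Polynomial

theorem q2_mem (p : ℤ[X]) (hp : p.Monic) (v : ℂ) :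
    v ∈ (p.map (Int.castRingHom ℂ)).roots ↔ aeval v p = 0 := by
  have hne : p.map (Int.castRingHom ℂ) ≠ 0 := (hp.map _).ne_zero
  rw [mem_roots hne, IsRoot, aeval_def, eval₂_eq_eval_map]
  rfl

theorem q2_conj_mem (p : ℤ[X]) (v : ℂ) (hv : aeval v p = 0) :
    aeval ((starRingEnd ℂ) v) p = 0 := by
  have h1 := congrArg (starRingEnd ℂ) hv
  rw [map_zero, aeval_def, hom_eval₂] at h1
  rw [aeval_def]
  have : (starRingEnd ℂ).comp (algebraMap ℤ ℂ) = algebraMap ℤ ℂ := RingHom.ext_int _ _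
  rw [this] at h1
  exact h1

/-- The integral polynomial vanishes at the image of a root under an automorphism. -/
theorem q2_aut (p : ℤ[X]) (τ : algebraicClosure ℚ ℂ ≃ₐ[ℚ] algebraicClosure ℚ ℂ)
    (x : algebraicClosure ℚ ℂ) (hx : aeval (x : ℂ) p = 0) :
    aeval ((τ x : algebraicClosure ℚ ℂ) : ℂ) p = 0 := by
  have h0 : aeval x p = 0 := by
    have e : ((aeval x p : algebraicClosure ℚ ℂ) : ℂ) = aeval (x : ℂ) p := by
      have h := hom_eval₂ p (algebraMap ℤ (algebraicClosure ℚ ℂ))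
        (algebraMap (algebraicClosure ℚ ℂ) ℂ) x
      have h2 : (algebraMap (algebraicClosure ℚ ℂ) ℂ).comp
        (algebraMap ℤ (algebraicClosure ℚ ℂ)) = algebraMap ℤ ℂ := RingHom.ext_int _ _
      rw [h2] at h
      rw [aeval_def, aeval_def]
      exact h
    rw [hx] at e
    exact_mod_cast e
  have h1 : aeval (τ x) p = 0 := by
    have h := hom_eval₂ p (algebraMap ℤ (algebraicClosure ℚ ℂ))
      (τ : algebraicClosure ℚ ℂ →+* algebraicClosure ℚ ℂ) x
    have h2 : (τ : algebraicClosure ℚ ℂ →+* algebraicClosure ℚ ℂ).comp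
      (algebraMap ℤ (algebraicClosure ℚ ℂ)) = algebraMap ℤ (algebraicClosure ℚ ℂ) :=
        RingHom.ext_int _ _
    rw [h2] at h
    rw [aeval_def] at h0 ⊢
    rw [h0, map_zero] at h
    exact h.symm
  have e : ((aeval (τ x) p : algebraicClosure ℚ ℂ) : ℂ) =
      aeval ((τ x : algebraicClosure ℚ ℂ) : ℂ) p := by
    have h := hom_eval₂ p (algebraMap ℤ (algebraicClosure ℚ ℂ))
      (algebraMap (algebraicClosure ℚ ℂ) ℂ) (τ x)
    have h2 : (algebraMap (algebraicClosure ℚ ℂ) ℂ).comp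
      (algebraMap ℤ (algebraicClosure ℚ ℂ)) = algebraMap ℤ ℂ := RingHom.ext_int _ _
    rw [h2] at h
    rw [aeval_def, aeval_def]
    exact h
  rw [← e, h1]
  rfl

/-- The main step: `c` is not real, `conj c` and the real number `r` are roots of the same
modulus, `w` is the only root of another modulus. -/
theorem q2_main (p : ℤ[X]) (hp : p.Monic) (h0 : p.coeff 0 = 1 ∨ p.coeff 0 = -1)
    (c r w : ℂ) {a : ℝ} (ha1 : a ≠ 1) (ha0 : 0 ≤ a)
    (hc : aeval c p = 0) (hr : aeval r p = 0) (hw : aeval w p = 0)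
    (h : ∀ v : ℂ, aeval v p = 0 → v ≠ w → ‖v‖ = a) (hwa : ‖w‖ ≠ a)
    (hcn : ‖c‖ = a) (hrn : ‖r‖ = a) (hcim : c.im ≠ 0) (hrim : r.im = 0) : False := by
  have hint : ∀ v : ℂ, aeval v p = 0 → IsIntegral ℚ v := by
    intro v hv
    have h1 : IsIntegral ℤ v := ⟨p, hp, by rw [← aeval_def]; exact hv⟩
    exact h1.tower_top
  have hmem : ∀ v : ℂ, aeval v p = 0 → v ∈ algebraicClosure ℚ ℂ := by
    intro v hv
    rw [mem_algebraicClosure_iff]
    exact (hint v hv).isAlgebraic
  have hmin := Q1_conj p hp h0 r w ha1 ha0 hr hw h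
  obtain ⟨τ, hτ⟩ := Q1_aut r w (hint r hr) hmin
  have hcc := q2_conj_mem p c hc
  set rK : algebraicClosure ℚ ℂ := ⟨r, hmem r hr⟩ with hrK
  set cK : algebraicClosure ℚ ℂ := ⟨c, hmem c hc⟩ with hcK
  set dK : algebraicClosure ℚ ℂ := ⟨(starRingEnd ℂ) c, hmem _ hcc⟩ with hdK
  have e1 : r * r = c * (starRingEnd ℂ) c := by
    rw [Complex.mul_conj]
    have : r = (r.re : ℂ) := by
      apply Complex.ext
      · simp
      · simp [hrim]
    have h2 : r * r = ((‖r‖ ^ 2 : ℝ) : ℂ) := by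
      have h3 : ‖r‖ ^ 2 = r.re ^ 2 := by
        rw [← Complex.normSq_eq_norm_sq, Complex.normSq_apply, hrim]
        ring
      rw [h3]
      conv_lhs => rw [this]
      push_cast
      ring
    rw [h2, hrn, ← hcn, ← Complex.normSq_eq_norm_sq]
  have e2 : rK * rK = cK * dK := by
    apply Subtype.ext
    exact e1
  have e3 : τ rK * τ rK = τ cK * τ dK := by
    rw [← map_mul, ← map_mul, e2]
  have e4 : ((τ rK : algebraicClosure ℚ ℂ) : ℂ) = w := hτ rK rfl
  have hcr : cK ≠ rK := by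
    intro h
    have := congrArg (fun x : algebraicClosure ℚ ℂ => (x : ℂ)) h
    simp only [hcK, hrK] at this
    exact hcim (by rw [this]; exact hrim)
  have hdr : dK ≠ rK := by
    intro h
    have := congrArg (fun x : algebraicClosure ℚ ℂ => (x : ℂ)) h
    simp only [hdK, hrK] at this
    have h2 := congrArg Complex.im this
    rw [Complex.conj_im, hrim] at h2
    exact hcim (by linarith)
  have n1 : ‖((τ cK : algebraicClosure ℚ ℂ) : ℂ)‖ = a := by
    refine h _ (q2_aut p τ cK hc) ?_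
    intro h
    apply hcr
    apply τ.injective
    apply Subtype.ext
    rw [h, e4]
  have n2 : ‖((τ dK : algebraicClosure ℚ ℂ) : ℂ)‖ = a := by
    refine h _ (q2_aut p τ dK hcc) ?_
    intro h
    apply hdr
    apply τ.injective
    apply Subtype.ext
    rw [h, e4]
  have e5 := congrArg (fun x : algebraicClosure ℚ ℂ => ‖(x : ℂ)‖) e3
  simp only [MulMemClass.coe_mul, norm_mul, n1, n2, e4] at e5
  have h6 : ‖w‖ = a := by
    have h7 : (‖w‖ - a) * (‖w‖ + a) = 0 := by linear_combination e5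
    rcases mul_eq_zero.1 h7 with h8 | h8
    · linarith
    · have := norm_nonneg w
      linarith
  exact hwa h6

theorem three_one (p : ℤ[X]) (hp : p.Monic) (h0 : p.coeff 0 = 1 ∨ p.coeff 0 = -1)
    (z1 z2 z3 z4 : ℂ) (hz : (p.map (Int.castRingHom ℂ)).roots = {z1, z2, z3, z4})
    (h12 : ‖z1‖ = ‖z2‖) (h23 : ‖z2‖ = ‖z3‖) (h34 : ‖z4‖ ≠ ‖z3‖) :
    z1.im = 0 ∧ z2.im = 0 ∧ z3.im = 0 ∧ z4.im = 0 := by
  set P := p.map (Int.castRingHom ℂ) with hP
  have hPm : P.Monic := hp.map _
  have hsplit : P.Splits := IsAlgClosed.splits P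
  have hprod := hsplit.eq_prod_roots_of_monic hPm
  rw [hz] at hprod
  have hprod' : P = (X - C z1) * ((X - C z2) * ((X - C z3) * (X - C z4))) := by
    rw [hprod]
    simp [Multiset.insert_eq_cons]
  have hm : ∀ v, aeval v p = 0 ↔ v = z1 ∨ v = z2 ∨ v = z3 ∨ v = z4 := by
    intro v
    rw [← q2_mem p hp, ← hP, hz]
    simp [Multiset.insert_eq_cons]
  have r1 : aeval z1 p = 0 := (hm z1).2 (Or.inl rfl)
  have r2 : aeval z2 p = 0 := (hm z2).2 (Or.inr (Or.inl rfl))
  have r3 : aeval z3 p = 0 := (hm z3).2 (Or.inr (Or.inr (Or.inl rfl)))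
  have r4 : aeval z4 p = 0 := (hm z4).2 (Or.inr (Or.inr (Or.inr rfl)))
  -- constant coefficient
  have hc0 : ‖z1‖ * (‖z2‖ * (‖z3‖ * ‖z4‖)) = 1 := by
    have e1 : P.coeff 0 = z1 * (z2 * (z3 * z4)) := by
      rw [hprod']
      simp only [mul_coeff_zero, coeff_sub, coeff_X_zero, coeff_C_zero]
      ring
    have e2 : P.coeff 0 = ((p.coeff 0 : ℤ) : ℂ) := by
      rw [hP, coeff_map]
      rfl
    rw [← norm_mul, ← norm_mul, ← norm_mul, ← e1, e2]
    rcases h0 with h | h
    · rw [h]; simp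
    · rw [h]; simp
  set a := ‖z3‖ with ha
  have ha0 : 0 ≤ a := norm_nonneg _
  have hb : ‖z4‖ ≠ a := h34
  have ha1 : a ≠ 1 := by
    intro h
    rw [h12, h23, h] at hc0
    apply hb
    rw [h]
    linarith
  have hroots : ∀ v : ℂ, aeval v p = 0 → v ≠ z4 → ‖v‖ = a := by
    intro v hv hv4
    rcases (hm v).1 hv with h | h | h | h
    · rw [h, h12, h23]
    · rw [h, h23]
    · rw [h]
    · exact absurd h hv4
  have hn1 : ‖z1‖ = a := by rw [h12, h23]
  have hn2 : ‖z2‖ = a := h23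
  have hn3 : ‖z3‖ = a := rfl
  -- `z4` is real
  have hz4 : z4.im = 0 := by
    have h1 := q2_conj_mem p z4 r4
    by_contra hne
    have h2 : (starRingEnd ℂ) z4 ≠ z4 := by
      intro h
      have := congrArg Complex.im h
      rw [Complex.conj_im] at this
      exact hne (by linarith)
    have h3 := hroots _ h1 h2
    rw [Complex.norm_conj] at h3
    exact hb h3
  -- the sum of the imaginary parts is zero
  have hsum : z1.im + z2.im + z3.im = 0 := by
    have hdeg : P.natDegree = 4 := by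
      have := hsplit.natDegree_eq_card_roots
      rw [this, hz]
      simp [Multiset.insert_eq_cons]
    have e1 : P.coeff 3 = -(z1 + z2 + z3 + z4) := by
      have : P = X ^ 4 + C (-(z1 + z2 + z3 + z4)) * X ^ 3 +
          C (z1 * z2 + z1 * z3 + z1 * z4 + z2 * z3 + z2 * z4 + z3 * z4) * X ^ 2 +
          C (-(z1 * z2 * z3 + z1 * z2 * z4 + z1 * z3 * z4 + z2 * z3 * z4)) * X +
          C (z1 * z2 * z3 * z4) := by
        rw [hprod']
        simp only [map_add, map_neg, map_mul]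
        ring
      rw [this]
      simp only [coeff_add, coeff_X_pow, coeff_C_mul, coeff_X, coeff_C]
      norm_num
    have e2 : P.coeff 3 = ((p.coeff 3 : ℤ) : ℂ) := by
      rw [hP, coeff_map]
      rfl
    have e3 := congrArg Complex.im (e1.symm.trans e2)
    simp only [Complex.neg_im, Complex.add_im, Complex.intCast_im, hz4] at e3
    linarith
  have hfin : ∀ c d r : ℂ, aeval c p = 0 → aeval r p = 0 → ‖c‖ = a → ‖r‖ = a → c.im ≠ 0 →
      d = (starRingEnd ℂ) c → c.im + d.im + r.im = 0 → False := by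
    intro c d r hc hr hcn hrn hcim hd hs
    have hrim : r.im = 0 := by
      rw [hd, Complex.conj_im] at hs
      linarith
    exact q2_main p hp h0 c r z4 ha1 ha0 hc hr r4 hroots hb hcn hrn hcim hrim
  have hconj : ∀ c : ℂ, aeval c p = 0 → ‖c‖ = a → c.im ≠ 0 →
      (starRingEnd ℂ) c ≠ c ∧ (starRingEnd ℂ) c ≠ z4 := by
    intro c hc hcn hcim
    constructor
    · intro h
      have := congrArg Complex.im h
      rw [Complex.conj_im] at this
      exact hcim (by linarith)
    · intro h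
      apply hb
      rw [← h, Complex.norm_conj, hcn]
  refine ⟨?_, ?_, ?_, hz4⟩
  · by_contra hne
    obtain ⟨h1, h2⟩ := hconj z1 r1 hn1 hne
    rcases (hm _).1 (q2_conj_mem p z1 r1) with h | h | h | h
    · exact h1 h
    · exact hfin z1 z2 z3 r1 r3 hn1 hn3 hne h.symm hsum
    · exact hfin z1 z3 z2 r1 r2 hn1 hn2 hne h.symm (by linarith)
    · exact h2 h
  · by_contra hne
    obtain ⟨h1, h2⟩ := hconj z2 r2 hn2 hne
    rcases (hm _).1 (q2_conj_mem p z2 r2) with h | h | h | h
    · exact hfin z2 z1 z3 r2 r3 hn2 hn3 hne h.symm (by linarith)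
    · exact h1 h
    · exact hfin z2 z3 z1 r2 r1 hn2 hn1 hne h.symm (by linarith)
    · exact h2 h
  · by_contra hne
    obtain ⟨h1, h2⟩ := hconj z3 r3 hn3 hne
    rcases (hm _).1 (q2_conj_mem p z3 r3) with h | h | h | h
    · exact hfin z3 z1 z2 r3 r2 hn3 hn2 hne h.symm (by linarith)
    · exact hfin z3 z2 z1 r3 r1 hn3 hn1 hne h.symm (by linarith)
    · exact h1 h
    · exact h2 h

open IntermediateField in
theorem kronecker (p : ℤ[X]) (hp : p.Monic)
    (h : ∀ z : ℂ, z ∈ (p.map (Int.castRingHom ℂ)).roots → ‖z‖ = 1) (z : ℂ)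
    (hz : z ∈ (p.map (Int.castRingHom ℂ)).roots) : ∃ N : ℕ, 0 < N ∧ z ^ N = 1 := by
  have hz0 : aeval z p = 0 := (q2_mem p hp z).1 hz
  have hzi : IsIntegral ℤ z := ⟨p, hp, by rw [← aeval_def]; exact hz0⟩
  have hzq : IsIntegral ℚ z := hzi.tower_top
  have hfd : FiniteDimensional ℚ ℚ⟮z⟯ := IntermediateField.adjoin.finiteDimensional hzq
  have hnf : NumberField ℚ⟮z⟯ := { to_charZero := inferInstance, to_finiteDimensional := hfd }
  set x : ℚ⟮z⟯ := IntermediateField.AdjoinSimple.gen ℚ z with hx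
  have hxz : ((x : ℚ⟮z⟯) : ℂ) = z := IntermediateField.AdjoinSimple.coe_gen ℚ z
  have hx0 : aeval x p = 0 := by
    have e : ((aeval x p : ℚ⟮z⟯) : ℂ) = aeval (x : ℂ) p := by
      have h := hom_eval₂ p (algebraMap ℤ ℚ⟮z⟯) (algebraMap ℚ⟮z⟯ ℂ) x
      have h2 : (algebraMap ℚ⟮z⟯ ℂ).comp (algebraMap ℤ ℚ⟮z⟯) = algebraMap ℤ ℂ :=
        RingHom.ext_int _ _
      rw [h2] at h
      rw [aeval_def, aeval_def]
      exact h
    rw [hxz, hz0] at e
    exact_mod_cast e
  have hxi : IsIntegral ℤ x := ⟨p, hp, by rw [← aeval_def]; exact hx0⟩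
  obtain ⟨n, hn0, hn⟩ := NumberField.Embeddings.pow_eq_one_of_norm_eq_one ℚ⟮z⟯ ℂ hxi (by
    intro φ
    apply h
    rw [q2_mem p hp]
    have h1 := hom_eval₂ p (algebraMap ℤ ℚ⟮z⟯) φ x
    have h2 : φ.comp (algebraMap ℤ ℚ⟮z⟯) = algebraMap ℤ ℂ := RingHom.ext_int _ _
    rw [h2] at h1
    rw [aeval_def] at hx0
    rw [hx0, map_zero] at h1
    rw [aeval_def]
    exact h1.symm)
  refine ⟨n, hn0, ?_⟩
  have := congrArg (fun y : ℚ⟮z⟯ => (y : ℂ)) hn
  simp only [SubmonoidClass.coe_pow, OneMemClass.coe_one] at this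
  rw [hxz] at this
  exact this

end H60T
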