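import Pool.Agent.Lib.H60T.Defs

/-! # H60T, chunk T1 (S/M): the conjugators; an element fixing the base form

`exists_x`: `(1 + T V Φᵀ) (1 - T V Φᵀ) = 1` because `V Φᵀ V Φᵀ = V (Φᵀ V) Φᵀ = 0`; the determinant is `1` by
`Matrix.det_one_add_mul_comm` (`det (1 + (T V) Φᵀ) = det (1 + Φᵀ (T V)) = det 1`).  The inverse in `SL` is the inverse matrix.
`exists_u`: take `p = n - 1` (the last index, `p ≥ k` since `2 k ≤ n`, `1 ≤ k`), `q = 0`, `u = 1 + E_{pq}`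
(`Matrix.SpecialLinearGroup` of `Matrix.transvection p q 1`, `Matrix.det_transvection_of_ne`), `u ^ j = 1 + j E_{pq} ≠ 1`, and
`u⁻¹ = 1 - E_{pq}`.  `rho u (dform e_I) = op k (cm u⁻¹) (dform e_I)`; at `y` it is `det (b ↦ e_Iᵀ *ᵥ (cm u⁻¹ *ᵥ y b))` and
`e_Iᵀ *ᵥ (cm u⁻¹ *ᵥ v) = e_Iᵀ *ᵥ v` because the rows `a < k` of `u⁻¹` are those of the identity (`p ≥ k`).
`eI_facts`: small matrix facts. -/

namespace H60T

open Matrix

variable {n k : ℕ}

theorem t1_ort {R : Type*} [CommRing R] (f g : Fin k → Fin n) :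
    (Matrix.of fun (i : Fin n) (a : Fin k) => if i = f a then (1 : R) else 0)ᵀ *
      (Matrix.of fun (i : Fin n) (a : Fin k) => if i = g a then (1 : R) else 0)
      = Matrix.of fun a b => if f a = g b then 1 else 0 := by
  ext a b
  rw [Matrix.mul_apply]
  simp only [Matrix.transpose_apply, Matrix.of_apply]
  rw [Finset.sum_eq_single (f a)]
  · rw [if_pos rfl, one_mul]
  · intro i _ hi
    rw [if_neg hi, zero_mul]
  · intro h
    exact absurd (Finset.mem_univ _) h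

theorem eI_eI {R : Type*} [CommRing R] (h2 : 2 * k ≤ n) : (eI R h2)ᵀ * eI R h2 = 1 := by
  unfold eI
  rw [t1_ort]
  ext a b
  rw [Matrix.of_apply, Matrix.one_apply]
  have h : (iI h2 a = iI h2 b) ↔ a = b := by
    unfold iI
    rw [Fin.mk.injEq, Fin.ext_iff]
  simp only [h]

theorem eJ_eJ {R : Type*} [CommRing R] (h2 : 2 * k ≤ n) : (eJ R h2)ᵀ * eJ R h2 = 1 := by
  unfold eJ
  rw [t1_ort]
  ext a b
  rw [Matrix.of_apply, Matrix.one_apply]
  have h : (iJ h2 a = iJ h2 b) ↔ a = b := by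
    unfold iJ
    rw [Fin.mk.injEq, Fin.ext_iff]
    omega
  simp only [h]

theorem eJ_eI {R : Type*} [CommRing R] (h2 : 2 * k ≤ n) : (eJ R h2)ᵀ * eI R h2 = 0 := by
  unfold eJ eI
  rw [t1_ort]
  ext a b
  rw [Matrix.of_apply, Matrix.zero_apply, if_neg]
  unfold iI iJ
  rw [Fin.mk.injEq]
  have := b.2
  omega

theorem eI_eJ {R : Type*} [CommRing R] (h2 : 2 * k ≤ n) : (eI R h2)ᵀ * eJ R h2 = 0 := by
  unfold eJ eI
  rw [t1_ort]
  ext a b
  rw [Matrix.of_apply, Matrix.zero_apply, if_neg]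
  unfold iI iJ
  rw [Fin.mk.injEq]
  have := a.2
  omega

theorem t1_det (V Φ : Matrix (Fin n) (Fin k) ℤ) (h : Φᵀ * V = 0) (T : ℤ) :
    (1 + T • (V * Φᵀ)).det = 1 := by
  have h1 : T • (V * Φᵀ) = (T • V) * Φᵀ := by rw [Matrix.smul_mul]
  rw [h1, Matrix.det_one_add_mul_comm, Matrix.mul_smul, h, smul_zero, add_zero, Matrix.det_one]

theorem t1_map (V Φ : Matrix (Fin n) (Fin k) ℤ) (T : ℤ) :
    (1 + T • (V * Φᵀ)).map (fun a : ℤ => (a : ℂ)) =
      1 + (T : ℂ) • (V.map (fun a : ℤ => (a : ℂ)) * (Φ.map (fun a : ℤ => (a : ℂ)))ᵀ) := by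
  ext i j
  simp only [Matrix.map_apply, Matrix.add_apply, Matrix.smul_apply, Matrix.mul_apply,
    Matrix.transpose_apply, Matrix.one_apply, smul_eq_mul]
  push_cast
  rfl

theorem exists_x (V Φ : Matrix (Fin n) (Fin k) ℤ) (h : Φᵀ * V = 0) (T : ℤ) :
    ∃ x : SLZ n, cm x = 1 + (T : ℂ) • (V.map (fun a : ℤ => (a : ℂ)) * (Φ.map (fun a : ℤ => (a : ℂ)))ᵀ) ∧
      cm x⁻¹ = 1 + (-(T : ℂ)) • (V.map (fun a : ℤ => (a : ℂ)) * (Φ.map (fun a : ℤ => (a : ℂ)))ᵀ) := by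
  let x : SLZ n := ⟨1 + T • (V * Φᵀ), t1_det V Φ h T⟩
  let x' : SLZ n := ⟨1 + (-T) • (V * Φᵀ), t1_det V Φ h (-T)⟩
  have hN : (V * Φᵀ) * (V * Φᵀ) = 0 := by
    rw [Matrix.mul_assoc, ← Matrix.mul_assoc Φᵀ V Φᵀ, h, Matrix.zero_mul, Matrix.mul_zero]
  have hx : x * x' = 1 := by
    apply Subtype.ext
    change (1 + T • (V * Φᵀ)) * (1 + (-T) • (V * Φᵀ)) = 1
    rw [Matrix.add_mul, Matrix.mul_add, Matrix.mul_add, Matrix.one_mul, Matrix.mul_one,
      Matrix.one_mul, Matrix.smul_mul, Matrix.mul_smul, hN, smul_zero, smul_zero, add_zero, neg_smul]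
    abel
  have hinv : x⁻¹ = x' := inv_eq_of_mul_eq_one_right hx
  refine ⟨x, t1_map V Φ T, ?_⟩
  rw [hinv]
  have h1 := t1_map V Φ (-T)
  rw [Int.cast_neg] at h1
  exact h1

theorem t1_castI (h2 : 2 * k ≤ n) : (eI ℤ h2).map (fun a : ℤ => (a : ℂ)) = eI ℂ h2 := by
  ext i a
  simp only [Matrix.map_apply, eI, Matrix.of_apply]
  split_ifs
  · exact Int.cast_one
  · exact Int.cast_zero

theorem t1_castJ (h2 : 2 * k ≤ n) : (eJ ℤ h2).map (fun a : ℤ => (a : ℂ)) = eJ ℂ h2 := by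
  ext i a
  simp only [Matrix.map_apply, eJ, Matrix.of_apply]
  split_ifs
  · exact Int.cast_one
  · exact Int.cast_zero

theorem exists_u (h2 : 2 * k ≤ n) (hk : 1 ≤ k) :
    ∃ u : SLZ n, rho n k u (dform (eI ℂ h2)) = dform (eI ℂ h2) ∧ ∀ j : ℕ, 0 < j → u ^ j ≠ 1 := by
  obtain ⟨u, hu, hu'⟩ := exists_x (eJ ℤ h2) (eI ℤ h2) (eI_eJ h2) 1
  rw [t1_castI, t1_castJ] at hu hu'
  refine ⟨u, ?_, ?_⟩
  · rw [rho_apply, hu']
    ext y
    rw [op_apply, dform_apply, dform_apply]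
    have h : (fun b : Fin k => (eI ℂ h2)ᵀ *ᵥ ((1 + (-((1 : ℤ) : ℂ)) • (eJ ℂ h2 * (eI ℂ h2)ᵀ)) *ᵥ y b))
        = fun b => (eI ℂ h2)ᵀ *ᵥ y b := by
      funext b
      rw [Matrix.mulVec_mulVec, Matrix.mul_add, Matrix.mul_one, Matrix.mul_smul, ← Matrix.mul_assoc,
        eI_eJ, Matrix.zero_mul, smul_zero, add_zero]
    rw [h]
  · intro j hj hone
    have h1 : cm (u ^ j) = 1 + (j : ℂ) • (eJ ℂ h2 * (eI ℂ h2)ᵀ) := by
      rw [cm_pow, hu]
      clear hj hone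
      induction j with
      | zero => rw [pow_zero, Nat.cast_zero, zero_smul, add_zero]
      | succ j ih =>
        rw [pow_succ, ih, Matrix.add_mul, Matrix.mul_add, Matrix.mul_add, Matrix.one_mul,
          Matrix.mul_one, Matrix.one_mul, Matrix.smul_mul, Matrix.mul_smul, Matrix.mul_assoc,
          ← Matrix.mul_assoc (eI ℂ h2)ᵀ, eI_eJ, Matrix.zero_mul, Matrix.mul_zero, smul_zero,
          smul_zero, add_zero, Nat.cast_succ, Int.cast_one, one_smul, add_smul, one_smul]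
        abel
    rw [hone, cm_one] at h1
    have h3 : (j : ℂ) • (eJ ℂ h2 * (eI ℂ h2)ᵀ) = 0 := by
      have h4 := congrArg (fun M : Matrix (Fin n) (Fin n) ℂ => M - 1) h1
      simp only [sub_self, add_sub_cancel_left] at h4
      exact h4.symm
    have h5 : (eJ ℂ h2)ᵀ * ((j : ℂ) • (eJ ℂ h2 * (eI ℂ h2)ᵀ)) * eI ℂ h2 = (j : ℂ) • 1 := by
      rw [Matrix.mul_smul, ← Matrix.mul_assoc, eJ_eJ, Matrix.one_mul, Matrix.smul_mul, eI_eI]
    rw [h3, Matrix.mul_zero, Matrix.zero_mul] at h5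
    have h6 := congrFun (congrFun h5 ⟨0, hk⟩) ⟨0, hk⟩
    rw [Matrix.zero_apply, Matrix.smul_apply, Matrix.one_apply_eq, smul_eq_mul, mul_one] at h6
    have h7 : j = 0 := by exact_mod_cast h6.symm
    omega

end H60T
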