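import Pool.Agent.Lib.H60T.D1
import Pool.Agent.Lib.H60T.D3
import Pool.Agent.Lib.H60T.E1
import Pool.Agent.Lib.H60T.T1
import Pool.Agent.Lib.H60T.F3

/-! # H60T, chunk S1 (M): one more element

PROOF.  `w0 = dform e_I`, `wi = dform e_J`, `fi = evl e_I`.  `fi w0 = det (e_Iᵀ e_I) = 1 ≠ 0`, `fi wi = det (e_Jᵀ e_I) = det 0 = 0`
(`evl_dform`, `eI_eI`, `eJ_eI`, `1 ≤ k`), `wi ≠ 0` as `evl e_J wi = 1`.  Take `ε` from `step_abs`, then `V, Φ` from `flag` with this `ε`,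
`w = dform Φc`, `f = evl Vc`, and `δ, η` from `step_abs`.
`expand` for `Vc, Φc`, constant `C`; `X T = op k (1 + (-T) • (Vc * Φcᵀ))`, `X' T = op k (1 + T • (Vc * Φcᵀ))` satisfy the hypotheses of
`contract` with `a = (-T)^k` and `a = T^k` (`‖(T : ℂ)‖ = T` for `T ≥ 1`).  Let `T0` be from `contract` and `T ≥ T0` an integer (also `T ≥ 1`),
`x` from `exists_x`.  `d = ⟨w, f, δ, η, x⟩`.
For `m ≠ 0`: `(x g x⁻¹)^m = x g^m x⁻¹` (`conj_zpow`), `rho` of it is `rho x * rho (g^m) * rho x⁻¹`, `rho x = op k (cm x⁻¹) = X T`,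
`rho x⁻¹ = op k (cm x) = X' T`, `rho (g^m) = op k (cm (g^m)⁻¹) = op k (cm (g^(-m)))`.  The hypothesis `c ‖M‖ ≤ ‖f (M w)‖` for
`M = rho (g^m)` is the last statement of `flag` for `-m`.  `0 < ‖M‖`: `M * rho (g^(-m)) = 1` and `1 ≠ 0` (`w0 ≠ 0`). -/

namespace H60T

open Matrix

variable {n k : ℕ}

theorem step (h2 : 2 * k ≤ n) (hk : 1 ≤ k) (g : SLZ n) (hg : Gap g k) (hg' : Gap g (n - k))
    (L : List (Dat (Form n k) (SLZ n)))
    (hL : ∀ d ∈ L, Inv (dform (eJ ℂ h2)) (evl (eI ℂ h2)) d) :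
    ∃ d : Dat (Form n k) (SLZ n), Good h2 g d ∧ Inv (dform (eJ ℂ h2)) (evl (eI ℂ h2)) d ∧
      ∀ d' ∈ L, Compat d' d := by
  have a1 : evl (eI ℂ h2) (dform (eI ℂ h2)) = 1 := by rw [evl_dform, eI_eI, det_one]
  have a2 : evl (eI ℂ h2) (dform (eJ ℂ h2)) = 0 := by
    have : Nonempty (Fin k) := ⟨⟨0, hk⟩⟩
    rw [evl_dform, eJ_eI, det_zero]
  have a3 : evl (eJ ℂ h2) (dform (eJ ℂ h2)) = 1 := by rw [evl_dform, eJ_eJ, det_one]
  have a4 : dform (eJ ℂ h2) ≠ 0 := by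
    intro h
    rw [h, map_zero] at a3
    exact zero_ne_one a3
  have a5 : evl (eI ℂ h2) (dform (eI ℂ h2)) ≠ 0 := by
    rw [a1]
    exact one_ne_zero
  obtain ⟨ε, hε, hstep⟩ := step_abs (dform (eI ℂ h2)) (dform (eJ ℂ h2)) (evl (eI ℂ h2)) a5 a2 a4
    L hL
  obtain ⟨V, Φ, hΦV, Vc, Φc, hVc, hΦc, s, s', hs, hs', b1, b2, b3, b4, c, hc, b5⟩ :=
    flag g h2 hk hg hg' hε
  obtain ⟨δ, η, hδ, hη, c1, c2, c3, c4, c5⟩ :=
    hstep (dform Φc) (evl Vc) s s' hs hs' b1 b2 b3 b4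
  obtain ⟨C, hC⟩ := expand Vc Φc hk
  obtain ⟨T0, hT0⟩ := contract (dform Φc) (evl Vc) hk
    (fun T => op k (1 + (-(T : ℂ)) • (Vc * Φcᵀ))) (fun T => op k (1 + (T : ℂ) • (Vc * Φcᵀ)))
    (C := C) (fun T hT => ⟨(-(T : ℂ)) ^ k, by
      rw [norm_pow, norm_neg, Complex.norm_real, Real.norm_of_nonneg (by linarith)], by
      have h := hC (-(T : ℂ)) (by
        rw [norm_neg, Complex.norm_real, Real.norm_of_nonneg (by linarith)]
        exact hT)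
      rw [norm_neg, Complex.norm_real, Real.norm_of_nonneg (by linarith)] at h
      exact h⟩)
    (fun T hT => ⟨(T : ℂ) ^ k, by
      rw [norm_pow, Complex.norm_real, Real.norm_of_nonneg (by linarith)], by
      have h := hC (T : ℂ) (by
        rw [Complex.norm_real, Real.norm_of_nonneg (by linarith)]
        exact hT)
      rw [Complex.norm_real, Real.norm_of_nonneg (by linarith)] at h
      exact h⟩) hc hδ hη
  obtain ⟨T, hT⟩ := exists_nat_ge T0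
  obtain ⟨x, hx1, hx2⟩ := exists_x V Φ hΦV (T : ℤ)
  rw [← hVc, ← hΦc] at hx1 hx2
  refine ⟨⟨dform Φc, evl Vc, δ, η, x⟩, ⟨?_, c1, c2⟩, ⟨hδ, c3, hη, c4⟩, fun d' hd' => c5 d' hd'⟩
  intro m hm y hy
  change rho n k ((x * g * x⁻¹) ^ m) y ∈ AA (dform Φc) η
  have r1 : rho n k x = op k (1 + (-((T : ℝ) : ℂ)) • (Vc * Φcᵀ)) := by
    rw [rho_apply, hx2]
    push_cast
    rfl
  have r2 : rho n k x⁻¹ = op k (1 + ((T : ℝ) : ℂ) • (Vc * Φcᵀ)) := by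
    rw [rho_apply, inv_inv, hx1]
    push_cast
    rfl
  have r3 : rho n k (g ^ m) = op k (cm (g ^ (-m))) := by
    rw [rho_apply, _root_.zpow_neg]
  have r4 : rho n k ((x * g * x⁻¹) ^ m) y =
      rho n k x (rho n k (g ^ m) (rho n k x⁻¹ y)) := by
    rw [conj_zpow, map_mul, map_mul]
    rfl
  have r5 : rho n k (g ^ m) ≠ 0 := by
    intro h
    have h1 : rho n k (g ^ m) * rho n k (g ^ m)⁻¹ = 1 := by
      rw [← map_mul, mul_inv_cancel, map_one]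
    rw [h, zero_mul] at h1
    have h3 : (0 : Form n k →L[ℂ] Form n k) (dform (eJ ℂ h2)) =
        (1 : Form n k →L[ℂ] Form n k) (dform (eJ ℂ h2)) := by rw [h1]
    exact a4 h3.symm
  rw [r4, r1, r2]
  refine hT0 T hT (rho n k (g ^ m)) (norm_pos_iff.mpr r5) ?_ y hy
  rw [r3]
  exact b5 (-m) (neg_ne_zero.mpr hm)

end H60T
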