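import Pool.Agent.Lib.H60T.S1
import Pool.Agent.Lib.H60T.D4
import Pool.Agent.Lib.H60T.D5

/-! # H60T, chunk Z1 (M): the subgroup `H_k`

PROOF.  Let `ι = {g : SLZ n // Gap g k ∧ Gap g (n - k)}`, a countable type (`SLZ n` is countable).
If `ι` is empty take `H = ⊥` (= closure of the range of the empty family); otherwise let `g : ℕ → ι` be surjective
(`exists_surjective_nat`) and `f : ℕ → Dat` from `exists_seq5` with `inv = Inv ..`, `good j d = Good h2 (g j) d`, `compat = Compat`, `step`.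
`h j = (f j).x * g j * (f j).x⁻¹`, `H = Subgroup.closure (Set.range h)`.  It contains a conjugate of every element of `ι`.
Index: `u` from `exists_u`.  If `u ^ j ∈ H`, `0 < j`, then `rho (u ^ j) w0 = w0` for `w0 = dform e_I` (induction) and `pong` with
`A j = AA (f j).w (f j).η`, `P j = PP (f j).f (f j).δ` gives `u ^ j = 1`, contradiction; so `index_zero`.
(`i ≠ j` implies `A j ⊆ P i`: `Compat (f i) (f j)` for `i < j` contains both inclusions.) -/

namespace H60T

theorem exists_H (n k : ℕ) (hk : 1 ≤ k) (h2 : 2 * k ≤ n) :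
    ∃ H : Subgroup (SLZ n), H.index = 0 ∧
      ∀ g : SLZ n, Gap g k → Gap g (n - k) → ∃ x : SLZ n, x * g * x⁻¹ ∈ H := by
  obtain ⟨u, hu2, hu1⟩ := exists_u (n := n) (k := k) h2 hk
  have hfix : ∀ j : ℕ, rho n k (u ^ j) (dform (eI ℂ h2)) = dform (eI ℂ h2) := by
    intro j
    induction j with
    | zero =>
      rw [pow_zero, map_one]
      rfl
    | succ j ih =>
      rw [pow_succ, map_mul]
      change rho n k (u ^ j) (rho n k u (dform (eI ℂ h2))) = _
      rw [hu2, ih]
  rcases isEmpty_or_nonempty {g : SLZ n // Gap g k ∧ Gap g (n - k)} with hE | hN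
  · refine ⟨⊥, ?_, fun g hg hg' => (hE.false ⟨g, hg, hg'⟩).elim⟩
    refine index_zero _ u fun j hj hmem => ?_
    exact hu1 j hj (Subgroup.mem_bot.1 hmem)
  · have hc1 : Countable (Matrix (Fin n) (Fin n) ℤ) :=
      inferInstanceAs (Countable (Fin n → Fin n → ℤ))
    have hc2 : Countable (SLZ n) :=
      inferInstanceAs (Countable {A : Matrix (Fin n) (Fin n) ℤ // A.det = 1})
    obtain ⟨g, hg⟩ := exists_surjective_nat {g : SLZ n // Gap g k ∧ Gap g (n - k)}
    obtain ⟨f, hf1, hf2⟩ := exists_seq5 (Inv (dform (eJ ℂ h2)) (evl (eI ℂ h2)))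
      (fun j (d : Dat (Form n k) (SLZ n)) => Good h2 (g j).1 d) Compat
      (fun j L hL => step h2 hk (g j).1 (g j).2.1 (g j).2.2 L hL)
    refine ⟨Subgroup.closure (Set.range fun j => (f j).x * (g j).1 * (f j).x⁻¹), ?_, ?_⟩
    · refine index_zero _ u fun j hj hmem => ?_
      refine hu1 j hj ?_
      refine pong (rho n k) (fun j => (f j).x * (g j).1 * (f j).x⁻¹)
        (fun j => AA (f j).w (f j).η) (fun j => PP (f j).f (f j).δ) (dform (eI ℂ h2))
        (fun i m hm y hy => (hf1 i).1 m hm y hy) ?_ (fun i => (hf1 i).2.1) (fun i => (hf1 i).2.2)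
        (u ^ j) hmem (hfix j)
      intro i j' hij
      rcases lt_or_gt_of_ne hij with h | h
      · exact (hf2 i j' h).2
      · exact (hf2 j' i h).1
    · intro g' hg1 hg2
      obtain ⟨j, hj⟩ := hg ⟨g', hg1, hg2⟩
      refine ⟨(f j).x, Subgroup.subset_closure ⟨j, ?_⟩⟩
      show (f j).x * (g j).1 * (f j).x⁻¹ = _
      rw [hj]

end H60T
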